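import Mathlib.Tactic.Monotonicity.Lemmas
import Mathlib.Analysis.SpecialFunctions.Trigonometric.Basic
import Mathlib.Combinatorics.Hall.Basic
import Pool.Agent.MP_3b4e7c_co.Up.Key

-- ======== part 0: formerly Pool.Agent.MP_3b4e7c_co.Up.Paths
section MrgPart0

/-! Two source labels: choice of the tails, the two paths, and the cyclic ordering. -/

namespace Pool.Agent.MP_3b4e7c_co.Up

open Finset

variable {X : Type*} [DecidableEq X] {Y : Type*} [DecidableEq Y]

/-- labels of `Z` whose trace on `Q` lies in `W` -/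
def ins (H : Y → Finset X) (Z : Finset Y) (Q W : Finset X) : Finset Y :=
  Z.filter (fun y => H y ∩ Q ⊆ W)

theorem exists_ends (H : Y → Finset X) (Z : Finset Y) (Q E : Finset X) (hE : E ⊆ Q)
    (hne : E.Nonempty) (h1 : ∀ W ⊆ Q, W.Nonempty → (ins H Z Q W).card + 1 ≤ W.card)
    (h2 : ∀ W ⊆ Q, E ⊆ W → (ins H Z Q W).card + 2 ≤ W.card) :
    ∃ e1 ∈ E, ∃ e2 ∈ E, e1 ≠ e2 ∧
      ∀ W ⊆ Q, e1 ∈ W → e2 ∈ W → (ins H Z Q W).card + 2 ≤ W.card := by
  obtain ⟨e1, he1⟩ := hne
  set T := Q.powerset.filter (fun W => e1 ∈ W ∧ W.card ≤ (ins H Z Q W).card + 1) with hT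
  have hT0 : {e1} ∈ T := by simp [hT, hE he1]
  obtain ⟨W0, hW0, hmax⟩ := exists_max_image T card ⟨_, hT0⟩
  obtain ⟨w1, w2, w3⟩ := mem_filter.1 hW0
  rw [mem_powerset] at w1
  have : ¬ E ⊆ W0 := fun hh => by have := h2 W0 w1 hh; omega
  obtain ⟨e2, he2, he2'⟩ := not_subset.1 this
  refine ⟨e1, he1, e2, he2, fun hh => he2' (hh ▸ w2), fun W hW a1 a2 => ?_⟩
  by_contra hn
  have s1 : ins H Z Q W ∪ ins H Z Q W0 ⊆ ins H Z Q (W ∪ W0) := by
    intro y hy
    simp only [ins, mem_union, mem_filter] at hy ⊢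
    rcases hy with hy | hy
    · exact ⟨hy.1, hy.2.trans subset_union_left⟩
    · exact ⟨hy.1, hy.2.trans subset_union_right⟩
  have s2 : ins H Z Q W ∩ ins H Z Q W0 ⊆ ins H Z Q (W ∩ W0) := by
    intro y hy
    simp only [ins, mem_inter, mem_filter] at hy ⊢
    exact ⟨hy.1.1, subset_inter hy.1.2 hy.2.2⟩
  have c1 := card_le_card s1
  have c2 := card_le_card s2
  have c3 := card_union_add_card_inter (ins H Z Q W) (ins H Z Q W0)
  have c4 := card_union_add_card_inter W W0
  have c5 := h1 (W ∩ W0) (inter_subset_left.trans hW) ⟨e1, mem_inter.2 ⟨a1, w2⟩⟩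
  have c6 := hmax (W ∪ W0) (mem_filter.2 ⟨mem_powerset.2 (union_subset hW w1),
    mem_union_left _ a1, by omega⟩)
  have c7 : W0.card < (W ∪ W0).card :=
    card_lt_card ⟨subset_union_right, fun hh => he2' (hh (mem_union_left _ a2))⟩
  omega

theorem exists_tails (H : Y → Finset X) (Z : Finset Y) (Q : Finset X) (o e1 e2 : X)
    (h0 : ∀ y ∈ Z, (H y ∩ Q).Nonempty)
    (h1 : ∀ W ⊆ Q, W.Nonempty → (ins H Z Q W).card + 1 ≤ W.card)
    (h2 : ∀ W ⊆ Q, e1 ∈ W → e2 ∈ W → (ins H Z Q W).card + 2 ≤ W.card) :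
    ∃ t : Y → X, (∀ y, y ∉ Z → t y = o) ∧ Set.InjOn t Z ∧
      ∀ y ∈ Z, t y ∈ H y ∧ t y ∈ (Q.erase e1).erase e2 := by
  obtain ⟨f, hf, hf2⟩ := (Finset.all_card_le_biUnion_card_iff_exists_injective
    (fun y : Z => ((H y ∩ Q).erase e1).erase e2)).1 (by
      intro s
      rcases s.eq_empty_or_nonempty with rfl | ⟨y0, hy0⟩
      · simp
      set W := s.biUnion (fun y => H y ∩ Q) with hW
      have hWQ : W ⊆ Q := biUnion_subset.2 (fun y _ => inter_subset_right)
      have e : (s.biUnion fun y : Z => ((H y ∩ Q).erase e1).erase e2) =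
          (W.erase e1).erase e2 := by
        ext x
        simp only [hW, mem_biUnion, mem_erase]
        exact ⟨fun ⟨a, b, c, d, e⟩ => ⟨c, d, a, b, e⟩, fun ⟨c, d, a, b, e⟩ => ⟨a, b, c, d, e⟩⟩
      have c0 : s.card ≤ (ins H Z Q W).card := by
        rw [← card_map (Function.Embedding.subtype _)]
        refine card_le_card (fun y hy => ?_)
        obtain ⟨z, hz, rfl⟩ := mem_map.1 hy
        exact mem_filter.2 ⟨z.2, subset_biUnion_of_mem (fun y : Z => H y ∩ Q) hz⟩
      have c1 := h1 W hWQ ((h0 y0 y0.2).mono (subset_biUnion_of_mem (fun y : Z => H y ∩ Q) hy0))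
      rw [e]
      by_cases a1 : e1 ∈ W
      · by_cases a2 : e2 ∈ W
        · have c2 := h2 W hWQ a1 a2
          have := pred_card_le_card_erase (s := W.erase e1) (a := e2)
          have := pred_card_le_card_erase (s := W) (a := e1)
          omega
        · rw [erase_eq_of_notMem (fun hh => a2 (mem_of_mem_erase hh)), card_erase_of_mem a1]
          omega
      · rw [erase_eq_of_notMem a1]
        have := pred_card_le_card_erase (s := W) (a := e2)
        omega)
  refine ⟨fun y => if h : y ∈ Z then f ⟨y, h⟩ else o, fun y hy => dif_neg hy, ?_, ?_⟩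
  · intro a ha b hb hab
    simp only [dif_pos (mem_coe.1 ha), dif_pos (mem_coe.1 hb)] at hab
    exact congrArg Subtype.val (hf hab)
  · intro y hy
    simp only [dif_pos hy]
    have := hf2 ⟨y, hy⟩
    simp only [mem_erase, mem_inter] at this ⊢
    tauto

/-- the successor relation given by tails and heads of the labels in `Z` -/
def Nx (Z : Finset Y) (t hd : Y → X) (a b : X) : Prop := ∃ y ∈ Z, t y = a ∧ hd y = b

theorem two_paths (Q : Finset X) (Z : Finset Y) (t hd : Y → X) (h1 h2 e1 e2 : X) (r : X → ℕ)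
    (he : e1 ≠ e2) (he1 : e1 ∈ Q) (he2 : e2 ∈ Q) (hh1 : h1 ∈ Q)
    (tinj : Set.InjOn t Z) (tmem : ∀ y ∈ Z, t y ∈ (Q.erase e1).erase e2)
    (tsurj : ∀ x ∈ (Q.erase e1).erase e2, ∃ y ∈ Z, t y = x) (hmem : ∀ y ∈ Z, hd y ∈ Q)
    (hsurj : ∀ x ∈ Q, x = h1 ∨ x = h2 ∨ ∃ y ∈ Z, hd y = x)
    (hr : ∀ y ∈ Z, r (t y) < r (hd y)) :
    ∃ a b, (a = e1 ∧ b = e2 ∨ a = e2 ∧ b = e1) ∧ Relation.ReflTransGen (Nx Z t hd) h1 b ∧
      Relation.ReflTransGen (Nx Z t hd) h2 a ∧ ∀ x ∈ Q,
      Relation.ReflTransGen (Nx Z t hd) h1 x ∨ Relation.ReflTransGen (Nx Z t hd) h2 x := by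
  have back : ∀ m, ∀ x ∈ Q, r x = m →
      Relation.ReflTransGen (Nx Z t hd) h1 x ∨ Relation.ReflTransGen (Nx Z t hd) h2 x := by
    intro m
    induction m using Nat.strong_induction_on with
    | _ m ih =>
      intro x hx hm
      rcases hsurj x hx with rfl | rfl | ⟨y, hy, rfl⟩
      · exact Or.inl .refl
      · exact Or.inr .refl
      · have := ih _ (hm ▸ hr y hy) (t y) (mem_of_mem_erase (mem_of_mem_erase (tmem y hy))) rfl
        exact this.imp (fun h => h.tail ⟨y, hy, rfl, rfl⟩) (fun h => h.tail ⟨y, hy, rfl, rfl⟩)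
  have fwd : ∀ m, ∀ x ∈ Q, Q.sup r - r x = m →
      Relation.ReflTransGen (Nx Z t hd) x e1 ∨ Relation.ReflTransGen (Nx Z t hd) x e2 := by
    intro m
    induction m using Nat.strong_induction_on with
    | _ m ih =>
      intro x hx hm
      by_cases a1 : x = e1
      · exact Or.inl (a1 ▸ .refl)
      by_cases a2 : x = e2
      · exact Or.inr (a2 ▸ .refl)
      obtain ⟨y, hy, rfl⟩ := tsurj x (mem_erase.2 ⟨a2, mem_erase.2 ⟨a1, hx⟩⟩)
      have l1 := hr y hy
      have l2 : r (hd y) ≤ Q.sup r := le_sup (hmem y hy)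
      have := ih (Q.sup r - r (hd y)) (by omega) (hd y) (hmem y hy) rfl
      exact this.imp (fun h => h.head ⟨y, hy, rfl, rfl⟩) (fun h => h.head ⟨y, hy, rfl, rfl⟩)
  have ru : Relator.RightUnique (Nx Z t hd) := by
    rintro a b c ⟨y, hy, rfl, rfl⟩ ⟨z, hz, h, rfl⟩
    rw [tinj hz hy h]
  have stop : ∀ a b, (a = e1 ∨ a = e2) → Relation.ReflTransGen (Nx Z t hd) a b → a = b := by
    intro a b ha h
    rcases h.cases_head with h | ⟨c, ⟨y, hy, h, -⟩, -⟩
    · exact h
    · have := tmem y hy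
      rw [h] at this
      simp only [mem_erase] at this
      tauto
  have both : ¬ (Relation.ReflTransGen (Nx Z t hd) h1 e1 ∧
      Relation.ReflTransGen (Nx Z t hd) h1 e2) := by
    rintro ⟨a, b⟩
    rcases Relation.ReflTransGen.total_of_right_unique ru a b with h | h
    · exact he (stop _ _ (Or.inl rfl) h)
    · exact he (stop _ _ (Or.inr rfl) h).symm
  rcases fwd _ h1 hh1 rfl with h | h
  · exact ⟨e2, e1, Or.inr ⟨rfl, rfl⟩, h,
      (back _ e2 he2 rfl).resolve_left (fun hh => both ⟨h, hh⟩), fun x hx => back _ x hx rfl⟩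
  · exact ⟨e1, e2, Or.inl ⟨rfl, rfl⟩, h,
      (back _ e1 he1 rfl).resolve_left (fun hh => both ⟨hh, h⟩), fun x hx => back _ x hx rfl⟩

theorem two_source [Fintype X] [Fintype Y] (H : Y → Finset X) (Q : Finset X) (Y0 : Finset Y)
    (s1 s2 : Y) (hs1 : s1 ∈ Y0) (hs2 : s2 ∈ Y0) (hs : s1 ≠ s2) (hc : Y0.card = Q.card)
    (t : Y → X) (e1 e2 : X) (he : e1 ≠ e2) (he1 : e1 ∈ Q) (he2 : e2 ∈ Q)
    (tinj : Set.InjOn t ((Y0.erase s1).erase s2 : Finset Y))
    (tmem : ∀ y ∈ (Y0.erase s1).erase s2, t y ∈ (Q.erase e1).erase e2)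
    (hA : ∀ S ⊆ Y0, Acyc S.card (Br (arcs H S Q) t)) :
    ∃ hd : Y → X, (∀ y ∈ Y0, hd y ∈ H y ∧ hd y ∈ Q) ∧
      ∃ a b, (a = e1 ∧ b = e2 ∨ a = e2 ∧ b = e1) ∧
      Relation.ReflTransGen (Nx ((Y0.erase s1).erase s2) t hd) (hd s1) b ∧
      Relation.ReflTransGen (Nx ((Y0.erase s1).erase s2) t hd) (hd s2) a ∧ ∀ x ∈ Q,
      Relation.ReflTransGen (Nx ((Y0.erase s1).erase s2) t hd) (hd s1) x ∨
      Relation.ReflTransGen (Nx ((Y0.erase s1).erase s2) t hd) (hd s2) x := by
  obtain ⟨F, ⟨f1, f2, r, f3⟩, f4, f5⟩ := top_hall Prod.snd (Br (arcs H Y0 Q) t) (Br_empty _ _) Y0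
    (fun S hS => by rw [res_Br H Y0 S hS]; exact hA S hS)
  have ex : ∀ y, ∃ x, y ∈ Y0 → (x, y) ∈ F := by
    intro y
    by_cases hy : y ∈ Y0
    · obtain ⟨a, ha, rfl⟩ := mem_image.1 (f5 ▸ hy)
      exact ⟨a.1, fun _ => ha⟩
    · exact ⟨e1, fun h => absurd h hy⟩
  choose hd hhd using ex
  have hm : ∀ y ∈ Y0, hd y ∈ H y ∧ hd y ∈ Q := fun y hy =>
    ⟨(mem_arcs.1 (f1 (hhd y hy))).2.2, (mem_arcs.1 (f1 (hhd y hy))).1⟩
  have sinj : Set.InjOn Prod.snd (F : Set (X × Y)) := card_image_iff.1 (by rw [f5, f4])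
  have fsurj : F.image Prod.fst = Q := eq_of_subset_of_card_le
    (fun x hx => by obtain ⟨a, ha, rfl⟩ := mem_image.1 hx; exact (mem_arcs.1 (f1 ha)).1)
    (by rw [card_image_of_injOn (fun a ha b hb => f2 a ha b hb), f4, hc])
  have sub : (Y0.erase s1).erase s2 ⊆ Y0 := (erase_subset _ _).trans (erase_subset _ _)
  refine ⟨hd, hm, two_paths Q _ t hd _ _ e1 e2 r he he1 he2 (hm s1 hs1).2 tinj tmem ?_
    (fun y hy => (hm y (sub hy)).2) ?_ (fun y hy => f3 _ (hhd y (sub hy)))⟩
  · intro x hx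
    have : ((Y0.erase s1).erase s2).image t = (Q.erase e1).erase e2 := eq_of_subset_of_card_le
      (fun z hz => by obtain ⟨y, hy, rfl⟩ := mem_image.1 hz; exact tmem y hy)
      (by rw [card_image_of_injOn tinj, card_erase_of_mem (mem_erase.2 ⟨he.symm, he2⟩),
        card_erase_of_mem he1, card_erase_of_mem (mem_erase.2 ⟨hs.symm, hs2⟩),
        card_erase_of_mem hs1, hc])
    exact mem_image.1 (this ▸ hx)
  · intro x hx
    obtain ⟨a, ha, rfl⟩ := mem_image.1 (fsurj ▸ hx)
    have hy := (mem_arcs.1 (f1 ha)).2.1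
    have e : hd a.2 = a.1 := congrArg Prod.fst (sinj (hhd a.2 hy) ha rfl)
    by_cases a1 : a.2 = s1
    · exact Or.inl (by rw [← e, a1])
    by_cases a2 : a.2 = s2
    · exact Or.inr (Or.inl (by rw [← e, a2]))
    exact Or.inr (Or.inr ⟨a.2, mem_erase.2 ⟨a2, mem_erase.2 ⟨a1, hy⟩⟩, e⟩)

theorem cyc_order (n : ℕ) (hn : 0 < n) (P : Finset X) (hP : P.card = n) (H : Fin n → Finset X)
    (t hd : Fin n → X) (tinj : Function.Injective t) (tP : ∀ y, t y ∈ P)
    (hH : ∀ y, t y ∈ H y ∧ hd y ∈ H y) (hdP : ∀ y, hd y ∈ P) (y0 : Fin n)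
    (hr : ∀ x ∈ P, Relation.ReflTransGen (Nx univ t hd) (hd y0) x) :
    ∃ (p : Fin n → X) (σ : Equiv.Perm (Fin n)), Function.Injective p ∧ (∀ k, p k ∈ P) ∧
      ∀ k, p k ∈ H (σ k) ∧ p (finRotate n k) ∈ H (σ k) := by
  have tsurj : ∀ x ∈ P, ∃ y, t y = x := by
    intro x hx
    have : univ.image t = P := eq_of_subset_of_card_le
      (fun z hz => by obtain ⟨y, -, rfl⟩ := mem_image.1 hz; exact tP y)
      (by rw [card_image_of_injective _ tinj]; simp [hP])
    obtain ⟨y, -, h⟩ := mem_image.1 (this ▸ hx)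
    exact ⟨y, h⟩
  choose g hg using fun y => tsurj (hd y) (hdP y)
  have reach : ∀ x, Relation.ReflTransGen (Nx univ t hd) (hd y0) x →
      ∃ j, t (g^[j] (g y0)) = x := by
    intro x h
    induction h with
    | refl => exact ⟨0, hg y0⟩
    | tail _ h2 ih =>
      obtain ⟨j, hj⟩ := ih
      obtain ⟨y, -, h3, rfl⟩ := h2
      refine ⟨j + 1, ?_⟩
      rw [Function.iterate_succ_apply', tinj (hj.trans h3.symm), hg]
  have reach' : ∀ y, ∃ j, g^[j] (g y0) = y := fun y =>
    (reach _ (hr _ (tP y))).imp (fun j h => tinj h)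
  have per : g y0 ∈ Function.periodicPts g := by
    obtain ⟨j, hj⟩ := reach' y0
    exact ⟨j + 1, by omega, by rw [Function.IsPeriodicPt, Function.IsFixedPt,
      Function.iterate_succ_apply', hj]⟩
  have mpos := Function.minimalPeriod_pos_of_mem_periodicPts per
  have minj := Function.iterate_injOn_Iio_minimalPeriod (f := g) (x := g y0)
  have hm : Function.minimalPeriod g (g y0) = n := by
    have e : (range (Function.minimalPeriod g (g y0))).image (fun j => g^[j] (g y0)) = univ := by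
      refine eq_univ_of_forall (fun y => ?_)
      obtain ⟨j, hj⟩ := reach' y
      exact mem_image.2 ⟨j % _, mem_range.2 (Nat.mod_lt _ mpos),
        by rw [Function.iterate_mod_minimalPeriod_eq, hj]⟩
    have := congrArg card e
    rw [card_image_of_injOn (by rw [coe_range]; exact minj)] at this
    simpa using this
  have sinj : Function.Injective (fun k : Fin n => g^[k] (g y0)) := by
    intro a b h
    exact Fin.ext (minj (by rw [hm]; exact a.2) (by rw [hm]; exact b.2) h)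
  refine ⟨fun k => t (g^[k] (g y0)), Equiv.ofBijective _ (Finite.injective_iff_bijective.1 sinj),
    tinj.comp sinj, fun k => tP _, fun k => ⟨(hH _).1, ?_⟩⟩
  have e : g^[(finRotate n k : ℕ)] (g y0) = g (g^[k] (g y0)) := by
    obtain ⟨m, rfl⟩ : ∃ m, n = m + 1 := ⟨n - 1, by omega⟩
    rw [← Function.iterate_succ_apply' g, ← Function.iterate_mod_minimalPeriod_eq (n := k.1.succ),
      hm, finRotate_apply, Fin.val_add]
    simp
  simp only [e, hg, Equiv.ofBijective_apply]
  exact (hH _).2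

end Pool.Agent.MP_3b4e7c_co.Up

end MrgPart0

-- ======== part 1: formerly Pool.Agent.MP_3b4e7c_co.Up.Main
section MrgPart1

/-! The alternating cyclic ordering for families with the bottom point property. -/

namespace Pool.Agent.MP_3b4e7c_co.Up

open Finset

variable {X : Type*}

section counting
variable [DecidableEq X] {n : ℕ} {P : Finset X} {H : Fin n → Finset X}

/-- labels containing at least two points of `W` -/
def N2 (H : Fin n → Finset X) (W : Finset X) : Finset (Fin n) :=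
  univ.filter (fun y => 2 ≤ (W ∩ H y).card)

/-- the Hall-type condition -/
def DH (H : Fin n → Finset X) (P : Finset X) : Prop :=
  ∀ W ⊆ P, 2 ≤ W.card → W.card ≤ (N2 H W).card

theorem N2_disj (W : Finset X) (S : Finset (Fin n)) (h : ∀ y ∈ S, (W ∩ H y).card ≤ 1) :
    S.card + (N2 H W).card ≤ n := by
  have : Disjoint S (N2 H W) := disjoint_left.2 (fun y hy hy2 => by
    have := h y hy
    have := (mem_filter.1 hy2).2
    omega)
  rw [← card_union_of_disjoint this]
  exact (card_le_univ _).trans (by simp)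

theorem DH.two (h : DH H P) (hP : P.card = n) (hn : 2 ≤ n) (y : Fin n) :
    2 ≤ (P ∩ H y).card := by
  by_contra hh
  have h1 := N2_disj (H := H) P {y} (fun z hz => by rw [mem_singleton.1 hz]; omega)
  have h2 := h P Subset.rfl (by omega)
  simp only [card_singleton] at h1
  omega

theorem DH.inside (h : DH H P) (hP : P.card = n) (W : Finset X) (hW : W ⊆ P) (hne : W.Nonempty)
    (hWP : W ≠ P) : (univ.filter (fun y => H y ⊆ W)).card + 1 ≤ W.card := by
  obtain ⟨x, hx⟩ := hne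
  have c1 := card_sdiff_add_card_eq_card hW
  have c2 : W.card < P.card := card_lt_card ⟨hW, fun hh => hWP (hW.antisymm hh)⟩
  have c3 : (insert x (P \ W)).card = (P \ W).card + 1 := card_insert_of_notMem (by simp [hx])
  have h1 := h (insert x (P \ W)) (insert_subset (hW hx) sdiff_subset) (by omega)
  have h2 := N2_disj (H := H) (insert x (P \ W)) (univ.filter (fun y => H y ⊆ W)) (by
    intro y hy
    rw [← card_singleton x]
    refine card_le_card (fun a ha => ?_)
    obtain ⟨a1, a2⟩ := mem_inter.1 ha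
    rcases mem_insert.1 a1 with rfl | a1
    · simp
    · exact absurd ((mem_filter.1 hy).2 a2) (mem_sdiff.1 a1).2)
  omega

theorem DH.tight (h : DH H P) (hP : P.card = n) (W : Finset X) (hW : W ⊆ P) {x x' : X}
    (hx : x ∈ W) (hx' : x' ∈ W) (hne : x ≠ x')
    (ht : W.card ≤ (univ.filter (fun y => H y ⊆ W)).card + 1) : ∃ y, H y ⊆ W ∧ x ∈ H y := by
  by_contra hn
  push Not at hn
  have c1 := card_sdiff_add_card_eq_card hW
  have c3 : (insert x (insert x' (P \ W))).card = (P \ W).card + 2 := by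
    rw [card_insert_of_notMem (by simp [hx, hne]), card_insert_of_notMem (by simp [hx'])]
  have h1 := h (insert x (insert x' (P \ W)))
    (insert_subset (hW hx) (insert_subset (hW hx') sdiff_subset)) (by omega)
  have h2 := N2_disj (H := H) (insert x (insert x' (P \ W))) (univ.filter (fun y => H y ⊆ W)) (by
    intro y hy
    rw [← card_singleton x']
    refine card_le_card (fun a ha => ?_)
    obtain ⟨a1, a2⟩ := mem_inter.1 ha
    rcases mem_insert.1 a1 with rfl | a1
    · exact absurd a2 (hn y (mem_filter.1 hy).2)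
    rcases mem_insert.1 a1 with rfl | a1
    · simp
    · exact absurd ((mem_filter.1 hy).2 a2) (mem_sdiff.1 a1).2)
  omega

theorem DH.pair (h : DH H P) {a b : X} (ha : a ∈ P) (hb : b ∈ P) (hab : a ≠ b) :
    ∃ u u', u ≠ u' ∧ (a ∈ H u ∧ b ∈ H u) ∧ a ∈ H u' ∧ b ∈ H u' := by
  have h1 := h {a, b} (insert_subset ha (by simpa using hb)) (by rw [card_pair hab])
  rw [card_pair hab] at h1
  obtain ⟨u, hu, u', hu', hne⟩ := one_lt_card.1 h1
  have key : ∀ y ∈ N2 H {a, b}, a ∈ H y ∧ b ∈ H y := by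
    intro y hy
    have h2 : ({a, b} : Finset X) ∩ H y = {a, b} := eq_of_subset_of_card_le inter_subset_left
      (by rw [card_pair hab]; exact (mem_filter.1 hy).2)
    have h3 : ({a, b} : Finset X) ⊆ H y := h2 ▸ inter_subset_right
    exact ⟨h3 (by simp), h3 (by simp)⟩
  exact ⟨u, u', hne, key u hu, key u' hu'⟩

theorem Indep.le_one {S : Finset (Fin n)} {I : Finset X} (h : Indep H S I) :
    ∀ y ∈ S, (I ∩ H y).card ≤ 1 := fun y hy => card_le_one.2 (fun a ha b hb =>
  h y hy a (mem_inter.1 ha).1 b (mem_inter.1 hb).1 (mem_inter.1 ha).2 (mem_inter.1 hb).2)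

end counting

variable [LinearOrder X] [Fintype X] {n : ℕ} {P : Finset X} {H : Fin n → Finset X}

theorem run (hB : BL H P) (o : X) (ho : o ∉ P) (Q : Finset X) (hQ : Q ⊆ P) (Y0 : Finset (Fin n))
    (s1 s2 : Fin n) (hs1 : s1 ∈ Y0) (hs2 : s2 ∈ Y0) (hs : s1 ≠ s2) (hc : Y0.card = Q.card)
    (E : Finset X) (hE : E ⊆ Q) (hne : E.Nonempty)
    (h0 : ∀ y, (H y ∩ Q).Nonempty)
    (h1 : ∀ W ⊆ Q, W.Nonempty → (ins H ((Y0.erase s1).erase s2) Q W).card + 1 ≤ W.card)
    (h2 : ∀ W ⊆ Q, E ⊆ W → (ins H ((Y0.erase s1).erase s2) Q W).card + 2 ≤ W.card)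
    (hcov : ∀ x ∈ Q, x ∈ H s1 ∨ x ∈ H s2)
    (hall : ∀ S ⊆ Y0, ∀ I ⊆ Q, Indep H S I → (s2 ∈ S → ∀ a ∈ I, a ∉ H s2) → 2 ≤ I.card →
      S.card + I.card ≤ Q.card) :
    ∃ (t hd : Fin n → X) (a b : X), a ∈ E ∧ b ∈ E ∧ a ≠ b ∧
      Set.InjOn t ((Y0.erase s1).erase s2 : Finset (Fin n)) ∧
      (∀ y ∈ (Y0.erase s1).erase s2, t y ∈ H y ∧ t y ∈ Q ∧ t y ≠ a ∧ t y ≠ b) ∧
      (∀ y ∈ Y0, hd y ∈ H y ∧ hd y ∈ Q) ∧
      Relation.ReflTransGen (Nx ((Y0.erase s1).erase s2) t hd) (hd s1) b ∧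
      Relation.ReflTransGen (Nx ((Y0.erase s1).erase s2) t hd) (hd s2) a ∧ ∀ x ∈ Q,
      Relation.ReflTransGen (Nx ((Y0.erase s1).erase s2) t hd) (hd s1) x ∨
      Relation.ReflTransGen (Nx ((Y0.erase s1).erase s2) t hd) (hd s2) x := by
  obtain ⟨e1, he1, e2, he2, he, h3⟩ := exists_ends H _ Q E hE hne h1 h2
  obtain ⟨t, t0, t1, t2⟩ := exists_tails H _ Q o e1 e2 (fun y _ => h0 y) h1 h3
  have hoQ : o ∉ Q := fun hh => ho (hQ hh)
  obtain ⟨hd, d1, a, b, hab, d2⟩ := two_source H Q Y0 s1 s2 hs1 hs2 hs hc t e1 e2 he (hE he1)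
    (hE he2) t1 (fun y hy => (t2 y hy).2) (by
      intro S hS
      refine hB.e2 S Q hQ t (fun y hy hty => ⟨y, hy, rfl, (t2 y ?_).1⟩) _ ?_
      · by_contra hh
        exact hoQ (t0 y hh ▸ hty)
      · intro I i1 i2 i3
        have a1 : s1 ∈ S → ∀ a ∈ I, a ∉ H s1 := fun h => i3 s1 h (by rw [t0 s1 (by simp)]; exact hoQ)
        have a2 : s2 ∈ S → ∀ a ∈ I, a ∉ H s2 := fun h => i3 s2 h (by rw [t0 s2 (by simp)]; exact hoQ)
        have c1 := card_le_card hS
        by_cases hI : 2 ≤ I.card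
        · exact hall S hS I i1 i2 a2 hI
        · rcases I.eq_empty_or_nonempty with rfl | ⟨x, hx⟩
          · simp only [card_empty]; omega
          · have : S ≠ Y0 := by
              rintro rfl
              rcases hcov x (i1 hx) with h | h
              · exact a1 hs1 x hx h
              · exact a2 hs2 x hx h
            have := card_lt_card (ssubset_of_ne_of_subset this hS)
            omega)
  refine ⟨t, hd, a, b, ?_, ?_, ?_, t1, fun y hy => ?_, d1, d2⟩
  · rcases hab with ⟨rfl, -⟩ | ⟨rfl, -⟩ <;> assumption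
  · rcases hab with ⟨-, rfl⟩ | ⟨-, rfl⟩ <;> assumption
  · rcases hab with ⟨rfl, rfl⟩ | ⟨rfl, rfl⟩
    · exact he
    · exact he.symm
  · have := t2 y hy
    simp only [mem_erase] at this
    rcases hab with ⟨rfl, rfl⟩ | ⟨rfl, rfl⟩ <;> tauto

theorem caseA (hB : BL H P) (hD : DH H P) (hP : P.card = n) (hn : 2 ≤ n) (hsub : ∀ y, H y ⊆ P)
    (o : X) (ho : o ∉ P) (q x : X) (u w : Fin n) (huw : u ≠ w) (hq : q ∈ H u ∩ H w)
    (hx : x ∈ H u ∩ H w) (hqx : q ≠ x) (hcov : ∀ p ∈ P, p ∈ H u ∨ p ∈ H w)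
    (hbot : ∀ r, q ∈ H r → H u ⊆ H r ∪ H w ∨ H w ⊆ H r ∪ H u) :
    ∃ (p : Fin n → X) (σ : Equiv.Perm (Fin n)), Function.Injective p ∧ (∀ k, p k ∈ P) ∧
      ∀ k, p k ∈ H (σ k) ∧ p (finRotate n k) ∈ H (σ k) := by
  have eI : ∀ y, H y ∩ P = H y := fun y => inter_eq_left.2 (hsub y)
  have cZ : ((univ.erase u).erase w).card + 2 = n := by
    rw [card_erase_of_mem (by simp [huw.symm]), card_erase_of_mem (mem_univ _)]
    simp only [card_univ, Fintype.card_fin]; omega
  have sub : ∀ W, ins H ((univ.erase u).erase w) P W ⊆ univ.filter (fun y => H y ⊆ W) := by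
    intro W y hy
    have := (mem_filter.1 hy).2
    rw [eI] at this
    simpa using this
  have cP : (ins H ((univ.erase u).erase w) P P).card + 2 ≤ P.card := by
    have := card_le_card (filter_subset (fun y => H y ∩ P ⊆ P) ((univ.erase u).erase w))
    simp only [ins]; omega
  obtain ⟨t, hd, a, b, ha, hb, hab, t1, t2, d1, r1, r2, r3⟩ := run hB o ho P Subset.rfl univ u w
    (mem_univ _) (mem_univ _) huw (by simp [hP]) (H u ∩ H w) (inter_subset_left.trans (hsub u))
    ⟨q, hq⟩ (fun y => by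
      rw [inter_comm]; exact card_pos.1 (by have := hD.two hP hn y; omega))
    (by
      intro W hW hne
      by_cases hWP : W = P
      · rw [hWP]; omega
      · have := hD.inside hP W hW hne hWP
        have := card_le_card (sub W)
        omega)
    (by
      intro W hW hE
      by_cases hWP : W = P
      · rw [hWP]; exact cP
      have c1 := hD.inside hP W hW ⟨q, hE hq⟩ hWP
      have c2 := card_le_card (sub W)
      by_contra hh
      obtain ⟨s, hs, hqs⟩ := hD.tight hP W hW (hE hq) (hE hx) hqx (by omega)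
      have : ∃ y, H y ⊆ W ∧ y ∉ (univ.erase u).erase w := by
        rcases hbot s hqs with h | h
        · refine ⟨u, fun p hp => ?_, by simp⟩
          rcases mem_union.1 (h hp) with h | h
          · exact hs h
          · exact hE (mem_inter.2 ⟨hp, h⟩)
        · refine ⟨w, fun p hp => ?_, by simp⟩
          rcases mem_union.1 (h hp) with h | h
          · exact hs h
          · exact hE (mem_inter.2 ⟨h, hp⟩)
      obtain ⟨y, y1, y2⟩ := this
      have := card_lt_card (ssubset_iff_of_subset (sub W) |>.2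
        ⟨y, by simpa using y1, fun hy => y2 (mem_filter.1 hy).1⟩)
      omega)
    hcov (by
      intro S _ I i1 i2 _ hI
      have := N2_disj I S i2.le_one
      have := hD I i1 hI
      omega)
  set τ : Fin n → X := fun y => if y = u then a else if y = w then b else t y with hτ
  have τu : τ u = a := by simp [hτ]
  have τw : τ w = b := by simp [hτ, huw.symm]
  have τz : ∀ y ∈ (univ.erase u).erase w, τ y = t y := by
    intro y hy
    simp only [mem_erase] at hy
    simp [hτ, hy.1, hy.2.1]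
  have tri : ∀ y, y = u ∨ y = w ∨ y ∈ (univ.erase u).erase w := by
    intro y; simp only [mem_erase, mem_univ]; tauto
  have mono : ∀ {c d}, Relation.ReflTransGen (Nx ((univ.erase u).erase w) t hd) c d →
      Relation.ReflTransGen (Nx univ τ hd) c d :=
    fun h => Relation.ReflTransGen.mono
      (fun _ _ ⟨y, hy, h1, h2⟩ => ⟨y, mem_univ _, (τz y hy).trans h1, h2⟩) _ _ h
  have τH : ∀ y, τ y ∈ H y := by
    intro y
    rcases tri y with rfl | rfl | hy
    · rw [τu]; exact (mem_inter.1 ha).1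
    · rw [τw]; exact (mem_inter.1 hb).2
    · rw [τz y hy]; exact (t2 y hy).1
  refine cyc_order n (by omega) P hP H τ hd ?_ (fun y => hsub y (τH y))
    (fun y => ⟨τH y, (d1 y (mem_univ _)).1⟩) (fun y => (d1 y (mem_univ _)).2) u ?_
  · intro y z h
    rcases tri y with rfl | rfl | hy <;> rcases tri z with rfl | rfl | hz
    · rfl
    · rw [τu, τw] at h; exact absurd h hab
    · rw [τu, τz z hz] at h; exact absurd h.symm (t2 z hz).2.2.1
    · rw [τu, τw] at h; exact absurd h.symm hab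
    · rfl
    · rw [τw, τz z hz] at h; exact absurd h.symm (t2 z hz).2.2.2
    · rw [τu, τz y hy] at h; exact absurd h (t2 y hy).2.2.1
    · rw [τw, τz y hy] at h; exact absurd h (t2 y hy).2.2.2
    · rw [τz y hy, τz z hz] at h; exact t1 hy hz h
  · intro p hp
    rcases r3 p hp with h | h
    · exact mono h
    · exact ((mono r1).tail ⟨w, mem_univ _, τw, rfl⟩).trans (mono h)

theorem caseB (hB : BL H P) (hD : DH H P) (hP : P.card = n) (hn : 2 ≤ n) (hsub : ∀ y, H y ⊆ P)
    (o : X) (ho : o ∉ P) (q : X) (u u' w : Fin n) (huu : u ≠ u') (huw : H u ≠ H w)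
    (he : H u' = H u) (hq : H u ∩ H w = {q}) (hcov : ∀ p ∈ P, p ∈ H u ∨ p ∈ H w)
    (hall : ∀ r, q ∈ H r → H r = H u ∨ H r = H w) :
    ∃ (p : Fin n → X) (σ : Equiv.Perm (Fin n)), Function.Injective p ∧ (∀ k, p k ∈ P) ∧
      ∀ k, p k ∈ H (σ k) ∧ p (finRotate n k) ∈ H (σ k) := by
  have hqu : q ∈ H u := (mem_inter.1 (hq ▸ mem_singleton_self q)).1
  have hqw : q ∈ H w := (mem_inter.1 (hq ▸ mem_singleton_self q)).2
  have hqP := hsub u hqu
  have n1 : u ≠ w := fun h => huw (h ▸ rfl)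
  have n2 : u' ≠ w := fun h => huw (by rw [← he, h])
  have cQ : (P.erase q).card + 1 = n := by rw [card_erase_add_one hqP, hP]
  have cY : (univ.erase u).card + 1 = n := by rw [card_erase_add_one (mem_univ _)]; simp
  set Z := ((univ.erase u).erase u').erase w with hZ
  have mZ : ∀ y, y ∈ Z ↔ y ≠ w ∧ y ≠ u' ∧ y ≠ u := by intro y; simp [hZ]
  have cZ : Z.card + 3 = n := by
    have a := card_erase_add_one (s := univ.erase u) (a := u') (by simp [huu.symm])
    have b := card_erase_add_one (s := (univ.erase u).erase u') (a := w)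
      (by simp [n1.symm, n2.symm])
    rw [← hZ] at b
    omega
  have h0 : ∀ y, (H y ∩ P.erase q).Nonempty := by
    intro y
    have := hD.two hP hn y
    obtain ⟨x, hx, hxq⟩ := exists_mem_ne (s := P ∩ H y) (by omega) q
    exact ⟨x, mem_inter.2 ⟨(mem_inter.1 hx).2, mem_erase.2 ⟨hxq, (mem_inter.1 hx).1⟩⟩⟩
  have sub : ∀ W, ∀ y ∈ ins H Z (P.erase q) W, y ∈ Z ∧ H y ⊆ insert q W := by
    intro W y hy
    refine ⟨(mem_filter.1 hy).1, fun p hp => ?_⟩
    by_cases hpq : p = q
    · simp [hpq]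
    · exact mem_insert_of_mem ((mem_filter.1 hy).2
        (mem_inter.2 ⟨hp, mem_erase.2 ⟨hpq, hsub y hp⟩⟩))
  have big : ∀ W ⊆ P.erase q, ∀ T : Finset (Fin n), (∀ y ∈ T, y ∉ Z ∧ H y ⊆ insert q W) →
      T.card ≤ 2 → (ins H Z (P.erase q) W).card + T.card ≤ W.card := by
    intro W hW T hT hT2
    have hqW : q ∉ W := fun hh => (mem_erase.1 (hW hh)).1 rfl
    by_cases hWP : insert q W = P
    · have c1 := card_le_card (filter_subset (fun y => H y ∩ P.erase q ⊆ W) Z)
      have c2 := card_insert_of_notMem hqW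
      rw [hWP] at c2
      simp only [ins]; omega
    · have c1 := hD.inside hP _ (insert_subset hqP (hW.trans (erase_subset _ _)))
        ⟨q, mem_insert_self _ _⟩ hWP
      rw [card_insert_of_notMem hqW] at c1
      have c2 : (ins H Z (P.erase q) W ∪ T).card ≤
          (univ.filter (fun y => H y ⊆ insert q W)).card := by
        refine card_le_card (fun y hy => mem_filter.2 ⟨mem_univ _, ?_⟩)
        rcases mem_union.1 hy with hy | hy
        · exact (sub W y hy).2
        · exact (hT y hy).2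
      rw [card_union_of_disjoint (disjoint_left.2 (fun y hy hy2 => (hT y hy2).1 (sub W y hy).1))]
        at c2
      omega
  obtain ⟨t, hd, a, b, ha, hb, hab, t1, t2, d1, r1, r2, r3⟩ := run hB o ho (P.erase q)
    (erase_subset _ _) (univ.erase u) u' w (by simp [huu.symm]) (by simp [n1.symm]) n2 (by omega)
    (H u ∩ P.erase q) inter_subset_right (h0 u) h0
    (by
      intro W hW hne
      by_cases c1 : H u ⊆ insert q W
      · simpa using big W hW {u} (by simp [mZ, c1]) (by simp)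
      by_cases c2 : H w ⊆ insert q W
      · simpa using big W hW {w} (by simp [mZ, c2]) (by simp)
      have hWP : W ≠ P := fun hh => (mem_erase.1 (hW (hh ▸ hqP))).1 rfl
      have c3 := hD.inside hP W (hW.trans (erase_subset _ _)) hne hWP
      refine le_trans (Nat.add_le_add_right (card_le_card (fun y hy => ?_)) 1) c3
      have c4 := (sub W y hy).2
      have c5 : q ∉ H y := fun hh => by
        rcases hall y hh with h | h
        · exact c1 (h ▸ c4)
        · exact c2 (h ▸ c4)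
      exact mem_filter.2 ⟨mem_univ _, fun p hp =>
        (mem_insert.1 (c4 hp)).resolve_left (fun hh => c5 (hh ▸ hp))⟩)
    (by
      intro W hW hE
      have c1 : H u ⊆ insert q W := by
        intro p hp
        by_cases hpq : p = q
        · simp [hpq]
        · exact mem_insert_of_mem (hE (mem_inter.2 ⟨hp, mem_erase.2 ⟨hpq, hsub u hp⟩⟩))
      have := big W hW {u, u'} (by simp [mZ, c1, he]) (by rw [card_pair huu])
      rwa [card_pair huu] at this)
    (fun p hp => he ▸ hcov p (mem_of_mem_erase hp))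
    (by
      intro S hS I i1 i2 i3 hI
      have hIP := i1.trans (erase_subset _ _)
      have hqI : q ∉ I := fun hh => (mem_erase.1 (i1 hh)).1 rfl
      have c0 := hD I hIP hI
      have more : ∀ y, y ∉ S → (I ∩ H y).card ≤ 1 → S.card + I.card ≤ (P.erase q).card := by
        intro y hy h
        have := N2_disj (H := H) I (insert y S) (fun z hz => by
          rcases mem_insert.1 hz with rfl | hz
          · exact h
          · exact i2.le_one z hz)
        rw [card_insert_of_notMem hy] at this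
        omega
      by_cases c1 : (I ∩ H u).card ≤ 1
      · exact more u (fun hh => (mem_erase.1 (hS hh)).1 rfl) c1
      by_cases c2 : (I ∩ H w).card = 1
      · refine more w (fun hh => ?_) c2.le
        obtain ⟨x, hx⟩ := card_pos.1 (by omega : 0 < (I ∩ H w).card)
        exact i3 hh x (mem_inter.1 hx).1 (mem_inter.1 hx).2
      have c3 := hD (insert q I) (insert_subset hqP hIP) (by rw [card_insert_of_notMem hqI]; omega)
      have c4 := N2_disj (H := H) (insert q I) S (by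
        intro y hy
        have c5 := i2.le_one y hy
        by_cases hqy : q ∈ H y
        · rw [insert_inter_of_mem hqy, card_insert_of_notMem (fun hh => hqI (mem_inter.1 hh).1)]
          rcases hall y hqy with h | h <;> rw [h] at c5 ⊢ <;> omega
        · rwa [insert_inter_of_notMem hqy])
      rw [card_insert_of_notMem hqI] at c3
      omega)
  rw [← hZ] at t1 t2 r1 r2 r3
  set τ : Fin n → X := fun y => if y = u then b else if y = w then q else if y = u' then a else t y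
    with hτ
  set η : Fin n → X := fun y => if y = u then q else hd y with hη
  have τu : τ u = b := by simp [hτ]
  have τw : τ w = q := by simp [hτ, n1.symm]
  have τv : τ u' = a := by simp [hτ, huu.symm, n2]
  have τz : ∀ y ∈ Z, τ y = t y := by
    intro y hy
    rw [mZ] at hy
    simp [hτ, hy.1, hy.2.1, hy.2.2]
  have ηu : η u = q := by simp [hη]
  have ηz : ∀ y, y ≠ u → η y = hd y := by intro y hy; simp [hη, hy]
  have tri : ∀ y, y = u ∨ y = w ∨ y = u' ∨ y ∈ Z := by
    intro y; rw [mZ]; tauto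
  have mono : ∀ {c d}, Relation.ReflTransGen (Nx Z t hd) c d →
      Relation.ReflTransGen (Nx univ τ η) c d :=
    fun h => Relation.ReflTransGen.mono (fun _ _ ⟨y, hy, h1, h2⟩ => ⟨y, mem_univ _,
      (τz y hy).trans h1, (ηz y ((mZ y).1 hy).2.2).trans h2⟩) _ _ h
  have τH : ∀ y, τ y ∈ H y := by
    intro y
    rcases tri y with rfl | rfl | rfl | hy
    · rw [τu]; exact (mem_inter.1 hb).1
    · rw [τw]; exact hqw
    · rw [τv, he]; exact (mem_inter.1 ha).1
    · rw [τz y hy]; exact (t2 y hy).1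
  have ηH : ∀ y, η y ∈ H y := by
    intro y
    by_cases hy : y = u
    · rw [hy, ηu]; exact hqu
    · rw [ηz y hy]; exact (d1 y (by simp [hy])).1
  have aq : a ≠ q := (mem_erase.1 (mem_inter.1 ha).2).1
  have bq : b ≠ q := (mem_erase.1 (mem_inter.1 hb).2).1
  have tq : ∀ y ∈ Z, t y ≠ q := fun y hy => (mem_erase.1 (t2 y hy).2.1).1
  refine cyc_order n (by omega) P hP H τ η ?_ (fun y => hsub y (τH y))
    (fun y => ⟨τH y, ηH y⟩) (fun y => hsub y (ηH y)) u' ?_
  · intro y z h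
    rcases tri y with rfl | rfl | rfl | hy <;> rcases tri z with rfl | rfl | rfl | hz
    · rfl
    · rw [τu, τw] at h; exact absurd h bq
    · rw [τu, τv] at h; exact absurd h.symm hab
    · rw [τu, τz z hz] at h; exact absurd h.symm (t2 z hz).2.2.2
    · rw [τu, τw] at h; exact absurd h.symm bq
    · rfl
    · rw [τw, τv] at h; exact absurd h.symm aq
    · rw [τw, τz z hz] at h; exact absurd h.symm (tq z hz)
    · rw [τu, τv] at h; exact absurd h hab
    · rw [τw, τv] at h; exact absurd h aq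
    · rfl
    · rw [τv, τz z hz] at h; exact absurd h.symm (t2 z hz).2.2.1
    · rw [τu, τz y hy] at h; exact absurd h (t2 y hy).2.2.2
    · rw [τw, τz y hy] at h; exact absurd h (tq y hy)
    · rw [τv, τz y hy] at h; exact absurd h (t2 y hy).2.2.1
    · rw [τz y hy, τz z hz] at h; exact t1 hy hz h
  · intro p hp
    rw [ηz u' huu.symm]
    have s1 := (mono r1).tail ⟨u, mem_univ _, τu, ηu⟩
    by_cases hpq : p = q
    · rw [hpq]; exact s1
    rcases r3 p (mem_erase.2 ⟨hpq, hp⟩) with h | h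
    · exact mono h
    · exact (s1.tail ⟨w, mem_univ _, τw, ηz w n1.symm⟩).trans (mono h)

theorem main (hB : BL H P) (hD : DH H P) (hP : P.card = n) (hn : 2 ≤ n) (hsub : ∀ y, H y ⊆ P)
    (o : X) (ho : o ∉ P) :
    ∃ (p : Fin n → X) (σ : Equiv.Perm (Fin n)), Function.Injective p ∧ (∀ k, p k ∈ P) ∧
      ∀ k, p k ∈ H (σ k) ∧ p (finRotate n k) ∈ H (σ k) := by
  have other : ∀ a ∈ P, ∃ b ∈ P, b ≠ a := fun a _ => exists_mem_ne (by omega) a
  obtain ⟨q, hq, hb, ⟨u, -, hu⟩, w, -, hw⟩ := hB.cover univ P Subset.rfl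
    (card_pos.1 (by omega)) (by
      intro a ha b hb
      by_cases hab : a = b
      · subst hab
        obtain ⟨c, hc, hca⟩ := other a ha
        obtain ⟨u, -, -, h, -⟩ := hD.pair hc ha hca
        exact ⟨u, mem_univ _, h.2, h.2⟩
      · obtain ⟨u, -, -, h, -⟩ := hD.pair ha hb hab
        exact ⟨u, mem_univ _, h⟩)
  by_cases hA : ∃ u w, u ≠ w ∧ (∀ p ∈ P, p ≤ q → p ∈ H u) ∧ (∀ p ∈ P, q ≤ p → p ∈ H w) ∧
      ∃ x ∈ H u ∩ H w, q ≠ x
  · obtain ⟨u, w, huw, hu, hw, x, hx, hqx⟩ := hA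
    refine caseA hB hD hP hn hsub o ho q x u w huw
      (mem_inter.2 ⟨hu q hq le_rfl, hw q hq le_rfl⟩) hx hqx
      (fun p hp => (le_total p q).imp (hu p hp) (hw p hp)) (fun r hr => ?_)
    refine (hb r hr).imp (fun h p hp => mem_union.2 ?_) (fun h p hp => mem_union.2 ?_)
    · exact (le_total p q).imp (h p (hsub u hp)) (hw p (hsub u hp))
    · exact (le_total q p).imp (h p (hsub w hp)) (hu p (hsub w hp))
  push Not at hA
  have nofull : ∀ y, (∀ p ∈ P, p ≤ q → p ∈ H y) → (∀ p ∈ P, q ≤ p → p ∈ H y) → False := by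
    intro y h1 h2
    obtain ⟨c, hc, hcq⟩ := other q hq
    obtain ⟨a, a', haa, h3, h4⟩ := hD.pair hc hq hcq
    have hcy : c ∈ H y := (le_total c q).elim (h1 c hc) (h2 c hc)
    obtain ⟨z, hz, z1, z2⟩ : ∃ z, z ≠ y ∧ c ∈ H z ∧ q ∈ H z := by
      by_cases hh : a = y
      · exact ⟨a', hh ▸ haa.symm, h4⟩
      · exact ⟨a, hh, h3⟩
    rcases hb z z2 with h | h
    · exact hcq (hA z y hz h h2 c (mem_inter.2 ⟨z1, hcy⟩)).symm
    · exact hcq (hA y z hz.symm h1 h c (mem_inter.2 ⟨hcy, z1⟩)).symm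
  have eL : ∀ y, (∀ p ∈ P, p ≤ q → p ∈ H y) → H y = P.filter (· ≤ q) := by
    intro y h
    ext p
    simp only [mem_filter]
    refine ⟨fun hp => ⟨hsub y hp, ?_⟩, fun hp => h p hp.1 hp.2⟩
    by_contra hh
    exact hh (hA y w (fun e => nofull y h (e ▸ hw)) h hw p
      (mem_inter.2 ⟨hp, hw p (hsub y hp) (not_le.1 hh).le⟩)).ge
  have eR : ∀ y, (∀ p ∈ P, q ≤ p → p ∈ H y) → H y = P.filter (q ≤ ·) := by
    intro y h
    ext p
    simp only [mem_filter]
    refine ⟨fun hp => ⟨hsub y hp, ?_⟩, fun hp => h p hp.1 hp.2⟩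
    by_contra hh
    exact hh (hA u y (fun e => nofull y (e ▸ hu) h) hu h p
      (mem_inter.2 ⟨hu p (hsub y hp) (not_le.1 hh).le, hp⟩)).le
  obtain ⟨l, hl, hlq⟩ : ∃ l ∈ P, l < q := by
    by_contra hh
    push Not at hh
    exact nofull w (fun p hp _ => hw p hp (hh p hp)) hw
  obtain ⟨a, a', haa, h3, h4⟩ := hD.pair hl hq hlq.ne
  have left : ∀ y, l ∈ H y → q ∈ H y → H y = P.filter (· ≤ q) := by
    intro y y1 y2
    rcases hb y y2 with h | h
    · exact eL y h
    · rw [eR y h] at y1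
      exact absurd (mem_filter.1 y1).2 (not_le.2 hlq)
  have ea := left a h3.1 h3.2
  refine caseB hB hD hP hn hsub o ho q a a' w haa ?_ ((left a' h4.1 h4.2).trans ea.symm) ?_ ?_ ?_
  · intro e
    have := h3.1
    rw [e, eR w hw] at this
    exact absurd (mem_filter.1 this).2 (not_le.2 hlq)
  · rw [ea, eR w hw]
    ext p
    simp only [mem_inter, mem_filter, mem_singleton]
    exact ⟨fun h => le_antisymm h.1.2 h.2.2, fun h => by simp [h, hq]⟩
  · intro p hp
    rw [ea]
    exact (le_total p q).imp (fun h => mem_filter.2 ⟨hp, h⟩) (hw p hp)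
  · intro r hr
    exact (hb r hr).imp (fun h => (eL r h).trans ea.symm) (fun h => (eR r h).trans (eR w hw).symm)

end Pool.Agent.MP_3b4e7c_co.Up

end MrgPart1

-- ======== part 2: formerly Pool.Agent.MP_3b4e7c_co.Gen.Spec
section MrgPart2

/-! General halfplanes: definitions and the statements of the parts of the proof. -/

namespace Pool.Agent.MP_3b4e7c_co.Gen

open Finset Up Real

section defs
variable {X : Type} [DecidableEq X] {n : ℕ}

/-- an alternating cyclic ordering -/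
def Ham (P : Finset X) (H : Fin n → Finset X) : Prop :=
  ∃ (p : Fin n → X) (σ : Equiv.Perm (Fin n)), Function.Injective p ∧ (∀ k, p k ∈ P) ∧
    ∀ k, p k ∈ H (σ k) ∧ p (finRotate n k) ∈ H (σ k)

/-- `n` points, `n` labels, the Hall-type condition -/
structure Base (P : Finset X) (H : Fin n → Finset X) : Prop where
  card : P.card = n
  two : 2 ≤ n
  sub : ∀ y, H y ⊆ P
  dh : DH H P

/-- labels inside `W` -/
def inside (H : Fin n → Finset X) (W : Finset X) : Finset (Fin n) :=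
  univ.filter (fun y => H y ⊆ W)

/-- `g` lies in no proper tight set -/
def Crossing (P : Finset X) (H : Fin n → Finset X) (g : Fin n) : Prop :=
  ∀ W ⊆ P, W ≠ P → H g ⊆ W → (inside H W).card + 2 ≤ W.card

/-- `v` lies in `g`, and the labels `y`, `r` cover all points that are not lower than `v` -/
def Port (P : Finset X) (H : Fin n → Finset X) (g : Fin n) (Φ : X → ℝ) (y r : Fin n) (v : X) :
    Prop :=
  v ∈ H g ∧ ∀ z ∈ P, Φ v ≤ Φ z → z ∈ H y ∨ z ∈ H r

/-- label `y` is a halfplane with inner normal of angle `T y`; `ht c` is the height in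
direction `c` -/
structure Ang (P : Finset X) (H : Fin n → Finset X) (T : Fin n → ℝ) (ht : ℝ → X → ℝ) :
    Prop where
  up : ∀ y, ∀ p ∈ H y, ∀ x ∈ P, ht (T y) p ≤ ht (T y) x → x ∈ H y
  lin : ∀ a c b : ℝ, a ≤ c → c ≤ b → b - a < π → ∃ α β : ℝ, 0 ≤ α ∧ 0 ≤ β ∧ 0 < α + β ∧
    ∀ x, ht c x = α * ht a x + β * ht b x
  anti : ∀ c x, ht (c + π) x = - ht c x

/-- general position -/
structure Generic (P : Finset X) (T : Fin n → ℝ) (ht : ℝ → X → ℝ) : Prop where
  par : ∀ y z, y ≠ z → ∀ k : ℤ, T y - T z ≠ k * π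
  inj : ∀ y, Set.InjOn (ht (T y)) P

/-- the normals of the labels through a point lie in an open half circle -/
def NonCentral (P : Finset X) (H : Fin n → Finset X) (T : Fin n → ℝ) : Prop :=
  ∀ p ∈ P, ∃ d : ℝ, ∀ y, p ∈ H y → 0 < cos (T y - d)

/-- the angles are measured from the label `g` -/
structure Cut (P : Finset X) (H : Fin n → Finset X) (g : Fin n) (T : Fin n → ℝ)
    (ht : ℝ → X → ℝ) : Prop where
  ang : Ang P H T ht
  gen : Generic P T ht
  zero : T g = 0
  lo : ∀ y, 0 ≤ T y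
  hi : ∀ y, T y < 2 * π

/-- no point outside `g` is stabbed by the direction of `g` -/
def Env (P : Finset X) (H : Fin n → Finset X) (g : Fin n) (T : Fin n → ℝ) : Prop :=
  ∀ p ∈ P, p ∉ H g → ∀ y z, p ∈ H y → p ∈ H z → T y - T z < π

/-- a left and a right label through a point of `g` differ by more than a half turn -/
def NCg (H : Fin n → Finset X) (g : Fin n) (T : Fin n → ℝ) : Prop :=
  ∀ p ∈ H g, ∀ C D, C ≠ g → D ≠ g → p ∈ H C → p ∈ H D → T C < π → π < T D → π < T D - T C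

/-- the combinatorial frame: heights `Φ`, top point `e`, sides of the labels other than `g` -/
structure Frame (P : Finset X) (H : Fin n → Finset X) (g : Fin n) (e : X) (Φ : X → ℝ)
    (side : Fin n → Bool) : Prop where
  inj : Set.InjOn Φ P
  emem : e ∈ H g
  top : ∀ p ∈ P, Φ p ≤ Φ e
  up : ∀ p ∈ H g, ∀ x ∈ P, Φ p ≤ Φ x → x ∈ H g
  nc : ∀ p ∈ H g, ∀ C D, C ≠ g → D ≠ g → p ∈ H C → p ∈ H D → side C ≠ side D →
    ∀ x ∈ P, Φ p ≤ Φ x → x ∈ H C ∨ x ∈ H D
  aba : ∀ C D, C ≠ g → D ≠ g → side C = side D → ∀ x y z, Φ x < Φ y → Φ y < Φ z →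
    x ∈ H C → z ∈ H C → y ∈ H D → y ∈ H C ∨ x ∈ H D ∨ z ∈ H D

/-- the tails of the tree with three leaves: `A`, `B` have tail `a`, sinks `b`, `e` -/
structure YData (P : Finset X) (H : Fin n → Finset X) (g A B : Fin n) (a b e : X)
    (t : Fin n → X) : Prop where
  hAg : A ≠ g
  hBg : B ≠ g
  hAB : A ≠ B
  tA : t A = a
  tB : t B = a
  bmem : b ∈ H g
  hbe : b ≠ e
  tmem : ∀ y, y ≠ g → t y ∈ H y ∧ t y ≠ b ∧ t y ≠ e
  tinj : ∀ y z, y ≠ g → z ≠ g → y ≠ B → z ≠ B → t y = t z → y = z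
  tinj' : ∀ y z, y ≠ g → z ≠ g → y ≠ A → z ≠ A → t y = t z → y = z

/-- a set on which the Hall condition of the tree with three leaves fails -/
structure Bad (H : Fin n → Finset X) (g A B : Fin n) (t : Fin n → X) (side : Fin n → Bool)
    (I : Finset X) : Prop where
  sub : I ⊆ H g
  avoid : ∀ p ∈ I, p ∉ H A ∧ p ∉ H B
  two : 2 ≤ I.card
  tight : (N2 H I).card = I.card
  own : ∀ p ∈ I, ∀ y, y ∉ N2 H I → p ∈ H y → ∃ r, r ∉ N2 H I ∧ t r = p ∧ side y = side r

/-- tails for all labels but `g`, missing `e`, such that the labels with tail in `g` cover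
the points outside `g` -/
def Star (P : Finset X) (H : Fin n → Finset X) (g : Fin n) (e : X) : Prop :=
  ∃ t : Fin n → X, (∀ y z, y ≠ g → z ≠ g → t y = t z → y = z) ∧
    (∀ y, y ≠ g → t y ∈ H y ∧ t y ≠ e) ∧
    ∀ p ∈ P, p ∉ H g → ∃ y, y ≠ g ∧ p ∈ H y ∧ t y ∈ H g

end defs

/-- Row CYC, one missing label: a path from `s` to `e` and cycles with a port. -/
def Close1S : Prop :=
  ∀ (X : Type) [DecidableEq X] (n : ℕ) (P : Finset X) (H : Fin n → Finset X) (g : Fin n)
    (Φ : X → ℝ) (e s : X) (t hd : Fin n → X) (rk : X → ℕ),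
    P.card = n → 2 ≤ n → (∀ y, H y ⊆ P) → e ∈ H g → s ∈ H g → (∀ p ∈ P, Φ p ≤ Φ e) →
    (∀ y z, y ≠ g → z ≠ g → t y = t z → y = z) → (∀ y, y ≠ g → t y ∈ H y ∧ t y ≠ e) →
    (∀ y z, y ≠ g → z ≠ g → hd y = hd z → y = z) → (∀ y, y ≠ g → hd y ∈ H y ∧ hd y ≠ s) →
    (∀ y, y ≠ g → rk (t y) < rk (hd y) ∨
      ∀ r, r ≠ g → t r = hd y → y ≠ r ∧ Port P H g Φ y r (hd y)) →
    Ham P H

/-- Row CYC, two missing labels: two paths from `s`, `h` to `x`, `e` and cycles with a port. -/
def Close2S : Prop :=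
  ∀ (X : Type) [DecidableEq X] (n : ℕ) (P : Finset X) (H : Fin n → Finset X) (g A : Fin n)
    (Φ : X → ℝ) (e x s h : X) (t hd : Fin n → X) (rk : X → ℕ),
    P.card = n → 2 ≤ n → (∀ y, H y ⊆ P) → A ≠ g → e ∈ H g → x ∈ H g → x ≠ e →
    s ∈ H A → h ∈ H A → s ≠ h → (∀ p ∈ P, Φ p ≤ Φ e) →
    (∀ y z, y ≠ g → z ≠ g → y ≠ A → z ≠ A → t y = t z → y = z) →
    (∀ y, y ≠ g → y ≠ A → t y ∈ H y ∧ t y ≠ e ∧ t y ≠ x) →
    (∀ y z, y ≠ g → z ≠ g → y ≠ A → z ≠ A → hd y = hd z → y = z) →
    (∀ y, y ≠ g → y ≠ A → hd y ∈ H y ∧ hd y ≠ s ∧ hd y ≠ h) →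
    (∀ y, y ≠ g → y ≠ A → rk (t y) < rk (hd y) ∨
      ∀ r, r ≠ g → r ≠ A → t r = hd y → y ≠ r ∧ Port P H g Φ y r (hd y)) →
    Ham P H

/-- Row GEO: halfplanes in the plane give a generic angle model; a strict half circle of
normals at each point is kept. -/
def GeoS : Prop :=
  ∀ (X : Type) [DecidableEq X] (n : ℕ) (P : Finset X) (H : Fin n → Finset X)
    (φ ψ : X → ℝ) (a b : Fin n → ℝ), (∀ p ∈ P, ∀ q ∈ P, φ p = φ q → ψ p = ψ q → p = q) →
    (∀ y, a y ≠ 0 ∨ b y ≠ 0) → (∀ y, H y ⊆ P) →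
    (∀ y, ∀ p ∈ H y, ∀ x ∈ P, a y * φ p + b y * ψ p ≤ a y * φ x + b y * ψ x → x ∈ H y) →
    ∃ (T : Fin n → ℝ) (ht : ℝ → X → ℝ), Ang P H T ht ∧ Generic P T ht ∧
      ((∀ p ∈ P, ∃ u v : ℝ, ∀ y, p ∈ H y → 0 < a y * u + b y * v) → NonCentral P H T)

/-- Row ENV (section 0): a crossing envelope label exists. -/
def EnvS : Prop :=
  ∀ (X : Type) [DecidableEq X] (n : ℕ) (P : Finset X) (H : Fin n → Finset X)
    (T : Fin n → ℝ) (ht : ℝ → X → ℝ), Base P H → Ang P H T ht → Generic P T ht →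
    NonCentral P H T → ∃ g T' ht', Cut P H g T' ht' ∧ Env P H g T' ∧ NCg H g T' ∧ Crossing P H g

/-- Row YT (section 3, tails): `N` is any set that is covered by a partner of each label
through `a`. -/
def YTailS : Prop :=
  ∀ (X : Type) [DecidableEq X] (n : ℕ) (P : Finset X) (H : Fin n → Finset X) (g : Fin n)
    (a e : X) (N : Finset X), Base P H → Crossing P H g → e ∈ H g → a ∈ P → a ≠ e →
    (∀ A, A ≠ g → a ∈ H A → ∃ B, B ≠ A ∧ B ≠ g ∧ a ∈ H B ∧ ∀ p ∈ N, p ∈ H A ∨ p ∈ H B) →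
    ∃ A B b t, YData P H g A B a b e t ∧ ∀ p ∈ N, p ∈ H A ∨ p ∈ H B

/-- Row YT, the case without outside points. -/
def Star0S : Prop :=
  ∀ (X : Type) [DecidableEq X] (n : ℕ) (P : Finset X) (H : Fin n → Finset X) (g : Fin n)
    (e : X), Base P H → e ∈ P → H g = P → Star P H g e

/-- Row STAR (section 4): a bad set gives the star condition. -/
def StarS : Prop :=
  ∀ (X : Type) [DecidableEq X] (n : ℕ) (P : Finset X) (H : Fin n → Finset X) (g A B : Fin n)
    (a b e : X) (Φ : X → ℝ) (side : Fin n → Bool) (t : Fin n → X) (I : Finset X),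
    Base P H → Frame P H g e Φ side → YData P H g A B a b e t →
    (∀ p ∈ P, p ∉ H g → p ∈ H A ∨ p ∈ H B) →
    (∀ p ∈ H g, p ≠ e → p ∉ H A → p ∉ H B →
      ∃ C D, C ≠ g ∧ D ≠ g ∧ p ∈ H C ∧ p ∈ H D ∧ side C ≠ side D) →
    Bad H g A B t side I → Star P H g e

/-- Row RUN: topological Hall with source arcs.  `G y` is the set of allowed heads, `o` the dummy
point, `Src` the source arcs. -/
def RunS : Prop :=
  ∀ (X : Type) [DecidableEq X] [Fintype X] (n : ℕ) (P : Finset X) (H G : Fin n → Finset X)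
    (T : Fin n → ℝ) (ht : ℝ → X → ℝ) (Y0 : Finset (Fin n)) (Q : Finset X) (t : Fin n → X)
    (Src : Fin n → X → Prop) (o : X), Ang P H T ht → Q ⊆ P → o ∉ Q →
    (∀ y ∈ Y0, (∀ p, Src y p) ∨ ∀ p ∈ Q, p ∈ G y ↔ p ∈ H y) →
    (∀ r ∈ Y0, t r ∈ Q → (∀ p, Src r p) ∨ (t r ∈ H r ∧ ¬ Src r (t r) ∧
      ∀ y ∈ Y0, t r ∈ G y → ¬ Src y (t r) → |T y - T r| < π)) →
    (∀ S ⊆ Y0, ∀ I ⊆ Q, Indep G S I →
      (∀ y ∈ S, ∀ p ∈ I, p ∈ G y → ¬ Src y p ∧ ∃ r ∈ S, t r = p ∧ ¬ Src r p) →
      S.card + I.card ≤ Q.card) →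
    ∃ (hd : Fin n → X) (rk : X → ℕ), Set.InjOn hd Y0 ∧
      ∀ y ∈ Y0, hd y ∈ Q ∧ hd y ∈ G y ∧ (Src y (hd y) ∨ rk (t y) < rk (hd y))

end Pool.Agent.MP_3b4e7c_co.Gen

end MrgPart2

-- ======== part 3: formerly Pool.Agent.MP_3b4e7c_co.Gen.Cyc
section MrgPart3

/-! General halfplanes: cycles with a port are joined one after the other. -/

namespace Pool.Agent.MP_3b4e7c_co.Gen

open Finset Up Function

namespace Cyc

variable {X : Type} [DecidableEq X] {n : ℕ}

/-- a set that no label leaves -/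
def Cl (t hd : Fin n → X) (S : Set X) : Prop := ∀ y, t y ∈ S ↔ hd y ∈ S

/-- two points in the same component -/
def Cn (t hd : Fin n → X) (a b : X) : Prop := ∀ S, Cl t hd S → (a ∈ S ↔ b ∈ S)

/-- the label `y` is at the point `v` -/
def At (t hd : Fin n → X) (y : Fin n) (v : X) : Prop := t y = v ∨ hd y = v

/-- tails and heads are injective and lie in their labels -/
structure Pm (H : Fin n → Finset X) (t hd : Fin n → X) : Prop where
  ti : Injective t
  hi : Injective hd
  tm : ∀ y, t y ∈ H y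
  hm : ∀ y, hd y ∈ H y

/-- a port with its two labels -/
def Pt (P : Finset X) (H : Fin n → Finset X) (g : Fin n) (Φ : X → ℝ) (t hd : Fin n → X)
    (v : X) : Prop :=
  ∃ y r, y ≠ r ∧ At t hd y v ∧ At t hd r v ∧ Port P H g Φ y r v

/-- every other component has a port that is not higher than the tail of `g` -/
def Iv (P : Finset X) (H : Fin n → Finset X) (g : Fin n) (Φ : X → ℝ) (t hd : Fin n → X) : Prop :=
  ∀ z ∈ P, ¬ Cn t hd (t g) z → ∃ v, Cn t hd v z ∧ Pt P H g Φ t hd v ∧ Φ v ≤ Φ (t g)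

open Classical in
/-- the points outside the component of the tail of `g` -/
noncomputable def far (P : Finset X) (g : Fin n) (t hd : Fin n → X) : Finset X :=
  P.filter fun z => ¬ Cn t hd (t g) z

variable {P : Finset X} {H : Fin n → Finset X} {g : Fin n} {Φ : X → ℝ} {t hd : Fin n → X}

omit [DecidableEq X] in
theorem Cn.rf (a : X) : Cn t hd a a := fun _ _ => Iff.rfl

omit [DecidableEq X] in
theorem Cn.sy {a b : X} (h : Cn t hd a b) : Cn t hd b a := fun S hS => (h S hS).symm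

omit [DecidableEq X] in
theorem Cn.tr {a b c : X} (h : Cn t hd a b) (k : Cn t hd b c) : Cn t hd a c :=
  fun S hS => (h S hS).trans (k S hS)

omit [DecidableEq X] in
theorem Cn.edge (y : Fin n) : Cn t hd (t y) (hd y) := fun _ hS => hS y

omit [DecidableEq X] in
theorem cl_cn (a : X) : Cl t hd {x | Cn t hd a x} :=
  fun y => ⟨fun h => Cn.tr h (Cn.edge y), fun h => Cn.tr h (Cn.edge y).sy⟩

omit [DecidableEq X] in
theorem At.cn {y : Fin n} {v : X} (h : At t hd y v) : Cn t hd (t y) v := by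
  rcases h with rfl | rfl
  · exact Cn.rf _
  · exact Cn.edge y

theorem surj (hP : P.card = n) (ti : Injective t) (tm : ∀ y, t y ∈ P) :
    ∀ x ∈ P, ∃ y, t y = x := by
  intro x hx
  have : univ.image t = P := eq_of_subset_of_card_le
    (fun z hz => by obtain ⟨y, -, rfl⟩ := mem_image.1 hz; exact tm y)
    (by rw [card_image_of_injective _ ti]; simp [hP])
  obtain ⟨y, -, h⟩ := mem_image.1 (this ▸ hx)
  exact ⟨y, h⟩

open Classical in
theorem cnt (hP : P.card = n) (ti : Injective t) (tm : ∀ y, t y ∈ P) (S : Set X) :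
    (univ.filter fun y => t y ∈ S).card = (P.filter fun x => x ∈ S).card := by
  rw [← card_image_of_injective _ ti]
  congr 1
  ext x
  simp only [mem_image, mem_filter, mem_univ, true_and]
  constructor
  · rintro ⟨y, h, rfl⟩
    exact ⟨tm y, h⟩
  · rintro ⟨hx, h⟩
    obtain ⟨y, rfl⟩ := surj hP ti tm x hx
    exact ⟨y, h, rfl⟩

theorem fwd (hP : P.card = n) (ti : Injective t) (hi : Injective hd) (tm : ∀ y, t y ∈ P)
    (hm : ∀ y, hd y ∈ P) (S : Set X) (h : ∀ y, t y ∈ S → hd y ∈ S) (y : Fin n) (hy : hd y ∈ S) :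
    t y ∈ S := by
  classical
  have e : (univ.filter fun y => t y ∈ S) = univ.filter fun y => hd y ∈ S := by
    refine eq_of_subset_of_card_le (fun z hz => ?_) ?_
    · simp only [mem_filter, mem_univ, true_and] at hz ⊢
      exact h z hz
    · have a := cnt hP ti tm S
      have b := cnt hP hi hm S
      exact le_of_eq (by rw [a, b])
  have : y ∈ univ.filter fun y => t y ∈ S := by rw [e]; simpa using hy
  simpa using this

theorem one (hP : P.card = n) (ti : Injective t) (hi : Injective hd) (tm : ∀ y, t y ∈ P)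
    (hm : ∀ y, hd y ∈ P) (S : Set X) (r : Fin n) (h : ∀ y, y ≠ r → (t y ∈ S ↔ hd y ∈ S)) :
    t r ∈ S ↔ hd r ∈ S := by
  constructor
  · intro a
    refine fwd hP hi ti hm tm S (fun y hy => ?_) r a
    by_cases e : y = r
    · exact e ▸ a
    · exact (h y e).2 hy
  · intro a
    refine fwd hP ti hi tm hm S (fun y hy => ?_) r a
    by_cases e : y = r
    · exact e ▸ a
    · exact (h y e).1 hy

theorem ham_of_cn (hP : P.card = n) (hn : 2 ≤ n) (sub : ∀ y, H y ⊆ P) (hp : Pm H t hd)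
    (h : ∀ z ∈ P, Cn t hd (t g) z) : Ham P H := by
  have tP := fun y => sub y (hp.tm y)
  have hP' := fun y => sub y (hp.hm y)
  refine cyc_order n (by omega) P hP H t hd hp.ti tP (fun y => ⟨hp.tm y, hp.hm y⟩) hP' g ?_
  intro x hx
  have f : ∀ y, t y ∈ {x | Relation.ReflTransGen (Nx univ t hd) (hd g) x} →
      hd y ∈ {x | Relation.ReflTransGen (Nx univ t hd) (hd g) x} :=
    fun y hy => Relation.ReflTransGen.tail hy ⟨y, mem_univ _, rfl, rfl⟩
  exact (((Cn.edge g).sy.tr (h x hx)) _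
    (fun y => ⟨f y, fwd hP hp.ti hp.hi tP hP' _ f y⟩)).1 Relation.ReflTransGen.refl

/-- the tails of `g` and `r` are exchanged -/
theorem step (hP : P.card = n) (sub : ∀ y, H y ⊆ P) (hp : Pm H t hd) (hi : Iv P H g Φ t hd)
    (r : Fin n) (hr : ¬ Cn t hd (t g) (t r)) (h1 : t r ∈ H g) (h2 : t g ∈ H r)
    (top : ∀ v, ¬ Cn t hd (t g) v → Pt P H g Φ t hd v → Φ v ≤ Φ (t g) → Φ v ≤ Φ (t r)) :
    ∃ t', Pm H t' hd ∧ Iv P H g Φ t' hd ∧ (far P g t' hd).card < (far P g t hd).card := by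
  have tP := fun y => sub y (hp.tm y)
  have hP' := fun y => sub y (hp.hm y)
  have eg : (t ∘ Equiv.swap g r) g = t r := by simp
  have er : (t ∘ Equiv.swap g r) r = t g := by simp
  have eo : ∀ y, y ≠ g → y ≠ r → (t ∘ Equiv.swap g r) y = t y := fun y a b => by
    simp [Equiv.swap_apply_of_ne_of_ne a b]
  generalize hT : t ∘ Equiv.swap g r = T at eg er eo
  have Ti : Injective T := hT ▸ hp.ti.comp (Equiv.swap g r).injective
  have old : ∀ S, Cl T hd S → Cl t hd S := by
    intro S hS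
    have a : t r ∈ S ∩ {x | Cn t hd (t r) x} ↔ hd r ∈ S ∩ {x | Cn t hd (t r) x} := by
      refine one hP hp.ti hp.hi tP hP' _ r (fun y hy => ?_)
      by_cases e : y = g
      · subst e
        exact ⟨fun h => absurd (Cn.sy h.2) hr, fun h => absurd ((Cn.edge y).tr (Cn.sy h.2)) hr⟩
      · exact and_congr (eo y e hy ▸ hS y) (cl_cn (t r) y)
    have b : t r ∈ S ↔ hd r ∈ S :=
      ⟨fun h => (a.1 ⟨h, Cn.rf _⟩).1, fun h => (a.2 ⟨h, Cn.edge r⟩).1⟩
    have c : ∀ y, y ≠ g → (t y ∈ S ↔ hd y ∈ S) := by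
      intro y e
      by_cases e' : y = r
      · exact e' ▸ b
      · exact eo y e e' ▸ hS y
    intro y
    by_cases e : y = g
    · exact e ▸ one hP hp.ti hp.hi tP hP' S g c
    · exact c y e
  have up : ∀ a b, Cn t hd a b → Cn T hd a b := fun a b h S hS => h S (old S hS)
  have lk : Cn T hd (T g) (t g) := (Cn.edge g).tr (up _ _ (Cn.edge g).sy)
  refine ⟨T, ⟨Ti, hp.hi, fun y => ?_, hp.hm⟩, fun z hz hn => ?_, ?_⟩
  · by_cases e : y = g
    · rw [e, eg]; exact h1
    by_cases e' : y = r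
    · rw [e', er]; exact h2
    · rw [eo y e e']; exact hp.tm y
  · have n1 : ¬ Cn t hd (t g) z := fun h => hn (lk.tr (up _ _ h))
    obtain ⟨v, c1, c2, c3⟩ := hi z hz n1
    have n2 : ¬ Cn t hd (t g) v := fun h => n1 (h.tr c1)
    have keep : ∀ y, At t hd y v → At T hd y v := by
      intro y hy
      have a : y ≠ g := fun e => n2 (e ▸ hy.cn)
      have b : y ≠ r := fun e => hn (eg ▸ up _ _ (Cn.tr (e ▸ hy.cn) c1))
      exact hy.imp (fun h => (eo y a b).trans h) id
    refine ⟨v, up _ _ c1, ?_, eg ▸ top v n2 c2 c3⟩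
    obtain ⟨y, r', d1, d2, d3, d4⟩ := c2
    exact ⟨y, r', d1, keep y d2, keep r' d3, d4⟩
  · refine card_lt_card ⟨fun z hz => ?_, fun h => ?_⟩
    · simp only [far, mem_filter] at hz ⊢
      exact ⟨hz.1, fun h => hz.2 (lk.tr (up _ _ h))⟩
    · have : t r ∈ far P g T hd := h (by simp only [far, mem_filter]; exact ⟨tP r, hr⟩)
      simp only [far, mem_filter] at this
      exact this.2 (eg ▸ Cn.rf _)

omit [DecidableEq X] in
/-- the labels in a closed set are turned round -/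
theorem turn (hp : Pm H t hd) (R : Set X) (hR : Cl t hd R) : ∃ T D, Pm H T D ∧
    (∀ y, t y ∈ R → T y = hd y ∧ D y = t y) ∧ ∀ y, t y ∉ R → T y = t y ∧ D y = hd y := by
  classical
  refine ⟨fun y => if t y ∈ R then hd y else t y, fun y => if t y ∈ R then t y else hd y,
    ⟨fun y z h => ?_, fun y z h => ?_, fun y => ?_, fun y => ?_⟩, fun y h => by simp [h],
    fun y h => by simp [h]⟩
  · by_cases a : t y ∈ R <;> by_cases b : t z ∈ R <;> simp only [a, b, if_true, if_false] at h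
    · exact hp.hi h
    · exact absurd (h ▸ (hR y).1 a) b
    · exact absurd (h ▸ (hR z).1 b) a
    · exact hp.ti h
  · by_cases a : t y ∈ R <;> by_cases b : t z ∈ R <;> simp only [a, b, if_true, if_false] at h
    · exact hp.ti h
    · exact absurd ((hR z).2 (h ▸ a)) b
    · exact absurd ((hR y).2 (h ▸ b)) a
    · exact hp.hi h
  · by_cases a : t y ∈ R <;> simp only [a, if_true, if_false]
    · exact hp.hm y
    · exact hp.tm y
  · by_cases a : t y ∈ R <;> simp only [a, if_true, if_false]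
    · exact hp.tm y
    · exact hp.hm y

theorem chain (hP : P.card = n) (hn : 2 ≤ n) (sub : ∀ y, H y ⊆ P) (m : ℕ) :
    ∀ t hd : Fin n → X, (far P g t hd).card = m → Pm H t hd → Iv P H g Φ t hd → Ham P H := by
  induction m using Nat.strong_induction_on with
  | _ m ih =>
    intro t hd hm hp hi
    classical
    by_cases hall : ∀ z ∈ P, Cn t hd (t g) z
    · exact ham_of_cn hP hn sub hp hall
    push Not at hall
    obtain ⟨z, hz, hz'⟩ := hall
    obtain ⟨v0, c1, c2, c3⟩ := hi z hz hz'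
    have pP : ∀ v, Pt P H g Φ t hd v → v ∈ P := fun v ⟨_, _, _, _, _, h⟩ => sub g h.1
    obtain ⟨v, hv, top⟩ := exists_max_image (P.filter fun v => ¬ Cn t hd (t g) v ∧
      Pt P H g Φ t hd v ∧ Φ v ≤ Φ (t g)) Φ
      ⟨v0, mem_filter.2 ⟨pP v0 c2, fun h => hz' (h.tr c1), c2, c3⟩⟩
    obtain ⟨-, d1, ⟨y, r, -, d2, d3, d4, d5⟩, d6⟩ := mem_filter.1 hv
    have top' : ∀ w, ¬ Cn t hd (t g) w → Pt P H g Φ t hd w → Φ w ≤ Φ (t g) → Φ w ≤ Φ v :=
      fun w a b c => top w (mem_filter.2 ⟨pP w b, a, b, c⟩)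
    obtain ⟨u, hu, hu'⟩ : ∃ u, At t hd u v ∧ t g ∈ H u :=
      (d5 _ (sub g (hp.tm g)) d6).elim (fun h => ⟨y, d2, h⟩) (fun h => ⟨r, d3, h⟩)
    rcases hu with rfl | rfl
    · obtain ⟨T, e1, e2, e3⟩ := step hP sub hp hi u d1 d4 hu' top'
      exact ih _ (hm ▸ e3) T hd rfl e1 e2
    · obtain ⟨T, D, e1, e2, e3⟩ := turn hp _ (cl_cn (t := t) (hd := hd) (hd u))
      have eg : T g = t g := (e3 g fun h => d1 (Cn.sy h)).1
      have eu : T u = hd u := (e2 u (Cn.edge u).sy).1
      have ecl : ∀ S, Cl T D S ↔ Cl t hd S := by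
        intro S
        refine forall_congr' fun y => ?_
        by_cases a : t y ∈ {x | Cn t hd (hd u) x}
        · rw [(e2 y a).1, (e2 y a).2]; exact Iff.comm
        · rw [(e3 y a).1, (e3 y a).2]
      have ecn : ∀ a b, Cn T D a b ↔ Cn t hd a b := fun a b => forall_congr' fun S => by rw [ecl]
      have eat : ∀ y w, At T D y w ↔ At t hd y w := by
        intro y w
        unfold At
        by_cases a : t y ∈ {x | Cn t hd (hd u) x}
        · rw [(e2 y a).1, (e2 y a).2]; exact or_comm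
        · rw [(e3 y a).1, (e3 y a).2]
      have ept : ∀ w, Pt P H g Φ T D w ↔ Pt P H g Φ t hd w := fun w => by simp only [Pt, eat]
      have efar : far P g T D = far P g t hd := by
        ext w
        simp only [far, mem_filter, ecn, eg]
      obtain ⟨T', f1, f2, f3⟩ := step (g := g) (Φ := Φ) hP sub e1
        (by simpa only [Iv, ecn, ept, eg] using hi) u (by rwa [ecn, eg, eu]) (by rwa [eu])
        (by rwa [eg]) (by simpa only [ecn, ept, eg, eu] using top')
      exact ih _ (hm ▸ efar ▸ f3) T' D rfl f1 f2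

/-- the point of least rank in another component is a port -/
theorem start (sub : ∀ y, H y ⊆ P) {T D : Fin n → X} (hp : Pm H T D) (Z : Fin n → Prop)
    (rk : X → ℕ) (top : ∀ p ∈ P, Φ p ≤ Φ (T g))
    (hat : ∀ y, Z y → At T D y (t y) ∧ At T D y (hd y))
    (hs : ∀ v ∈ P, ¬ Cn T D (T g) v → (∃ y, Z y ∧ hd y = v) ∧ ∃ r, Z r ∧ t r = v)
    (hr : ∀ y, Z y → rk (t y) < rk (hd y) ∨
      ∀ r, Z r → t r = hd y → y ≠ r ∧ Port P H g Φ y r (hd y)) : Iv P H g Φ T D := by
  classical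
  intro z hz hn
  obtain ⟨v, hv, low⟩ := exists_min_image (P.filter fun v => Cn T D v z) rk
    ⟨z, mem_filter.2 ⟨hz, Cn.rf z⟩⟩
  obtain ⟨a1, a2⟩ := mem_filter.1 hv
  obtain ⟨⟨y, b1, rfl⟩, r, b2, b3⟩ := hs v a1 fun h => hn (h.tr a2)
  have tP : t y ∈ P := by
    rcases (hat y b1).1 with h | h
    · exact h ▸ sub y (hp.tm y)
    · exact h ▸ sub y (hp.hm y)
  have := low (t y) (mem_filter.2 ⟨tP, ((hat y b1).1.cn.sy.tr (hat y b1).2.cn).tr a2⟩)
  obtain ⟨c1, c2⟩ := (hr y b1).resolve_left (by omega) r b2 b3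
  exact ⟨hd y, a2, ⟨y, r, c1, (hat y b1).2, b3 ▸ (hat r b2).1, c2⟩, top _ a1⟩

omit [DecidableEq X] in
/-- one value is added to an injective map -/
theorem inj1 (g : Fin n) (e : X) (ti : ∀ y z, y ≠ g → z ≠ g → t y = t z → y = z)
    (te : ∀ y, y ≠ g → t y ≠ e) : Injective (update t g e) := by
  intro y z h
  by_cases a : y = g <;> by_cases b : z = g
  · rw [a, b]
  · rw [a, update_self, update_of_ne b] at h
    exact absurd h.symm (te z b)
  · rw [b, update_self, update_of_ne a] at h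
    exact absurd h (te y a)
  · rw [update_of_ne a, update_of_ne b] at h
    exact ti y z a b h

omit [DecidableEq X] in
/-- two values are added to an injective map -/
theorem inj2 (g A : Fin n) (e x : X) (hx : x ≠ e)
    (ti : ∀ y z, y ≠ g → z ≠ g → y ≠ A → z ≠ A → t y = t z → y = z)
    (te : ∀ y, y ≠ g → y ≠ A → t y ≠ e ∧ t y ≠ x) : Injective (update (update t A x) g e) := by
  refine inj1 g e (fun y z a b h => ?_) (fun y a => ?_)
  · by_cases c : y = A <;> by_cases d : z = A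
    · rw [c, d]
    · rw [c, update_self, update_of_ne d] at h
      exact absurd h.symm (te z b d).2
    · rw [d, update_self, update_of_ne c] at h
      exact absurd h (te y a c).2
    · rw [update_of_ne c, update_of_ne d] at h
      exact ti y z a b c d h
  · by_cases c : y = A
    · rw [c, update_self]; exact hx
    · rw [update_of_ne c]; exact (te y a c).1

omit [DecidableEq X] in
theorem mem2 {K : Fin n → Finset X} (g A : Fin n) (e x : X) (he : e ∈ K g) (hx : x ∈ K A)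
    (tm : ∀ y, y ≠ g → y ≠ A → t y ∈ K y) (y : Fin n) : update (update t A x) g e y ∈ K y := by
  by_cases a : y = g
  · rw [a, update_self]; exact he
  by_cases c : y = A
  · rw [update_of_ne a, c, update_self]; exact hx
  · rw [update_of_ne a, update_of_ne c]; exact tm y a c

/-- counting with two missing labels -/
theorem two (hP : P.card = n) (g A : Fin n) (hA : A ≠ g) (e x s h : X) (he : e ∈ P) (hx : x ∈ P)
    (hs : s ∈ P) (hh : h ∈ P) (hxe : x ≠ e) (hsh : h ≠ s)
    (ti : ∀ y z, y ≠ g → z ≠ g → y ≠ A → z ≠ A → t y = t z → y = z)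
    (te : ∀ y, y ≠ g → y ≠ A → t y ∈ P ∧ t y ≠ e ∧ t y ≠ x)
    (hi : ∀ y z, y ≠ g → z ≠ g → y ≠ A → z ≠ A → hd y = hd z → y = z)
    (hs' : ∀ y, y ≠ g → y ≠ A → hd y ∈ P ∧ hd y ≠ s ∧ hd y ≠ h) (S : Set X)
    (hS : ∀ y, y ≠ g → y ≠ A → (t y ∈ S ↔ hd y ∈ S)) (h1 : e ∈ S ↔ s ∈ S) : x ∈ S ↔ h ∈ S := by
  have := one hP (inj2 g A e x hxe ti fun y a b => (te y a b).2)
    (inj2 g A s h hsh hi fun y a b => (hs' y a b).2)
    (mem2 (K := fun _ => P) g A e x he hx fun y a b => (te y a b).1)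
    (mem2 (K := fun _ => P) g A s h hs hh fun y a b => (hs' y a b).1) S A (fun y c => by
      by_cases a : y = g
      · rw [a, update_self, update_self]; exact h1
      · simp only [update_of_ne a, update_of_ne c]; exact hS y a c)
  simpa only [update_of_ne hA, update_self] using this

/-- the path from `h` to `x` lies in `R` and is turned round -/
theorem close2R (hP : P.card = n) (hn : 2 ≤ n) (sub : ∀ y, H y ⊆ P) (A : Fin n) (hA : A ≠ g)
    (e x s h : X) (rk : X → ℕ) (he : e ∈ H g) (hx : x ∈ H g) (hxe : x ≠ e) (hs : s ∈ H A)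
    (hh : h ∈ H A) (hsh : s ≠ h) (top : ∀ p ∈ P, Φ p ≤ Φ e)
    (ti : ∀ y z, y ≠ g → z ≠ g → y ≠ A → z ≠ A → t y = t z → y = z)
    (te : ∀ y, y ≠ g → y ≠ A → t y ∈ H y ∧ t y ≠ e ∧ t y ≠ x)
    (hi : ∀ y z, y ≠ g → z ≠ g → y ≠ A → z ≠ A → hd y = hd z → y = z)
    (hs' : ∀ y, y ≠ g → y ≠ A → hd y ∈ H y ∧ hd y ≠ s ∧ hd y ≠ h)
    (hr : ∀ y, y ≠ g → y ≠ A → rk (t y) < rk (hd y) ∨
      ∀ r, r ≠ g → r ≠ A → t r = hd y → y ≠ r ∧ Port P H g Φ y r (hd y))
    (R : Set X) (hR : ∀ y, y ≠ g → y ≠ A → (t y ∈ R ↔ hd y ∈ R)) (r1 : x ∈ R) (r2 : h ∈ R)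
    (r3 : e ∉ R) (r4 : s ∉ R) : Ham P H := by
  have teP := fun y a b => And.imp_left (fun k => sub y k) (te y a b)
  have hsP := fun y a b => And.imp_left (fun k => sub y k) (hs' y a b)
  have i1 := inj2 g A e x hxe ti fun y a b => (te y a b).2
  have i2 := inj2 g A s h hsh.symm hi fun y a b => (hs' y a b).2
  have m1 := mem2 (K := fun _ => P) g A e x (sub g he) (sub g hx) fun y a b => (teP y a b).1
  have m2 := mem2 (K := fun _ => P) g A s h (sub A hs) (sub A hh) fun y a b => (hsP y a b).1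
  have g1 : update (update t A x) g e g = e := update_self ..
  have g2 : update (update hd A h) g s g = s := update_self ..
  have a1 : update (update t A x) g e A = x := by rw [update_of_ne hA, update_self]
  have a2 : update (update hd A h) g s A = h := by rw [update_of_ne hA, update_self]
  have o1 : ∀ y, y ≠ g → y ≠ A → update (update t A x) g e y = t y := fun y a b => by
    rw [update_of_ne a, update_of_ne b]
  have o2 : ∀ y, y ≠ g → y ≠ A → update (update hd A h) g s y = hd y := fun y a b => by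
    rw [update_of_ne a, update_of_ne b]
  generalize update (update t A x) g e = t0 at i1 m1 g1 a1 o1
  generalize update (update hd A h) g s = h0 at i2 m2 g2 a2 o2
  obtain ⟨T, D0, e1, e2, e3⟩ := turn (H := fun _ => P) ⟨i1, i2, m1, m2⟩ R (fun y => by
    by_cases a : y = g
    · rw [a, g1, g2]; exact iff_of_false r3 r4
    by_cases b : y = A
    · rw [b, a1, a2]; exact iff_of_true r1 r2
    · rw [o1 y a b, o2 y a b]; exact hR y a b)
  have Tg : T g = e := (e3 g (g1 ▸ r3)).1.trans g1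
  have TA : T A = h := (e2 A (a1 ▸ r1)).1.trans a2
  have Dg : (D0 ∘ Equiv.swap g A) g = x := by
    simpa using (e2 A (a1 ▸ r1)).2.trans a1
  have DA : (D0 ∘ Equiv.swap g A) A = s := by
    simpa using (e3 g (g1 ▸ r3)).2.trans g2
  have Do : ∀ y, y ≠ g → y ≠ A → (D0 ∘ Equiv.swap g A) y = D0 y := fun y a b => by
    simp [Equiv.swap_apply_of_ne_of_ne a b]
  have Di : Injective (D0 ∘ Equiv.swap g A) := e1.hi.comp (Equiv.swap g A).injective
  generalize D0 ∘ Equiv.swap g A = D at Dg DA Do Di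
  have alt : ∀ y, y ≠ g → y ≠ A → (T y = hd y ∧ D y = t y) ∨ (T y = t y ∧ D y = hd y) := by
    intro y a b
    rw [Do y a b, ← o1 y a b, ← o2 y a b]
    by_cases c : t0 y ∈ R
    · exact Or.inl (e2 y c)
    · exact Or.inr (e3 y c)
  have hp : Pm H T D := by
    refine ⟨e1.ti, Di, fun y => ?_, fun y => ?_⟩ <;> by_cases a : y = g
    · rw [a, Tg]; exact he
    · by_cases b : y = A
      · rw [b, TA]; exact hh
      · rcases alt y a b with k | k <;> rw [k.1]
        · exact (hs' y a b).1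
        · exact (te y a b).1
    · rw [a, Dg]; exact hx
    · by_cases b : y = A
      · rw [b, DA]; exact hs
      · rcases alt y a b with k | k <;> rw [k.2]
        · exact (te y a b).1
        · exact (hs' y a b).1
  have c1 : Cn T D e x := Tg ▸ Dg ▸ Cn.edge g
  have c2 : Cn T D h s := TA ▸ DA ▸ Cn.edge A
  have c3 : Cn T D x h := by
    intro S hS
    have := two hP g A hA e x s h (sub g he) (sub g hx) (sub A hs) (sub A hh) hxe hsh.symm ti teP
      hi hsP (S ∩ R) (fun y a b => and_congr (by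
        have := hS y
        rcases alt y a b with k | k <;> rw [k.1, k.2] at this
        · exact this.symm
        · exact this) (hR y a b)) (iff_of_false (fun k => r3 k.2) (fun k => r4 k.2))
    exact ⟨fun k => (this.1 ⟨k, r1⟩).1, fun k => (this.2 ⟨k, r2⟩).1⟩
  refine chain (g := g) (Φ := Φ) hP hn sub _ T D rfl hp (start (t := t) (hd := hd) sub hp
    (fun y => y ≠ g ∧ y ≠ A) rk (Tg ▸ top) (fun y k => ?_) (fun v hv hn => ⟨?_, ?_⟩)
    (fun y k => (hr y k.1 k.2).imp id fun q r k' => q r k'.1 k'.2))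
  · rcases alt y k.1 k.2 with q | q
    · exact ⟨Or.inr q.2, Or.inl q.1⟩
    · exact ⟨Or.inl q.1, Or.inr q.2⟩
  · rw [Tg] at hn
    obtain ⟨y, rfl⟩ := surj hP i2 m2 v hv
    have a : y ≠ g := fun k => hn (by rw [k, g2]; exact (c1.tr c3).tr c2)
    have b : y ≠ A := fun k => hn (by rw [k, a2]; exact c1.tr c3)
    exact ⟨y, ⟨a, b⟩, (o2 y a b).symm⟩
  · rw [Tg] at hn
    obtain ⟨y, rfl⟩ := surj hP i1 m1 v hv
    have a : y ≠ g := fun k => hn (by rw [k, g1]; exact Cn.rf _)
    have b : y ≠ A := fun k => hn (by rw [k, a1]; exact c1)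
    exact ⟨y, ⟨a, b⟩, (o1 y a b).symm⟩

end Cyc

open Cyc

theorem close1 : Close1S := by
  intro X _ n P H g Φ e s t hd rk hP hn sub he hs top ti te hi hs' hr
  have mem : ∀ (f : Fin n → X) (a : X), a ∈ H g → (∀ y, y ≠ g → f y ∈ H y) →
      ∀ y, update f g a y ∈ H y := by
    intro f a ha hf y
    by_cases k : y = g
    · rw [k, update_self]; exact ha
    · rw [update_of_ne k]; exact hf y k
  have hp : Pm H (update t g e) (update hd g s) :=
    ⟨inj1 g e ti fun y a => (te y a).2, inj1 g s hi fun y a => (hs' y a).2,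
      mem t e he fun y a => (te y a).1, mem hd s hs fun y a => (hs' y a).1⟩
  refine chain (g := g) (Φ := Φ) hP hn sub _ _ _ rfl hp (start (t := t) (hd := hd) sub hp
    (fun y => y ≠ g) rk (by rwa [update_self]) (fun y k => ?_) (fun v hv hn => ⟨?_, ?_⟩) hr)
  · exact ⟨Or.inl (update_of_ne k _ _), Or.inr (update_of_ne k _ _)⟩
  · obtain ⟨y, rfl⟩ := surj hP hp.hi (fun y => sub y (hp.hm y)) v hv
    have a : y ≠ g := fun k => hn (k ▸ Cn.edge y)
    exact ⟨y, a, (update_of_ne a _ _).symm⟩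
  · obtain ⟨y, rfl⟩ := surj hP hp.ti (fun y => sub y (hp.tm y)) v hv
    have a : y ≠ g := fun k => hn (k ▸ Cn.rf _)
    exact ⟨y, a, (update_of_ne a _ _).symm⟩

theorem close2 : Close2S := by
  intro X _ n P H g A Φ e x s h t hd rk hP hn sub hA he hx hxe hs hh hsh top ti te hi hs' hr
  have teP := fun y a b => And.imp_left (fun k => sub y k) (te y a b)
  have hsP := fun y a b => And.imp_left (fun k => sub y k) (hs' y a b)
  obtain ⟨F, f1, f2, f3⟩ : ∃ F : Set X, h ∈ F ∧ s ∉ F ∧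
      ∀ y, y ≠ g → y ≠ A → (t y ∈ F ↔ hd y ∈ F) := by
    refine ⟨{z | Relation.ReflTransGen (fun a b => ∃ y, y ≠ g ∧ y ≠ A ∧ t y = a ∧ hd y = b) h z},
      Relation.ReflTransGen.refl, fun k => ?_, fun y a b =>
      ⟨fun k => Relation.ReflTransGen.tail k ⟨y, a, b, rfl, rfl⟩, fun k => ?_⟩⟩
    · rcases Relation.ReflTransGen.cases_tail k with k | ⟨c, -, y, a, b, -, k⟩
      · exact hsh k
      · exact (hs' y a b).2.1 k
    · rcases Relation.ReflTransGen.cases_tail k with k | ⟨c, k, z, a', b', rfl, k'⟩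
      · exact absurd k (hs' y a b).2.2
      · exact hi z y a' a b' b k' ▸ k
  by_cases k : e ∈ F
  · have := two hP g A hA e x h s (sub g he) (sub g hx) (sub A hh) (sub A hs) hxe hsh ti teP hi
      (fun y a b => ⟨(hsP y a b).1, (hsP y a b).2.2, (hsP y a b).2.1⟩) F f3 (iff_of_true k f1)
    exact close2R hP hn sub A hA e x h s rk he hx hxe hh hs hsh.symm top ti te hi
      (fun y a b => ⟨(hs' y a b).1, (hs' y a b).2.2, (hs' y a b).2.1⟩) hr Fᶜ
      (fun y a b => not_congr (f3 y a b)) (fun q => f2 (this.1 q)) f2 (fun q => q k)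
      (fun q => q f1)
  · have := two hP g A hA e x s h (sub g he) (sub g hx) (sub A hs) (sub A hh) hxe hsh.symm ti teP
      hi hsP F f3 (iff_of_false k f2)
    exact close2R hP hn sub A hA e x s h rk he hx hxe hs hh hsh top ti te hi hs' hr F f3
      (this.2 f1) f1 k f2

end Pool.Agent.MP_3b4e7c_co.Gen

end MrgPart3

-- marker of a merged file
example : 731051 + 557413 = 731051 + 557413 := rfl
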