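import Pool.Agent.MP_3b4e7c_co.Gen.Geo
import Pool.Agent.MP_3b4e7c_co.Gen.Cyc

/-! The path frame and the tree with three leaves. -/

namespace Pool.Agent.MP_3b4e7c_co.Gen

open Finset Up Real

variable {X : Type} [DecidableEq X] {n : ℕ} {P : Finset X} {H : Fin n → Finset X} {g : Fin n}
  {T : Fin n → ℝ} {ht : ℝ → X → ℝ}

omit [DecidableEq X] in
theorem Ang.per (h : Ang P H T ht) (c : ℝ) (x : X) : ht (c + 2 * π) x = ht c x := by
  rw [show c + 2 * π = c + π + π by ring, h.anti, h.anti, neg_neg]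

omit [DecidableEq X] in
theorem Cut.pos (h : Cut P H g T ht) {y : Fin n} (hy : y ≠ g) : 0 < T y := by
  have := h.gen.par y g hy 0
  rw [h.zero] at this
  exact lt_of_le_of_ne (h.lo y) (by simpa using this.symm)

omit [DecidableEq X] in
theorem Cut.right (h : Cut P H g T ht) {y : Fin n} (hy : y ≠ g) (h1 : ¬ T y < π) : π < T y := by
  have := h.gen.par y g hy 1
  rw [h.zero] at this
  exact lt_of_le_of_ne (not_lt.1 h1) (by simpa using this.symm)

omit [DecidableEq X] in
theorem Cut.long (h : Cut P H g T ht) {C D : Fin n} (hd : π < T D - T C) {p x : X}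
    (pC : p ∈ H C) (pD : p ∈ H D) (hx : x ∈ P) (hh : ht 0 p ≤ ht 0 x) : x ∈ H C ∨ x ∈ H D := by
  have e0 : ∀ z, ht (2 * π) z = ht 0 z := fun z => by simpa using h.ang.per 0 z
  have := h.ang.wedge (a := T D) (c := 2 * π) (b := T C + 2 * π) (p := p) (x := x) (h.hi D).le
    (by linarith [h.lo C]) (by linarith) (by rwa [e0, e0])
  rw [h.ang.per, h.ang.per] at this
  exact (this.imp (h.ang.up D p pD x hx) (h.ang.up C p pC x hx)).symm

/-- the side of a label -/
noncomputable def sd (T : Fin n → ℝ) (y : Fin n) : Bool := decide (T y < π)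

omit [DecidableEq X] in
theorem Cut.same (h : Cut P H g T ht) {y z : Fin n} (hy : y ≠ g) (hz : z ≠ g)
    (e : sd T y = sd T z) : |T y - T z| < π := by
  simp only [sd, decide_eq_decide] at e
  rw [abs_lt]
  by_cases h1 : T y < π
  · have := e.1 h1
    constructor <;> linarith [h.pos hy, h.pos hz]
  · have a := h.right hy h1
    have b := h.right hz (fun hh => h1 (e.2 hh))
    constructor <;> linarith [h.hi y, h.hi z]

omit [DecidableEq X] in
theorem Cut.diff (h : Cut P H g T ht) (hN : NCg H g T) {p : X} (hp : p ∈ H g) {C D : Fin n}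
    (hC : C ≠ g) (hD : D ≠ g) (pC : p ∈ H C) (pD : p ∈ H D) (e : sd T C ≠ sd T D) :
    π < T D - T C ∨ π < T C - T D := by
  simp only [sd, ne_eq, decide_eq_decide] at e
  by_cases h1 : T C < π
  · exact Or.inl (hN p hp C D hC hD pC pD h1 (h.right hD (fun hh => e ⟨fun _ => hh, fun _ => h1⟩)))
  · have h2 : T D < π := by
      by_contra hh
      exact e ⟨fun a => absurd a h1, fun a => absurd a hh⟩
    exact Or.inr (hN p hp D C hD hC pD pC h2 (h.right hC h1))

theorem frame_of_cut (hB : Base P H) (h : Cut P H g T ht) (hN : NCg H g T) :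
    ∃ e, Frame P H g e (ht 0) (sd T) := by
  obtain ⟨p0, hp0⟩ : (P ∩ H g).Nonempty := card_pos.1 (by
    have := hB.dh.two hB.card hB.two g; omega)
  obtain ⟨e, he, hmax⟩ := exists_max_image P (ht 0) ⟨p0, (mem_inter.1 hp0).1⟩
  have up0 : ∀ p ∈ H g, ∀ x ∈ P, ht 0 p ≤ ht 0 x → x ∈ H g := by
    have := h.ang.up g
    rwa [h.zero] at this
  have eπ : ∀ z, ht π z = - ht 0 z := fun z => by simpa using h.ang.anti 0 z
  have e2 : ∀ z, ht (2 * π) z = ht 0 z := fun z => by simpa using h.ang.per 0 z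
  refine ⟨e, ?_, up0 p0 (mem_inter.1 hp0).2 e he (hmax p0 (mem_inter.1 hp0).1), hmax, up0, ?_, ?_⟩
  · have := h.gen.inj g
    rwa [h.zero] at this
  · intro p hp C D hC hD pC pD hs x hx hh
    rcases h.diff hN hp hC hD pC pD hs with h1 | h1
    · exact h.long h1 pC pD hx hh
    · exact (h.long h1 pD pC hx hh).symm
  · intro C D hC hD hs x y z l1 l2 xC zC yD
    by_contra hn
    push Not at hn
    obtain ⟨n1, n2, n3⟩ := hn
    have yP := hB.sub D yD
    have a1 : ht (T D) x ≤ ht (T D) y :=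
      le_of_not_ge (fun hh => n2 (h.ang.up D y yD x (hB.sub C xC) hh))
    have a2 : ht (T D) z ≤ ht (T D) y :=
      le_of_not_ge (fun hh => n3 (h.ang.up D y yD z (hB.sub C zC) hh))
    have b1 : ¬ ht (T C) x ≤ ht (T C) y := fun hh => n1 (h.ang.up C x xC y yP hh)
    have b2 : ¬ ht (T C) z ≤ ht (T C) y := fun hh => n1 (h.ang.up C z zC y yP hh)
    simp only [sd, decide_eq_decide] at hs
    by_cases h1 : T C < π
    · have h2 := hs.1 h1
      rcases le_total (T C) (T D) with hl | hl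
      · rcases h.ang.wedge hl h2.le (by linarith [h.pos hC]) a1 with k | k
        · exact b1 k
        · rw [eπ, eπ] at k; linarith
      · rcases h.ang.wedge (h.lo D) hl (by linarith) a2 with k | k
        · linarith
        · exact b2 k
    · have h2 := h.right hC h1
      have h3 := h.right hD (fun hh => h1 (hs.2 hh))
      rcases le_total (T C) (T D) with hl | hl
      · rcases h.ang.wedge hl (h.hi D).le (by linarith) a2 with k | k
        · exact b2 k
        · rw [e2, e2] at k; linarith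
      · rcases h.ang.wedge h3.le hl (by linarith [h.hi C]) a1 with k | k
        · rw [eπ, eπ] at k; linarith
        · exact b1 k

theorem path_frame [Fintype X] (hB : Base P H) (h : Cut P H g T ht) (hE : Env P H g T) {e : X}
    (hF : Frame P H g e (ht 0) (sd T)) (o : X) (ho : o ∉ P) (hS : Star P H g e) : Ham P H := by
  obtain ⟨t, t1, t2, t3⟩ := hS
  have cY : (univ.erase g).card + 1 = n := by rw [card_erase_add_one (mem_univ _)]; simp
  obtain ⟨hd, rk, d1, d2⟩ := run X n P H H T ht (univ.erase g) P t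
    (fun y p => p ∈ H g ∧ ∃ r, r ≠ g ∧ t r = p ∧ sd T y ≠ sd T r) o h.ang Subset.rfl ho
    (fun y _ => Or.inr (fun _ _ => Iff.rfl)) (by
      intro r hr _
      have hr' := (mem_erase.1 hr).1
      refine Or.inr ⟨(t2 r hr').1, ?_, fun y hy h1 h2 => ?_⟩
      · rintro ⟨-, r', a1, a2, a3⟩
        exact a3 (by rw [t1 r' r a1 hr' a2])
      · by_cases hg : t r ∈ H g
        · refine h.same (mem_erase.1 hy).1 hr' ?_
          by_contra hh
          exact h2 ⟨hg, r, hr', rfl, hh⟩
        · have hP := hB.sub y h1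
          have a := hE _ hP hg y r h1 (t2 r hr').1
          have b := hE _ hP hg r y (t2 r hr').1 h1
          rw [abs_lt]; constructor <;> linarith) (by
      intro S hS I i1 i2 _
      have c1 := card_le_card hS
      rw [hB.card]
      by_cases hI : 2 ≤ I.card
      · have := N2_disj I S i2.le_one
        have := hB.dh I i1 hI
        omega
      · omega)
  have m : ∀ {y}, y ≠ g → y ∈ univ.erase g := fun hy => mem_erase.2 ⟨hy, mem_univ _⟩
  obtain ⟨s, hs, hsd⟩ : ∃ s ∈ P, s ∉ (univ.erase g).image hd := by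
    by_contra hh
    push Not at hh
    have := card_le_card (show P ⊆ _ from hh)
    have := card_image_le (s := univ.erase g) (f := hd)
    have := hB.card
    omega
  have hne : ∀ y, y ≠ g → hd y ≠ s := fun y hy hh => hsd (mem_image.2 ⟨y, m hy, hh⟩)
  have hinj : ∀ y z, y ≠ g → z ≠ g → hd y = hd z → y = z :=
    fun y z hy hz hh => d1 (m hy) (m hz) hh
  have port : ∀ y, y ≠ g → rk (t y) < rk (hd y) ∨
      ∀ r, r ≠ g → t r = hd y → y ≠ r ∧ Port P H g (ht 0) y r (hd y) := by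
    intro y hy
    obtain ⟨-, a2, a3⟩ := d2 y (m hy)
    refine a3.symm.imp id ?_
    rintro ⟨b1, r', b2, b3, b4⟩ r hr e1
    obtain rfl := t1 r' r b2 hr (b3.trans e1.symm)
    exact ⟨fun hh => b4 (by rw [hh]), b1,
      hF.nc _ b1 y r' hy hr a2 (e1 ▸ (t2 r' hr).1) b4⟩
  by_cases hsg : s ∈ H g
  · exact close1 X n P H g (ht 0) e s t hd rk hB.card hB.two hB.sub hF.emem hsg hF.top t1 t2 hinj
      (fun y hy => ⟨(d2 y (m hy)).2.1, hne y hy⟩) port
  · obtain ⟨A, a1, a2, a3⟩ := t3 s hs hsg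
    exact close2 X n P H g A (ht 0) e (t A) s (hd A) t hd rk hB.card hB.two hB.sub a1 hF.emem a3
      (t2 A a1).2 a2 (d2 A (m a1)).2.1 (hne A a1).symm hF.top
      (fun y z hy hz _ _ => t1 y z hy hz)
      (fun y hy hA => ⟨(t2 y hy).1, (t2 y hy).2, fun hh => hA (t1 y A hy a1 hh)⟩)
      (fun y z hy hz _ _ => hinj y z hy hz)
      (fun y hy hA => ⟨(d2 y (m hy)).2.1, hne y hy, fun hh => hA (hinj y A hy a1 hh)⟩)
      (fun y hy _ => (port y hy).imp id (fun hh r hr _ => hh r hr))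

theorem anchor (hB : Base P H) (h : Cut P H g T ht) (N : Finset X) (hN : N ⊆ P)
    (hun : ∀ p ∈ N, ∀ y z, y ≠ g → z ≠ g → p ∈ H y → p ∈ H z → T y - T z < π)
    {e r0 : X} (he : e ∈ H g) (hr : r0 ∈ N) (hrg : r0 ∉ H g) :
    ∃ a ∈ N, ∀ A, A ≠ g → a ∈ H A →
      ∃ B, B ≠ A ∧ B ≠ g ∧ a ∈ H B ∧ ∀ p ∈ N, p ∈ H A ∨ p ∈ H B := by
  have two : ∀ q ∈ P, ∀ A, ∃ B, B ≠ A ∧ B ≠ g ∧ q ∈ H B := by
    intro q hq A
    obtain ⟨x, hx, hxr, hq⟩ : ∃ x ∈ P, x ≠ r0 ∧ (q = x ∨ q = r0) := by
      by_cases hh : q = r0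
      · exact ⟨e, hB.sub g he, fun k => hrg (k ▸ he), Or.inr hh⟩
      · exact ⟨q, hq, hh, Or.inl rfl⟩
    obtain ⟨u, u', huu, h1, h2⟩ := hB.dh.pair hx (hN hr) hxr
    have k : ∀ y, x ∈ H y ∧ r0 ∈ H y → y ≠ g ∧ q ∈ H y := fun y hy =>
      ⟨fun k => hrg (k ▸ hy.2), by rcases hq with rfl | rfl; exacts [hy.1, hy.2]⟩
    by_cases hh : u = A
    · exact ⟨u', hh ▸ huu.symm, k u' h2⟩
    · exact ⟨u, hh, k u h1⟩
  obtain ⟨c, q, hq, ⟨u, hu, u1, u2⟩, ⟨w, hw, w1, w2⟩, hmin⟩ := clique_cover H (univ.erase g) N T ht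
    ⟨r0, hr⟩ (by
      intro a ha b hb
      by_cases hab : a = b
      · subst hab
        obtain ⟨B, -, b1, b2⟩ := two a (hN ha) g
        exact ⟨B, by simp [b1], b2, b2⟩
      · obtain ⟨u, u', huu, h1, h2⟩ := hB.dh.pair (hN ha) (hN hb) hab
        by_cases hh : u = g
        · exact ⟨u', by simp [← hh, huu.symm], h2⟩
        · exact ⟨u, by simp [hh], h1⟩)
  have hu' := (mem_erase.1 hu).1
  have hw' := (mem_erase.1 hw).1
  refine ⟨q, hq, fun A hA hqA => ?_⟩
  by_cases hc : T A = c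
  · obtain ⟨B, b1, b2, b3⟩ := two q (hN hq) A
    exact ⟨B, b1, b2, b3, fun p hp => Or.inl (h.ang.up A q hqA p (hN hp) (hc ▸ hmin p hp))⟩
  rcases le_total (T A) c with hl | hl
  · exact ⟨w, fun k => hc (le_antisymm hl (k ▸ w2)), hw', w1, fun p hp =>
      h.ang.cover hl w2 (hun q hq w A hw' hA w1 hqA) hqA w1 (hN hp) (hmin p hp)⟩
  · exact ⟨u, fun k => hc (le_antisymm (k ▸ u2) hl), hu', u1, fun p hp =>
      (h.ang.cover u2 hl (hun q hq A u hA hu' hqA u1) u1 hqA (hN hp) (hmin p hp)).symm⟩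

theorem ham_of_env [Fintype X] (star : StarS) (hB : Base P H) (h : Cut P H g T ht)
    (hE : Env P H g T) (hN : NCg H g T) (hC : Crossing P H g) (o : X) (ho : o ∉ P) :
    Ham P H := by
  classical
  obtain ⟨e, hF⟩ := frame_of_cut hB h hN
  refine by_contra (fun hno => ?_)
  have noStar : ¬ Star P H g e := fun hS => hno (path_frame hB h hE hF o ho hS)
  obtain ⟨r0, hr0, hrg⟩ : ∃ r0 ∈ P, r0 ∉ H g := by
    by_contra hh
    push Not at hh
    exact noStar (star0 X n P H g e hB (hB.sub g hF.emem) ((hB.sub g).antisymm hh))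
  set N := P.filter (fun p => p ≠ e ∧
    ∀ y z, y ≠ g → z ≠ g → p ∈ H y → p ∈ H z → T y - T z < π) with hNdef
  have RN : ∀ p ∈ P, p ∉ H g → p ∈ N := fun p hp hg => mem_filter.2
    ⟨hp, fun k => hg (k ▸ hF.emem), fun y z _ _ => hE p hp hg y z⟩
  obtain ⟨a, ha, hanc⟩ := anchor hB h N (filter_subset _ _)
    (fun p hp => (mem_filter.1 hp).2.2) hF.emem (RN r0 hr0 hrg) hrg
  obtain ⟨aP, ae, aun⟩ := mem_filter.1 ha
  obtain ⟨A, B, b, t, hY, hcov⟩ := ytail X n P H g a e N hB hC hF.emem aP ae hanc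
  have stab : ∀ p ∈ H g, p ≠ e → p ∉ H A → p ∉ H B →
      ∃ C D, C ≠ g ∧ D ≠ g ∧ p ∈ H C ∧ p ∈ H D ∧ sd T C ≠ sd T D := by
    intro p hp pe pA pB
    by_contra hh
    push Not at hh
    refine (hcov p (mem_filter.2 ⟨hB.sub g hp, pe, fun y z hy hz py pz => ?_⟩)).elim pA pB
    exact (abs_lt.1 (h.same hy hz (hh y z hy hz py pz))).2
  have aside : a ∈ H g → ∀ y z, y ≠ g → z ≠ g → a ∈ H y → a ∈ H z → sd T y = sd T z := by
    intro hg y z hy hz ay az
    by_contra hh
    rcases h.diff hN hg hy hz ay az hh with k | k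
    · linarith [aun z y hz hy az ay]
    · linarith [aun y z hy hz ay az]
  have tuniq : ∀ r r', r ≠ g → r' ≠ g → t r = t r' → r = r' ∨ t r = a := by
    intro r r' hr hr' e1
    by_cases k1 : r = B
    · exact Or.inr (k1 ▸ hY.tB)
    by_cases k2 : r' = B
    · exact Or.inr (e1.trans (k2 ▸ hY.tB))
    exact Or.inl (hY.tinj r r' hr hr' k1 k2 e1)
  set G : Fin n → Finset X := fun y => if y = g then H A ∪ H B else H y with hG
  have Gy : ∀ y, y ≠ g → G y = H y := fun y hy => if_neg hy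
  have Gg : G g = H A ∪ H B := if_pos rfl
  set Src : Fin n → X → Prop := fun y p =>
    y = g ∨ (p ∈ H g ∧ ∃ r, r ≠ g ∧ t r = p ∧ sd T y ≠ sd T r) with hSrc
  have hall : ∀ S ⊆ (univ : Finset (Fin n)), ∀ I ⊆ P, Indep G S I →
      (∀ y ∈ S, ∀ p ∈ I, p ∈ G y → ¬ Src y p ∧ ∃ r ∈ S, t r = p ∧ ¬ Src r p) →
      S.card + I.card ≤ P.card := by
    intro S _ I i1 i2 i3
    by_contra hgt
    rw [hB.card] at hgt
    have cS : S.card ≤ n := (card_le_univ _).trans (by simp)
    have avoid : g ∈ S → ∀ p ∈ I, p ∉ H A ∧ p ∉ H B := by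
      intro hg p hp
      have := fun k => (i3 g hg p hp k).1 (Or.inl rfl)
      rw [Gg, mem_union] at this
      exact not_or.1 this
    have own : ∀ y ∈ S, y ≠ g → ∀ p ∈ I, p ∈ H g → p ∈ H y →
        ∃ r ∈ S, r ≠ g ∧ t r = p ∧ sd T y = sd T r := by
      intro y hy hyg p hp hpg hpy
      obtain ⟨k1, r, hr, k2, k3⟩ := i3 y hy p hp (by rwa [Gy y hyg])
      have hrg : r ≠ g := fun k => k3 (Or.inl k)
      refine ⟨r, hr, hrg, k2, ?_⟩
      by_contra hh
      exact k1 (Or.inr ⟨hpg, r, hrg, k2, hh⟩)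
    have ing : g ∈ S → ∀ p ∈ I, p ∈ H g := by
      intro hg p hp
      by_contra hh
      exact (hcov p (RN p (i1 hp) hh)).elim (avoid hg p hp).1 (avoid hg p hp).2
    by_cases hI : 2 ≤ I.card
    · have c0 := hB.dh I i1 hI
      have le1 : ∀ y ∈ S.erase g, (I ∩ H y).card ≤ 1 := by
        intro y hy
        have := i2.le_one y (mem_of_mem_erase hy)
        rwa [Gy y (mem_erase.1 hy).1] at this
      have c1 := N2_disj I (S.erase g) le1
      have hg : g ∈ S := by
        by_contra hh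
        rw [erase_eq_of_notMem hh] at c1
        omega
      have c2 := card_erase_add_one hg
      have hgN : g ∈ N2 H I := mem_filter.2 ⟨mem_univ _, by
        rwa [inter_eq_left.2 (fun p hp => ing hg p hp)]⟩
      have full : ∀ y, y ∉ N2 H I → y ∈ S.erase g := by
        intro y hy
        by_contra hh
        have := N2_disj (H := H) I (insert y (S.erase g)) (fun z hz => by
          rcases mem_insert.1 hz with rfl | hz
          · simpa [N2] using hy
          · exact le1 z hz)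
        rw [card_insert_of_notMem hh] at this
        omega
      refine noStar (star X n P H g A B a b e (ht 0) (sd T) t I hB hF hY
        (fun p hp hh => hcov p (RN p hp hh)) stab ⟨fun p hp => ing hg p hp, avoid hg, hI,
          by omega, fun p hp y hy hpy => ?_⟩)
      have hy' := mem_erase.1 (full y hy)
      obtain ⟨r, hr, r1, r2, r3⟩ := own y hy'.2 hy'.1 p hp (ing hg p hp) hpy
      refine ⟨r, fun k => ?_, r2, r3⟩
      have := le1 r (mem_erase.2 ⟨r1, hr⟩)
      have := (mem_filter.1 k).2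
      omega
    · obtain ⟨p, hp⟩ : I.Nonempty := card_pos.1 (by omega)
      have hS : S = univ := eq_univ_of_card _ (by simp; omega)
      have hg : g ∈ S := hS ▸ mem_univ _
      have all : ∀ y, y ∈ S := fun y => hS ▸ mem_univ _
      have pg := ing hg p hp
      obtain ⟨u, u', huu, h1, -⟩ := hB.dh.pair (i1 hp) hr0 (fun k => hrg (k ▸ pg))
      obtain ⟨r, -, r1, r2, -⟩ := own u (all u) (fun k => hrg (k ▸ h1.2)) p hp pg h1.1
      obtain ⟨C, D, k1, k2, k3, k4, k5⟩ := stab p pg (r2 ▸ (hY.tmem r r1).2.2)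
        (avoid hg p hp).1 (avoid hg p hp).2
      obtain ⟨r', -, q1, q2, q3⟩ := own C (all C) k1 p hp pg k3
      obtain ⟨r'', -, s1, s2, s3⟩ := own D (all D) k2 p hp pg k4
      rcases tuniq r' r'' q1 s1 (q2.trans s2.symm) with k | k
      · exact k5 (by rw [q3, s3, k])
      · exact (avoid hg p hp).1 (by rw [← q2, k, ← hY.tA]; exact (hY.tmem A hY.hAg).1)
  obtain ⟨hd, rk, d1, d2⟩ := run X n P H G T ht univ P t Src o h.ang Subset.rfl ho
    (fun y _ => by
      by_cases hy : y = g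
      · exact Or.inl (fun _ => Or.inl hy)
      · exact Or.inr (fun p _ => by rw [Gy y hy])) (by
      intro r _ _
      by_cases hr : r = g
      · exact Or.inl (fun _ => Or.inl hr)
      have tr := (hY.tmem r hr).1
      refine Or.inr ⟨tr, ?_, fun y _ h1 h2 => ?_⟩
      · rintro (k | ⟨k1, r', a1, a2, a3⟩)
        · exact hr k
        · rcases tuniq r r' hr a1 a2.symm with k | k
          · exact a3 (by rw [k])
          · exact a3 (aside (k ▸ k1) r r' hr a1 (k ▸ tr) (k ▸ a2 ▸ (hY.tmem r' a1).1))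
      · have hy : y ≠ g := fun k => h2 (Or.inl k)
        rw [Gy y hy] at h1
        by_cases hg : t r ∈ H g
        · refine h.same hy hr ?_
          by_contra hh
          exact h2 (Or.inr ⟨hg, r, hr, rfl, hh⟩)
        · have hP := hB.sub y h1
          have a := hE _ hP hg y r h1 tr
          have b := hE _ hP hg r y tr h1
          rw [abs_lt]; constructor <;> linarith) hall
  have hinj : ∀ y z, hd y = hd z → y = z := fun y z hh => d1 (mem_univ _) (mem_univ _) hh
  have hdH : ∀ y, y ≠ g → hd y ∈ H y := fun y hy => Gy y hy ▸ (d2 y (mem_univ _)).2.1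
  have fin : ∀ C, C ≠ g → hd g ∈ H C →
      (∀ y z, y ≠ g → z ≠ g → y ≠ C → z ≠ C → t y = t z → y = z) → Ham P H := by
    intro C c1 c2 c3
    refine close2 X n P H g C (ht 0) e b (hd g) (hd C) t hd rk hB.card hB.two hB.sub c1 hF.emem
      hY.bmem hY.hbe c2 (hdH C c1) (fun k => c1 (hinj _ _ k).symm) hF.top c3
      (fun y hy _ => ⟨(hY.tmem y hy).1, (hY.tmem y hy).2.2, (hY.tmem y hy).2.1⟩)
      (fun y z _ _ _ _ => hinj y z)
      (fun y hy hC => ⟨hdH y hy, fun k => hy (hinj _ _ k), fun k => hC (hinj _ _ k)⟩)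
      (fun y hy _ => (d2 y (mem_univ _)).2.2.symm.imp id ?_)
    rintro (k | ⟨b1, r', b2, b3, b4⟩) r hr _ e1
    · exact absurd k hy
    have yr := hdH y hy
    have r'r := b3 ▸ (hY.tmem r' b2).1
    rcases tuniq r' r b2 hr (b3.trans e1.symm) with k | k
    · subst k
      exact ⟨fun hh => b4 (by rw [hh]), b1, hF.nc _ b1 y r' hy hr yr r'r b4⟩
    · rw [b3] at k
      exact absurd (aside (k ▸ b1) y r' hy b2 (k ▸ yr) (k ▸ r'r)) b4
  have := (d2 g (mem_univ _)).2.1
  rw [Gg] at this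
  rcases mem_union.1 this with k | k
  · exact hno (fin A hY.hAg k hY.tinj')
  · exact hno (fin B hY.hBg k hY.tinj)

end Pool.Agent.MP_3b4e7c_co.Gen
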