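import Mathlib.Topology.Sheaves.Presheaf
import Mathlib.Topology.Algebra.Module.ModuleTopology
import Mathlib.Topology.Algebra.Module.Cardinality
import Mathlib.Analysis.CStarAlgebra.Classes
import Mathlib.Analysis.SpecialFunctions.Trigonometric.Complex
import Pool.Agent.MP_3b4e7c_co.Up.Key
import Pool.Agent.MP_3b4e7c_co.Gen.Cyc

-- ======== part 0: formerly Pool.Agent.MP_3b4e7c_co.Gen.E2
section MrgPart0

/-! The connectivity bound with the gain at points that are no tails, and the key step for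
labels with angles on a line. -/

namespace Pool.Agent.MP_3b4e7c_co.Gen

open Finset Up

variable {X : Type*} [DecidableEq X] [Fintype X] {Y : Type*} [DecidableEq Y] [Fintype Y]

/-- independent sets avoiding the source labels and the points that are no tails are small -/
def Hyp2 (H : Y → Finset X) (S : Finset Y) (Q : Finset X) (t : Y → X) (k : ℕ) : Prop :=
  ∀ I ⊆ Q, Indep H S I → (∀ y ∈ S, t y ∉ Q → ∀ a ∈ I, a ∉ H y) →
    (∀ y ∈ S, ∀ a ∈ I, a ∈ H y → ∃ r ∈ S, t r = a) → k + I.card ≤ Q.card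

omit [Fintype X] [Fintype Y] [DecidableEq Y] in
theorem Hyp2.ctr {H : Y → Finset X} {S : Finset Y} {Q : Finset X} {t : Y → X} {k : ℕ}
    (h : Hyp2 H S Q t k) {v : X} (hv : v ∈ Q) {y0 : Y} (hy0 : y0 ∈ S) :
    Hyp2 H S (Q.erase v) (ctr t (v, y0)) (k - 1) := by
  intro I hI h1 h2 h4
  have := h I (hI.trans (erase_subset _ _)) h1 (fun y hy hty => h2 y hy (by
    have : t y ≠ v := fun hh => hty (hh ▸ hv)
    simp only [Up.ctr, if_neg this]
    exact fun hh => hty (mem_of_mem_erase hh))) (fun y hy a ha hay => by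
      obtain ⟨r, hr, e⟩ := h4 y hy a ha hay
      simp only [Up.ctr] at e
      split_ifs at e
      · exact ⟨y0, hy0, e⟩
      · exact ⟨r, hr, e⟩)
  have h3 := card_le_card hI
  rw [card_erase_of_mem hv] at h3 ⊢
  omega

theorem e2_gain (H : Y → Finset X) (S : Finset Y) (Inv : Finset X → (Y → X) → Prop)
    (hdel : ∀ Q t v, Inv Q t → v ∈ Q → Inv (Q.erase v) t)
    (hctr : ∀ Q t v y, Inv Q t → v ∈ Q → y ∈ S → v ∈ H y → t y ≠ v →
      Inv (Q.erase v) (ctr t (v, y)))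
    (hkey : ∀ Q t, Inv Q t → Q.Nonempty → (∀ y ∈ S, t y ∉ Q → ∀ a ∈ Q, a ∉ H y) →
      (∀ v ∈ Q, ∃ y ∈ S, v ∈ H y) → (∀ v ∈ Q, ∃ y ∈ S, t y = v) →
      ∃ q ∈ Q, ∃ w ∈ S, q ∈ H w ∧ ∀ K ⊆ Q, q ∈ K →
        Relation.ReflTransGen (Step H S t K) q (t w) → ∀ I ⊆ Q \ K, Indep H S I →
        (∀ y ∈ S, t y ∈ K → ∀ a ∈ I, a ∉ H y) → ∃ J ⊆ Q, Indep H S J ∧ I.card < J.card) :
    ∀ (N : ℕ) (Q : Finset X) (t : Y → X) (k : ℕ), Q.card < N → Inv Q t → Hyp2 H S Q t k →
      Acyc k (Br (arcs H S Q) t) := by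
  intro N
  induction N with
  | zero => intro Q t k h; omega
  | succ N ih =>
    intro Q t k hN hI hyp
    rcases Q.eq_empty_or_nonempty with rfl | hne
    · have := hyp ∅ Subset.rfl (by simp [Indep]) (by simp) (by simp)
      intro s hs; simp at this; omega
    have keep : ∀ v ∈ Q, ∀ w ∈ S, v ∈ H w →
        Acyc k (Br (insert (v, w) (arcs H S (Q.erase v))) t) → Acyc k (Br (arcs H S Q) t) := by
      intro v hv w hw hvw h
      refine peel t v k (((arcs H S Q).filter (fun a => a.1 = v)).erase (v, w)) _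
        ((erase_subset _ _).trans (filter_subset _ _))
        (fun e he => (mem_filter.1 (mem_of_mem_erase he)).2) ?_ ?_
      · have : arcs H S Q \ ((arcs H S Q).filter (fun a => a.1 = v)).erase (v, w) =
            insert (v, w) (arcs H S (Q.erase v)) := by
          ext a
          simp only [mem_sdiff, mem_erase, mem_filter, mem_insert, mem_arcs]
          constructor
          · tauto
          · rintro (rfl | h)
            · simp [hv, hw, hvw]
            · tauto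
        rw [this]; exact h
      · rintro ⟨x, y0⟩ he hty
        obtain ⟨he', hxe⟩ := mem_filter.1 (mem_of_mem_erase he)
        simp only at hxe hty
        subst hxe
        obtain ⟨-, hy0, hxy0⟩ := mem_arcs.1 he'
        rw [arcs_filter]
        exact ih _ _ _ (by rw [card_erase_of_mem hv]; have := card_pos.2 hne; omega)
          (hctr Q t _ y0 hI hv hy0 hxy0 hty) (hyp.ctr hv hy0)
    have huniq : ∀ v w, ∀ a ∈ insert (v, w) (arcs H S (Q.erase v)), a.1 = v → a = (v, w) := by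
      intro v w a ha haq
      rcases mem_insert.1 ha with rfl | ha
      · rfl
      · exact absurd haq (mem_erase.1 (mem_arcs.1 ha).1).1
    by_cases h1 : ∀ v ∈ Q, ∃ y ∈ S, v ∈ H y
    swap
    · push Not at h1
      obtain ⟨v, hv, h1⟩ := h1
      have : arcs H S Q = arcs H S (Q.erase v) := by
        ext a
        simp only [mem_arcs, mem_erase]
        constructor
        · rintro ⟨a1, a2, a3⟩
          exact ⟨⟨fun hh => h1 _ a2 (hh ▸ a3), a1⟩, a2, a3⟩
        · tauto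
      rw [this]
      refine ih _ t k (by rw [card_erase_of_mem hv]; have := card_pos.2 hne; omega)
        (hdel Q t v hI hv) ?_
      intro I i1 i2 i3 i4
      have hvI : v ∉ I := fun hh => (mem_erase.1 (i1 hh)).1 rfl
      have := hyp (insert v I) (insert_subset hv (i1.trans (erase_subset _ _))) (by
        intro y hy a ha b hb hay hby
        rcases mem_insert.1 ha with rfl | ha
        · exact absurd hay (h1 y hy)
        rcases mem_insert.1 hb with rfl | hb
        · exact absurd hby (h1 y hy)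
        exact i2 y hy a ha b hb hay hby) (by
        intro y hy hty a ha
        rcases mem_insert.1 ha with rfl | ha
        · exact h1 y hy
        · exact i3 y hy (fun hh => hty (mem_of_mem_erase hh)) a ha) (by
        intro y hy a ha hay
        rcases mem_insert.1 ha with rfl | ha
        · exact absurd hay (h1 y hy)
        · exact i4 y hy a ha hay)
      rw [card_insert_of_notMem hvI] at this
      rw [card_erase_of_mem hv]; omega
    by_cases h2 : ∀ y ∈ S, t y ∉ Q → ∀ a ∈ Q, a ∉ H y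
    swap
    · push Not at h2
      obtain ⟨w, hw, htw, v, hv, hvw⟩ := h2
      refine keep v hv w hw hvw
        (cone_gen _ t (v, w) (mem_insert_self _ _) (huniq v w) (Or.inl ?_) k)
      intro a ha hh
      rcases mem_insert.1 ha with rfl | ha
      · exact htw (hh ▸ hv)
      · exact htw (hh ▸ mem_of_mem_erase (mem_arcs.1 ha).1)
    by_cases h3 : ∀ v ∈ Q, ∃ y ∈ S, t y = v
    swap
    · push Not at h3
      obtain ⟨v, hv, h3⟩ := h3
      obtain ⟨w, hw, hvw⟩ := h1 v hv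
      refine keep v hv w hw hvw
        (cone_gen _ t (v, w) (mem_insert_self _ _) (huniq v w) (Or.inr ?_) k)
      intro a ha
      rcases mem_insert.1 ha with rfl | ha
      · exact h3 w hw
      · exact h3 _ (mem_arcs.1 ha).2.1
    obtain ⟨q, hq, w, hw, hqw, hK⟩ := hkey Q t hI hne h2 h1 h3
    refine keep q hq w hw hqw (walk_back H S Inv hdel hctr N
      (fun Q t k a b c => ih Q t k a b (fun I i1 i2 i3 _ => c I i1 i2 i3)) q w _ Q t k rfl
      (by omega) hq hI ?_)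
    intro K k1 k2 k3 I i1 i2 i3
    obtain ⟨J, j1, j2, j3⟩ := hK K k1 k2 k3 I i1 i2 i3
    have := hyp J j1 j2 (fun y hy hty a ha => h2 y hy hty a (j1 ha))
      (fun _ _ a ha _ => h3 a (j1 ha))
    omega

omit [Fintype X] [Fintype Y] [DecidableEq Y] in
/-- A family of points any two of which share a label is covered from its lowest point in a
common direction. -/
theorem clique_cover (H : Y → Finset X) (S : Finset Y) (M : Finset X) (T : Y → ℝ)
    (ht : ℝ → X → ℝ) (hne : M.Nonempty)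
    (hc : ∀ a ∈ M, ∀ b ∈ M, ∃ y ∈ S, a ∈ H y ∧ b ∈ H y) :
    ∃ c : ℝ, ∃ q ∈ M, (∃ u ∈ S, q ∈ H u ∧ T u ≤ c) ∧ (∃ w ∈ S, q ∈ H w ∧ c ≤ T w) ∧
      ∀ x ∈ M, ht c q ≤ ht c x := by
  classical
  have ex : ∀ a ∈ M, ∃ u ∈ S, a ∈ H u ∧ ∀ y ∈ S, a ∈ H y → T u ≤ T y := by
    intro a ha
    obtain ⟨y, hy, h1, -⟩ := hc a ha a ha
    obtain ⟨u, hu, hm⟩ := exists_min_image (S.filter (fun y => a ∈ H y)) T
      ⟨y, mem_filter.2 ⟨hy, h1⟩⟩
    exact ⟨u, (mem_filter.1 hu).1, (mem_filter.1 hu).2,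
      fun z hz h => hm z (mem_filter.2 ⟨hz, h⟩)⟩
  have : Nonempty Y := by
    obtain ⟨a, ha⟩ := hne
    obtain ⟨y, -⟩ := hc a ha a ha
    exact ⟨y⟩
  choose! lo l1 l2 l3 using ex
  obtain ⟨a0, ha0, hmax⟩ := exists_max_image M (fun a => T (lo a)) hne
  obtain ⟨q, hq, hmin⟩ := exists_min_image M (ht (T (lo a0))) hne
  obtain ⟨w, hw, w1, w2⟩ := hc a0 ha0 q hq
  exact ⟨T (lo a0), q, hq, ⟨lo q, l1 q hq, l2 q hq, hmax q hq⟩, ⟨w, hw, w2, l3 a0 ha0 w hw w1⟩,
    hmin⟩

omit [Fintype X] [Fintype Y] [DecidableEq Y] in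
theorem gc_line (H : Y → Finset X) (S : Finset Y) (Q : Finset X) (T : Y → ℝ)
    (ht : ℝ → X → ℝ) (own : X → Y) (hne : Q.Nonempty)
    (ho : ∀ p ∈ Q, own p ∈ S ∧ p ∈ H (own p))
    (hw : ∀ p ∈ Q, ∀ w ∈ S, p ∈ H w → ∀ c : ℝ,
      (T (own p) ≤ c ∧ c ≤ T w ∨ T w ≤ c ∧ c ≤ T (own p)) →
      ∀ x ∈ Q, ht c p ≤ ht c x → x ∈ H (own p) ∨ x ∈ H w) :
    ∃ q ∈ Q, ∃ w ∈ S, q ∈ H w ∧ ∀ I ⊆ Q, Indep H S I →
      (∀ a ∈ I, a ∉ H (own q) ∧ a ∉ H w) → ∃ J ⊆ Q, Indep H S J ∧ I.card < J.card := by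
  classical
  have cov : ∀ p ∈ Q, ∀ c : ℝ, (∃ u ∈ S, p ∈ H u ∧ T u ≤ c) → (∃ w ∈ S, p ∈ H w ∧ c ≤ T w) →
      ∃ w ∈ S, p ∈ H w ∧ ∀ x ∈ Q, ht c p ≤ ht c x → x ∈ H (own p) ∨ x ∈ H w := by
    rintro p hp c ⟨u, hu, u1, u2⟩ ⟨w, hw', w1, w2⟩
    rcases le_total (T (own p)) c with h | h
    · exact ⟨w, hw', w1, hw p hp w hw' w1 c (Or.inl ⟨h, w2⟩)⟩
    · exact ⟨u, hu, u1, hw p hp u hu u1 c (Or.inr ⟨u2, h⟩)⟩
  have adj : ∀ p ∈ Q, ∀ x ∈ Q, ∀ c : ℝ, (∃ u ∈ S, p ∈ H u ∧ T u ≤ c) →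
      (∃ w ∈ S, p ∈ H w ∧ c ≤ T w) → (∃ u ∈ S, x ∈ H u ∧ T u ≤ c) →
      (∃ w ∈ S, x ∈ H w ∧ c ≤ T w) → ∃ y ∈ S, p ∈ H y ∧ x ∈ H y := by
    intro p hp x hx c a1 a2 b1 b2
    rcases le_total (ht c p) (ht c x) with h | h
    · obtain ⟨w, w1, w2, w3⟩ := cov p hp c a1 a2
      rcases w3 x hx h with h' | h'
      · exact ⟨_, (ho p hp).1, (ho p hp).2, h'⟩
      · exact ⟨w, w1, w2, h'⟩
    · obtain ⟨w, w1, w2, w3⟩ := cov x hx c b1 b2
      rcases w3 p hp h with h' | h'
      · exact ⟨_, (ho x hx).1, h', (ho x hx).2⟩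
      · exact ⟨w, w1, h', w2⟩
  have ex : ∀ a ∈ Q, ∃ u ∈ S, a ∈ H u ∧ ∀ y ∈ S, a ∈ H y → T y ≤ T u := by
    intro a ha
    obtain ⟨u, hu, hm⟩ := exists_max_image (S.filter (fun y => a ∈ H y)) T
      ⟨_, mem_filter.2 (ho a ha)⟩
    exact ⟨u, (mem_filter.1 hu).1, (mem_filter.1 hu).2,
      fun z hz h => hm z (mem_filter.2 ⟨hz, h⟩)⟩
  have : Nonempty Y := ⟨own hne.choose⟩
  choose! hi l1 l2 l3 using ex
  obtain ⟨J, hJ, hmax⟩ := exists_max_image (Q.powerset.filter (Indep H S)) card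
    ⟨∅, by simp [Indep]⟩
  obtain ⟨hJ1, hJ2⟩ := mem_filter.1 hJ
  rw [mem_powerset] at hJ1
  have hmax' : ∀ I ⊆ Q, Indep H S I → I.card ≤ J.card :=
    fun I h1 h2 => hmax I (mem_filter.2 ⟨mem_powerset.2 h1, h2⟩)
  have hpos : 0 < J.card := by
    obtain ⟨v, hv⟩ := hne
    have := hmax' {v} (by simpa using hv) (by
      intro y _ a ha b hb _ _
      rw [mem_singleton.1 ha, mem_singleton.1 hb])
    simpa using this
  set M := Q.filter (fun c => ∃ I ⊆ Q, Indep H S I ∧ I.card = J.card ∧ c ∈ I ∧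
    ∀ a ∈ I, T (hi c) ≤ T (hi a)) with hM
  have hmem : ∀ I ⊆ Q, Indep H S I → I.card = J.card → ∃ c ∈ I, c ∈ M := by
    intro I h1 h2 h3
    obtain ⟨c, hc, hm⟩ := exists_min_image I (fun a => T (hi a)) (card_pos.1 (by omega))
    exact ⟨c, hc, mem_filter.2 ⟨h1 hc, I, h1, h2, h3, hc, hm⟩⟩
  have hMQ : M ⊆ Q := filter_subset _ _
  have hlt : ∀ a ∈ M, ∀ b ∈ M, T (hi a) ≤ T (hi b) → ∃ y ∈ S, a ∈ H y ∧ b ∈ H y := by
    intro a ha b hb hab
    by_contra hn
    obtain ⟨hbQ, I, i1, i2, i3, i4, i5⟩ := mem_filter.1 hb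
    have haQ := hMQ ha
    have lb : ∀ y ∈ S, b ∈ H y → T (hi a) < T y := by
      intro y hy hby
      by_contra hh
      exact hn (adj a haQ b hbQ (T (hi a)) ⟨_, l1 a haQ, l2 a haQ, le_rfl⟩
        ⟨_, l1 a haQ, l2 a haQ, le_rfl⟩ ⟨y, hy, hby, not_lt.1 hh⟩ ⟨_, l1 b hbQ, l2 b hbQ, hab⟩)
    have key : ∀ y ∈ S, ∀ c ∈ I, a ∈ H y → c ∉ H y := by
      intro y hy c hc hay hcy
      have e1 := l3 a haQ y hy hay
      obtain ⟨z, hz, z1, z2⟩ := adj b hbQ c (i1 hc) (T (hi b)) ⟨_, l1 b hbQ, l2 b hbQ, le_rfl⟩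
        ⟨_, l1 b hbQ, l2 b hbQ, le_rfl⟩ ⟨y, hy, hcy, e1.trans hab⟩
        ⟨_, l1 c (i1 hc), l2 c (i1 hc), i5 c hc⟩
      have := i2 z hz b i4 c hc z1 z2
      subst this
      exact absurd (lb y hy hcy) (not_lt.2 e1)
    have haI : a ∉ I := fun hh => key _ (l1 a haQ) a hh (l2 a haQ) (l2 a haQ)
    have := hmax' (insert a I) (insert_subset haQ i1) (by
      intro y hy c hc' d hd hcy hdy
      rcases mem_insert.1 hc' with rfl | hc2 <;> rcases mem_insert.1 hd with rfl | hd2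
      · rfl
      · exact absurd hdy (key y hy d hd2 hcy)
      · exact absurd hcy (key y hy c hc2 hdy)
      · exact i2 y hy c hc2 d hd2 hcy hdy)
    rw [card_insert_of_notMem haI] at this
    omega
  obtain ⟨c, q, hq, hu, hw', hmin⟩ := clique_cover H S M T ht
    (by obtain ⟨c, -, hc⟩ := hmem J hJ1 hJ2 rfl; exact ⟨c, hc⟩) (by
      intro a ha b hb
      rcases le_total (T (hi a)) (T (hi b)) with h | h
      · exact hlt a ha b hb h
      · obtain ⟨y, hy, h1, h2⟩ := hlt b hb a ha h; exact ⟨y, hy, h2, h1⟩)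
  obtain ⟨w, w1, w2, w3⟩ := cov q (hMQ hq) c hu hw'
  refine ⟨q, hMQ hq, w, w1, w2, fun I i1 i2 i3 => ?_⟩
  refine ⟨J, hJ1, hJ2, lt_of_le_of_ne (hmax' I i1 i2) (fun hh => ?_)⟩
  obtain ⟨d, d1, d2⟩ := hmem I i1 i2 hh
  rcases w3 d (hMQ d2) (hmin d d2) with h | h
  · exact (i3 d d1).1 h
  · exact (i3 d d1).2 h

end Pool.Agent.MP_3b4e7c_co.Gen

end MrgPart0

-- ======== part 1: formerly Pool.Agent.MP_3b4e7c_co.Gen.Run
section MrgPart1

/-! Topological Hall for halfplanes with source arcs. -/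

namespace Pool.Agent.MP_3b4e7c_co.Gen

open Finset Up Real

theorem Ang.wedge {X : Type} {n : ℕ} {P : Finset X} {H : Fin n → Finset X} {T : Fin n → ℝ}
    {ht : ℝ → X → ℝ} (h : Ang P H T ht) {a c b : ℝ} (h1 : a ≤ c) (h2 : c ≤ b) (h3 : b - a < π)
    {p x : X} (hx : ht c p ≤ ht c x) : ht a p ≤ ht a x ∨ ht b p ≤ ht b x := by
  obtain ⟨α, β, a0, b0, ab, e⟩ := h.lin a c b h1 h2 h3
  by_contra hn
  push Not at hn
  rw [e p, e x] at hx
  rcases a0.eq_or_lt with rfl | a1
  · nlinarith [mul_pos (by linarith : 0 < β) (sub_pos.2 hn.2)]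
  · nlinarith [mul_pos a1 (sub_pos.2 hn.1), mul_nonneg b0 (sub_pos.2 hn.2).le]

theorem Ang.cover {X : Type} {n : ℕ} {P : Finset X} {H : Fin n → Finset X} {T : Fin n → ℝ}
    {ht : ℝ → X → ℝ} (h : Ang P H T ht) {A B : Fin n} {c : ℝ} (h1 : T A ≤ c) (h2 : c ≤ T B)
    (h3 : T B - T A < π) {p x : X} (pA : p ∈ H A) (pB : p ∈ H B) (hP : x ∈ P)
    (hx : ht c p ≤ ht c x) : x ∈ H A ∨ x ∈ H B :=
  (h.wedge h1 h2 h3 hx).imp (h.up A p pA x hP) (h.up B p pB x hP)

theorem run : RunS := by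
  intro X _ _ n P H G T ht Y0 Q t Src o hA hQ ho hG hown hall
  classical
  let H' : Fin n × Bool → Finset X := fun y => (G y.1).filter (fun p => Src y.1 p ↔ y.2 = true)
  let t' : Fin n × Bool → X := fun y => if y.2 = true ∨ (∀ p, Src y.1 p) then o else t y.1
  have mH0 : ∀ y p, p ∈ H' (y, false) ↔ p ∈ G y ∧ ¬ Src y p := by intro y p; simp [H']
  have mH1 : ∀ y p, p ∈ H' (y, true) ↔ p ∈ G y ∧ Src y p := by intro y p; simp [H']
  have mHG : ∀ y p, p ∈ H' y → p ∈ G y.1 := fun y p h => (mem_filter.1 h).1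
  have t1 : ∀ y, t' (y, true) = o := by intro y; simp [t']
  have t0 : ∀ y, t' y ≠ o → y.2 = false ∧ (¬ ∀ p, Src y.1 p) ∧ t' y = t y.1 := by
    intro y hy
    by_cases hh : y.2 = true ∨ (∀ p, Src y.1 p)
    · exact absurd (if_pos hh) hy
    · exact ⟨by simpa using (not_or.1 hh).1, (not_or.1 hh).2, if_neg hh⟩
  have acyc : ∀ S ⊆ Y0, Acyc S.card (Br (arcs H' (S ×ˢ univ) Q) t') := by
    intro S hS
    refine e2_gain H' (S ×ˢ univ) (fun Q' τ => Q' ⊆ Q ∧ (∀ y, τ (y, true) = o) ∧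
      ∀ y ∈ S ×ˢ (univ : Finset Bool), τ y ∈ Q' →
        ∃ r ∈ S, τ (r, false) = τ y ∧ t r = τ y ∧ ¬ ∀ p, Src r p) ?_ ?_ ?_ _ Q t' _
      (Nat.lt_succ_self _) ⟨Subset.rfl, t1, ?_⟩ ?_
    · rintro Q' τ v ⟨h1, h2, h3⟩ _
      exact ⟨(erase_subset _ _).trans h1, h2, fun y hy hty => h3 y hy (mem_of_mem_erase hty)⟩
    · rintro Q' τ v y0 ⟨h1, h2, h3⟩ hv hy0 _ _
      have hov : o ≠ v := fun hh => ho (hh ▸ h1 hv)
      refine ⟨(erase_subset _ _).trans h1, fun y => by simp [ctr, h2, hov], fun y hy hty => ?_⟩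
      have key : ∀ z ∈ S ×ˢ (univ : Finset Bool), τ z ∈ Q'.erase v →
          ∃ r ∈ S, ctr τ (v, y0) (r, false) = τ z ∧ t r = τ z ∧ ¬ ∀ p, Src r p := by
        intro z hz htz
        obtain ⟨r, hr, r1, r2⟩ := h3 z hz (mem_of_mem_erase htz)
        refine ⟨r, hr, ?_, r2⟩
        have : τ (r, false) ≠ v := r1 ▸ (mem_erase.1 htz).1
        rw [← r1]
        simp only [ctr, if_neg this]
      by_cases hh : τ y = v
      · have e : ctr τ (v, y0) y = τ y0 := by simp only [ctr, if_pos hh]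
        rw [e] at hty ⊢
        exact key y0 hy0 hty
      · have e : ctr τ (v, y0) y = τ y := by simp only [ctr, if_neg hh]
        rw [e] at hty ⊢
        exact key y hy hty
    · rintro Q' τ ⟨h1, h2, h3⟩ hne hs _ htl
      have nosrc : ∀ y ∈ S, ∀ p ∈ Q', p ∈ G y → ¬ Src y p := by
        intro y hy p hp hg hsrc
        exact hs (y, true) (by simp [hy]) (by rw [h2]; exact fun hh => ho (h1 hh)) p hp
          ((mH1 y p).2 ⟨hg, hsrc⟩)
      have ex : ∀ p ∈ Q', ∃ r ∈ S, τ (r, false) = p ∧ t r = p ∧ ¬ ∀ p, Src r p := by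
        intro p hp
        obtain ⟨y, hy, e⟩ := htl p hp
        have := h3 y hy (e ▸ hp)
        rwa [e] at this
      have : Nonempty (Fin n) := by
        obtain ⟨p, hp⟩ := hne
        obtain ⟨r, -⟩ := ex p hp
        exact ⟨r⟩
      choose! own o1 o2 o3 o4 using ex
      have real : ∀ y ∈ S, ∀ p ∈ Q', p ∈ G y → ∀ x ∈ Q', (x ∈ G y ↔ x ∈ H y) := by
        intro y hy p hp hg x hx
        rcases hG y (hS hy) with h | h
        · exact absurd (h p) (nosrc y hy p hp hg)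
        · exact h x (h1 hx)
      have ow : ∀ p ∈ Q', p ∈ H (own p) ∧ p ∈ G (own p) ∧
          ∀ y ∈ S, p ∈ G y → |T y - T (own p)| < π := by
        intro p hp
        rcases hown (own p) (hS (o1 p hp)) (by rw [o3 p hp]; exact h1 hp) with h | h
        · exact absurd h (o4 p hp)
        · rw [o3 p hp] at h
          refine ⟨h.1, ?_, fun y hy hg => h.2.2 y (hS hy) hg (nosrc y hy p hp hg)⟩
          exact ((hG _ (hS (o1 p hp))).resolve_left (o4 p hp) p (h1 hp)).2 h.1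
      obtain ⟨q, hq, w, hw, hqw, hI⟩ := gc_line G S Q' T ht own hne
        (fun p hp => ⟨o1 p hp, (ow p hp).2.1⟩) (by
          intro p hp w hw hpw c hc x hx hh
          have hd := abs_lt.1 ((ow p hp).2.2 w hw hpw)
          have hpH := (real w hw p hp hpw p hp).1 hpw
          rw [real w hw p hp hpw x hx, real _ (o1 p hp) p hp (ow p hp).2.1 x hx]
          rcases hc with hc | hc
          · exact hA.cover hc.1 hc.2 hd.2 (ow p hp).1 hpH (hQ (h1 hx)) hh
          · exact (hA.cover hc.1 hc.2 (by linarith [hd.1]) hpH (ow p hp).1 (hQ (h1 hx)) hh).symm)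
      have lift : ∀ y ∈ S, ∀ p ∈ Q', p ∈ G y → p ∈ H' (y, false) :=
        fun y hy p hp hg => (mH0 y p).2 ⟨hg, nosrc y hy p hp hg⟩
      refine ⟨q, hq, (w, false), by simp [hw], lift w hw q hq hqw,
        fun K _ hqK hreach I i1 i2 i3 => ?_⟩
      have hend : τ (w, false) ∈ K := by
        rcases hreach.cases_tail with h | ⟨c, -, h⟩
        · rw [h]; exact hqK
        · exact h.1
      have iQ : I ⊆ Q' := i1.trans sdiff_subset
      obtain ⟨J, j1, j2, j3⟩ := hI I iQ (fun y hy a ha b hb ay hby =>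
        i2 (y, false) (by simp [hy]) a ha b hb (lift y hy a (iQ ha) ay) (lift y hy b (iQ hb) hby))
        (fun a ha => ⟨fun hh => i3 (own q, false) (by simp [o1 q hq]) (by rw [o2 q hq]; exact hqK)
          a ha (lift _ (o1 q hq) a (iQ ha) hh),
          fun hh => i3 (w, false) (by simp [hw]) hend a ha (lift w hw a (iQ ha) hh)⟩)
      exact ⟨J, j1, fun y hy a ha b hb ay hby =>
        j2 y.1 (mem_product.1 hy).1 a ha b hb (mHG y a ay) (mHG y b hby), j3⟩
    · intro y hy hty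
      obtain ⟨a1, a2, a3⟩ := t0 y (fun hh => ho (hh ▸ hty))
      refine ⟨y.1, (mem_product.1 hy).1, ?_, a3.symm, a2⟩
      rw [← a1]
    · intro I i1 i2 i3 i4
      have nosrc : ∀ y ∈ S, ∀ p ∈ I, p ∈ G y → ¬ Src y p := by
        intro y hy p hp hg hsrc
        exact i3 (y, true) (by simp [hy]) (by rw [t1]; exact ho) p hp ((mH1 y p).2 ⟨hg, hsrc⟩)
      refine hall S hS I i1 (fun y hy a ha b hb ay hby => i2 (y, false) (by simp [hy]) a ha b hb
        ((mH0 y a).2 ⟨ay, nosrc y hy a ha ay⟩) ((mH0 y b).2 ⟨hby, nosrc y hy b hb hby⟩))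
        (fun y hy p hp hg => ⟨nosrc y hy p hp hg, ?_⟩)
      obtain ⟨r, hr, e⟩ := i4 (y, false) (by simp [hy]) p hp ((mH0 y p).2 ⟨hg, nosrc y hy p hp hg⟩)
      obtain ⟨a1, a2, a3⟩ := t0 r (fun hh => ho (hh ▸ e ▸ i1 hp))
      have hr' := (mem_product.1 hr).1
      refine ⟨r.1, hr', a3 ▸ e, ?_⟩
      rcases hown r.1 (hS hr') (by rw [← a3, e]; exact i1 hp) with h | h
      · exact absurd h a2
      · rw [← e, a3]; exact h.2.1
  obtain ⟨F, ⟨f1, f2, rk, f3⟩, f4, f5⟩ := top_hall (fun a : X × (Fin n × Bool) => a.2.1)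
    (Br (arcs H' (Y0 ×ˢ univ) Q) t') (Br_empty _ _) Y0 (fun S hS => by
      have := res_Br H' (Y0 ×ˢ univ) (S ×ˢ univ) (product_subset_product_left hS) Q t'
      have e : res (fun a : X × (Fin n × Bool) => a.2.1) (Br (arcs H' (Y0 ×ˢ univ) Q) t') S =
          res Prod.snd (Br (arcs H' (Y0 ×ˢ univ) Q) t') (S ×ˢ univ) := by
        ext F; simp [res]
      rw [e, this]
      exact acyc S hS)
  have ex : ∀ y, ∃ a : X × (Fin n × Bool), y ∈ Y0 → a ∈ F ∧ a.2.1 = y := by
    intro y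
    by_cases hy : y ∈ Y0
    · obtain ⟨a, ha, e⟩ := mem_image.1 (f5 ▸ hy)
      exact ⟨a, fun _ => ⟨ha, e⟩⟩
    · exact ⟨(o, y, true), fun h => absurd h hy⟩
  choose a ha using ex
  refine ⟨fun y => (a y).1, rk, fun y hy z hz h => ?_, fun y hy => ?_⟩
  · have := f2 _ (ha y hy).1 _ (ha z hz).1 h
    rw [← (ha y hy).2, this, (ha z hz).2]
  · obtain ⟨h1, h2⟩ := ha y hy
    obtain ⟨m1, -, m3⟩ := mem_arcs.1 (f1 h1)
    have m4 := mHG _ _ m3
    rw [h2] at m4
    refine ⟨m1, m4, ?_⟩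
    by_cases hs : Src y (a y).1
    · exact Or.inl hs
    · right
      have e := f3 _ h1
      have hb : (a y).2.2 = false := by
        have := (mem_filter.1 m3).2
        rw [h2] at this
        simpa [hs] using this
      have : t' (a y).2 = t y := by
        simp only [t', hb, h2]
        rw [if_neg]
        simp only [Bool.false_eq_true, false_or]
        exact fun hh => hs (hh _)
      rwa [this] at e

end Pool.Agent.MP_3b4e7c_co.Gen

end MrgPart1

-- ======== part 2: formerly Pool.Agent.MP_3b4e7c_co.Gen.YTail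
section MrgPart2

/-! Row YT: the tails of the tree with three leaves. -/

namespace Pool.Agent.MP_3b4e7c_co.Gen

open Finset Up

namespace YT

variable {X : Type} [DecidableEq X] {n : ℕ} {P : Finset X} {H : Fin n → Finset X}

/-- labels of `Z` inside `W` -/
def ii (H : Fin n → Finset X) (Z : Finset (Fin n)) (W : Finset X) : Finset (Fin n) :=
  Z.filter (fun y => H y ⊆ W)

theorem mem_ii {Z : Finset (Fin n)} {W : Finset X} {y : Fin n} :
    y ∈ ii H Z W ↔ y ∈ Z ∧ H y ⊆ W := mem_filter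

theorem ii_un (Z : Finset (Fin n)) (W W' : Finset X) : ii H Z W ∪ ii H Z W' ⊆ ii H Z (W ∪ W') := by
  intro y hy
  rcases mem_union.1 hy with k | k <;> rw [mem_ii] at k ⊢
  exacts [⟨k.1, k.2.trans subset_union_left⟩, ⟨k.1, k.2.trans subset_union_right⟩]

theorem ii_in (Z : Finset (Fin n)) (W W' : Finset X) :
    (ii H Z W ∩ ii H Z W').card ≤ (ii H Z (W ∩ W')).card :=
  card_le_card fun _ hy => mem_ii.2 ⟨(mem_ii.1 (mem_inter.1 hy).1).1,
    subset_inter (mem_ii.1 (mem_inter.1 hy).1).2 (mem_ii.1 (mem_inter.1 hy).2).2⟩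

theorem small (h : Base P H) (Z : Finset (Fin n)) {W : Finset X} (hW : W.card ≤ 1) :
    (ii H Z W).card = 0 := by
  refine card_eq_zero.2 (eq_empty_of_forall_notMem fun y hy => ?_)
  have := h.dh.two h.card h.two y
  have := card_le_card (inter_subset_right.trans (mem_ii.1 hy).2 : P ∩ H y ⊆ W)
  omega

/-- Hall with forbidden points -/
theorem hall (hs : ∀ y, H y ⊆ P) (Z : Finset (Fin n)) (F : Finset X) (o : X)
    (h : ∀ W ⊆ P, (ii H Z W).card + (W ∩ F).card ≤ W.card) :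
    ∃ t : Fin n → X, (∀ y, y ∉ Z → t y = o) ∧ (∀ y ∈ Z, ∀ z ∈ Z, t y = t z → y = z) ∧
      ∀ y ∈ Z, t y ∈ H y ∧ t y ∉ F := by
  obtain ⟨f, hf, hf2⟩ := (Finset.all_card_le_biUnion_card_iff_exists_injective
    (fun y : Z => H y \ F)).1 (by
      intro s
      have e : (s.biUnion fun y : Z => H y \ F) = s.biUnion (fun y : Z => H y) \ F := by
        ext x
        simp only [mem_biUnion, mem_sdiff]
        exact ⟨fun ⟨a, b, c, d⟩ => ⟨⟨a, b, c⟩, d⟩, fun ⟨⟨a, b, c⟩, d⟩ => ⟨a, b, c, d⟩⟩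
      have c0 : s.card ≤ (ii H Z (s.biUnion fun y : Z => H y)).card := by
        rw [← card_map (Function.Embedding.subtype _)]
        refine card_le_card (fun y hy => ?_)
        obtain ⟨z, hz, rfl⟩ := mem_map.1 hy
        exact mem_filter.2 ⟨z.2, subset_biUnion_of_mem (fun y : Z => H y) hz⟩
      have c1 := h (s.biUnion fun y : Z => H y) (biUnion_subset.2 fun y _ => hs y)
      have c2 := card_sdiff_add_card_inter (s.biUnion fun y : Z => H y) F
      rw [e]
      omega)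
  refine ⟨fun y => if h : y ∈ Z then f ⟨y, h⟩ else o, fun y hy => dif_neg hy, ?_, ?_⟩
  · intro a ha b hb hab
    simp only [dif_pos ha, dif_pos hb] at hab
    exact congrArg Subtype.val (hf hab)
  · intro y hy
    simp only [dif_pos hy]
    exact mem_sdiff.1 (hf2 ⟨y, hy⟩)

/-- a label through `a` that lies in every proper tight set with `a` and `e` -/
theorem first (h : Base P H) {g : Fin n} (hg : Crossing P H g) {a e : X} (ha : a ∈ P)
    (he : e ∈ P) (hae : a ≠ e) : ∃ A, A ≠ g ∧ a ∈ H A ∧ ∀ W ⊆ P, W ≠ P → a ∈ W → e ∈ W →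
      W.card ≤ (ii H univ W).card + 1 → H A ⊆ W := by
  classical
  set T := P.powerset.filter fun W => W ≠ P ∧ a ∈ W ∧ e ∈ W ∧ W.card ≤ (ii H univ W).card + 1
    with hT
  have cr : ∀ W ⊆ P, W ≠ P → W.card ≤ (ii H univ W).card + 1 → ¬ H g ⊆ W := by
    intro W h1 h2 h3 h4
    have : (ii H univ W).card + 2 ≤ W.card := hg W h1 h2 h4
    omega
  rcases T.eq_empty_or_nonempty with k | k
  · obtain ⟨u, u', n, h1, h2⟩ := h.dh.pair ha he hae
    have : ∃ A, A ≠ g ∧ a ∈ H A := by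
      by_cases c : u = g
      exacts [⟨u', fun d => n (c.trans d.symm), h2.1⟩, ⟨u, c, h1.1⟩]
    obtain ⟨A, h3, h4⟩ := this
    refine ⟨A, h3, h4, fun W w1 w2 w3 w4 w5 => absurd ?_ (notMem_empty W)⟩
    rw [← k]
    exact mem_filter.2 ⟨mem_powerset.2 w1, w2, w3, w4, w5⟩
  · obtain ⟨W0, h0, hmin⟩ := exists_min_image T card k
    obtain ⟨v1, v2, v3, v4, v5⟩ := mem_filter.1 h0
    rw [mem_powerset] at v1
    obtain ⟨A, a1, a2⟩ := h.dh.tight h.card W0 v1 v3 v4 hae v5
    refine ⟨A, fun c => cr W0 v1 v2 v5 (c ▸ a1), a2, fun W w1 w2 w3 w4 w5 => a1.trans ?_⟩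
    have c3 := card_union_add_card_inter (ii H univ W0) (ii H univ W)
    have c4 := card_union_add_card_inter W0 W
    have c2 := ii_in (H := H) univ W0 W
    have c1 : (ii H univ W0 ∪ ii H univ W).card + 1 ≤ (W0 ∪ W).card := by
      by_cases c : W0 ∪ W = P
      · rw [c, h.card]
        refine (card_lt_card ⟨subset_univ _, fun d => ?_⟩).trans_eq (by simp)
        rcases mem_union.1 (d (mem_univ g)) with d | d
        exacts [cr W0 v1 v2 v5 (mem_ii.1 d).2, cr W w1 w2 w5 (mem_ii.1 d).2]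
      · have c5 : (ii H univ (W0 ∪ W)).card + 1 ≤ _ :=
          h.dh.inside h.card _ (union_subset v1 w1) ⟨a, mem_union_left _ v3⟩ c
        have := card_le_card (ii_un (H := H) univ W0 W)
        omega
    have c6 := hmin (W0 ∩ W) (mem_filter.2 ⟨mem_powerset.2 (inter_subset_left.trans v1),
      fun c => v2 (v1.antisymm (c ▸ inter_subset_left)), mem_inter.2 ⟨v3, w3⟩,
      mem_inter.2 ⟨v4, w4⟩, by omega⟩)
    exact eq_of_subset_of_card_le inter_subset_left c6 ▸ inter_subset_right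

end YT

open YT in
theorem ytail : YTailS := by
  intro X _ n P H g a e N h hg he ha hae hB
  have heP := h.sub g he
  obtain ⟨A, hAg, hA, hAW⟩ := first h hg ha heP hae
  obtain ⟨B, hBA, hBg, haB, hN⟩ := hB A hAg hA
  set Z : Finset (Fin n) := ((univ.erase g).erase A).erase B with hZ
  have mZ : ∀ y, y ∈ Z ↔ y ≠ B ∧ y ≠ A ∧ y ≠ g := fun y => by simp [hZ]
  have cZ : Z.card + 3 = n := by
    have c1 := card_erase_add_one (mem_univ g)
    have c2 := card_erase_add_one (mem_erase.2 ⟨hAg, mem_univ A⟩)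
    have c3 := card_erase_add_one (mem_erase.2 ⟨hBA, mem_erase.2 ⟨hBg, mem_univ B⟩⟩)
    rw [card_univ, Fintype.card_fin] at c1
    rw [hZ]
    omega
  have lt : ∀ W y, y ∉ Z → H y ⊆ W → (ii H Z W).card < (ii H univ W).card := fun W y h1 h2 =>
    card_lt_card ⟨filter_subset_filter _ (subset_univ _),
      fun c => h1 (mem_ii.1 (c (mem_ii.2 ⟨mem_univ y, h2⟩))).1⟩
  have m2 : ∀ W : Finset X, (W ∩ {a, e}).card ≤ 2 := fun W =>
    (card_le_card inter_subset_right).trans card_le_two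
  have cP : (ii H Z P).card + 3 ≤ P.card := by
    have := card_le_card (filter_subset (fun y => H y ⊆ P) Z)
    have := h.card
    unfold ii
    omega
  have key : ∀ W ⊆ P, (ii H Z W).card + (W ∩ {a, e}).card ≤ W.card := by
    intro W hW
    have := m2 W
    by_cases c : W = P
    · rw [c] at this ⊢; omega
    rcases W.eq_empty_or_nonempty with rfl | k
    · rw [small h Z (by simp)]; simp
    have c1 : (ii H univ W).card + 1 ≤ _ := h.dh.inside h.card W hW k c
    have c2 := card_le_card (filter_subset_filter (fun y => H y ⊆ W) (subset_univ Z))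
    by_contra d
    have d1 : W ∩ {a, e} = {a, e} := eq_of_subset_of_card_le inter_subset_right (by
      rw [card_pair hae]; unfold ii at *; omega)
    have d2 : ({a, e} : Finset X) ⊆ W := d1 ▸ inter_subset_left
    have := lt W A (by simp [mZ]) (hAW W hW c (d2 (by simp)) (d2 (by simp)) (by
      unfold ii at *; omega))
    omega
  classical
  set T := P.powerset.filter fun W => W.card ≤ (ii H Z W).card + (W ∩ {a, e}).card with hT
  obtain ⟨W0, h0, hmax⟩ := exists_max_image T card ⟨∅, by simp [hT]⟩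
  obtain ⟨v1, v2⟩ := mem_filter.1 h0
  rw [mem_powerset] at v1
  have top : ∀ W ⊆ P, W.card ≤ (ii H Z W).card + (W ∩ {a, e}).card → W ⊆ W0 := by
    intro W w1 w2
    have c1 := card_le_card (ii_un (H := H) Z W0 W)
    have c2 := ii_in (H := H) Z W0 W
    have c3 := card_union_add_card_inter (ii H Z W0) (ii H Z W)
    have c4 := card_union_add_card_inter W0 W
    have c5 := card_union_add_card_inter (W0 ∩ {a, e}) (W ∩ {a, e})
    have c6 := key (W0 ∩ W) (inter_subset_left.trans v1)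
    rw [← union_inter_distrib_right, ← inter_inter_distrib_right] at c5
    have c7 := hmax (W0 ∪ W) (mem_filter.2 ⟨mem_powerset.2 (union_subset v1 w1), by omega⟩)
    exact eq_of_subset_of_card_le subset_union_left c7 ▸ subset_union_right
  have one : ∀ x ∈ P, x ∈ ({a, e} : Finset X) → x ∈ W0 := fun x h1 h2 =>
    top {x} (singleton_subset_iff.2 h1) (by
      rw [inter_eq_left.2 (singleton_subset_iff.2 h2)]; omega) (mem_singleton_self x)
  have out : ¬ H g ⊆ W0 := by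
    intro c
    have := m2 W0
    have c1 : (ii H univ W0).card + 2 ≤ _ := hg W0 v1 (by rintro rfl; omega) c
    have := lt W0 g (by simp [mZ]) c
    omega
  obtain ⟨b, hb, hb0⟩ := not_subset.1 out
  have hbF : b ∉ ({a, e} : Finset X) := fun c => hb0 (one b (h.sub g hb) c)
  obtain ⟨t, t0, t1, t2⟩ := hall h.sub Z (insert b {a, e}) a fun W hW => by
    have := key W hW
    by_cases c : b ∈ W
    · have c1 : ¬ W.card ≤ _ := fun d => hb0 (top W hW d c)
      rw [inter_insert_of_mem c, card_insert_of_notMem fun d => hbF (mem_inter.1 d).2]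
      omega
    · rwa [inter_insert_of_notMem c]
  have tA : t A = a := t0 A (by simp [mZ])
  have tB : t B = a := t0 B (by simp [mZ])
  simp only [mem_insert, mem_singleton, not_or] at t2 hbF
  refine ⟨A, B, b, t, ⟨hAg, hBg, hBA.symm, tA, tB, hb, hbF.2, fun y hy => ?_,
    fun y z h1 h2 h3 h4 c => ?_, fun y z h1 h2 h3 h4 c => ?_⟩, hN⟩
  · by_cases c : y = A
    · rw [c, tA]; exact ⟨hA, Ne.symm hbF.1, hae⟩
    by_cases d : y = B
    · rw [d, tB]; exact ⟨haB, Ne.symm hbF.1, hae⟩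
    have := t2 y ((mZ y).2 ⟨d, c, hy⟩)
    exact ⟨this.1, this.2.1, this.2.2.2⟩
  · by_cases a1 : y = A <;> by_cases a2 : z = A
    · rw [a1, a2]
    · exact absurd (c.symm.trans (a1 ▸ tA)) (t2 z ((mZ z).2 ⟨h4, a2, h2⟩)).2.2.1
    · exact absurd (c.trans (a2 ▸ tA)) (t2 y ((mZ y).2 ⟨h3, a1, h1⟩)).2.2.1
    · exact t1 y ((mZ y).2 ⟨h3, a1, h1⟩) z ((mZ z).2 ⟨h4, a2, h2⟩) c
  · by_cases a1 : y = B <;> by_cases a2 : z = B
    · rw [a1, a2]
    · exact absurd (c.symm.trans (a1 ▸ tB)) (t2 z ((mZ z).2 ⟨a2, h4, h2⟩)).2.2.1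
    · exact absurd (c.trans (a2 ▸ tB)) (t2 y ((mZ y).2 ⟨a1, h3, h1⟩)).2.2.1
    · exact t1 y ((mZ y).2 ⟨a1, h3, h1⟩) z ((mZ z).2 ⟨a2, h4, h2⟩) c

open YT in
theorem star0 : Star0S := by
  intro X _ n P H g e h he hg
  obtain ⟨t, -, t1, t2⟩ := hall h.sub (univ.erase g) {e} e fun W hW => by
    have c0 : (W ∩ {e}).card ≤ 1 := (card_le_card inter_subset_right).trans_eq (card_singleton e)
    by_cases c : W = P
    · have c1 := card_le_card (filter_subset (fun y => H y ⊆ W) (univ.erase g))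
      have c2 := card_erase_add_one (mem_univ g)
      have c3 := h.card
      rw [card_univ, Fintype.card_fin] at c2
      rw [← c] at c3
      unfold ii
      omega
    rcases W.eq_empty_or_nonempty with rfl | k
    · rw [small h _ (by simp)]; simp
    have c1 := h.dh.inside h.card W hW k c
    have c2 := card_le_card (filter_subset_filter (fun y => H y ⊆ W) (subset_univ (univ.erase g)))
    unfold ii
    omega
  exact ⟨t, fun y z h1 h2 => t1 y (by simp [h1]) z (by simp [h2]),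
    fun y hy => (t2 y (by simp [hy])).imp_right fun c d => c (mem_singleton.2 d),
    fun p h1 h2 => absurd (hg ▸ h1) h2⟩

end Pool.Agent.MP_3b4e7c_co.Gen

end MrgPart2

-- ======== part 3: formerly Pool.Agent.MP_3b4e7c_co.Gen.StarA
section MrgPart3

/-! Matchings for the star condition: the counting part. -/

namespace Pool.Agent.MP_3b4e7c_co.Gen.St

open Finset Up

variable {X : Type} [DecidableEq X] {n : ℕ} {P : Finset X} {H : Fin n → Finset X}

/-- distinct tails in `Q` for the labels of `S` -/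
def Mt (H : Fin n → Finset X) (S : Finset (Fin n)) (Q : Finset X) (t : Fin n → X) : Prop :=
  (∀ y ∈ S, ∀ z ∈ S, t y = t z → y = z) ∧ ∀ y ∈ S, t y ∈ H y ∧ t y ∈ Q

theorem mem_ins {S : Finset (Fin n)} {Q Z : Finset X} {y : Fin n} :
    y ∈ ins H S Q Z ↔ y ∈ S ∧ H y ∩ Q ⊆ Z := mem_filter

theorem hall (o : X) (S : Finset (Fin n)) (Q E : Finset X) (hE : E ⊆ Q)
    (h : ∀ Z, E ⊆ Z → Z ⊆ Q → (ins H S Q Z).card + E.card ≤ Z.card) :
    ∃ t, Mt H S (Q \ E) t := by
  obtain ⟨f, hf, hf2⟩ := (Finset.all_card_le_biUnion_card_iff_exists_injective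
    (fun y : S => (H y ∩ Q) \ E)).1 (by
      intro s
      have h1 := h (s.biUnion (fun y : S => (H y ∩ Q) \ E) ∪ E) subset_union_right (by
        refine union_subset (biUnion_subset.2 (fun y _ => ?_)) hE
        exact sdiff_subset.trans inter_subset_right)
      have h2 : s.map (Function.Embedding.subtype _) ⊆
          ins H S Q (s.biUnion (fun y : S => (H y ∩ Q) \ E) ∪ E) := by
        intro y hy
        obtain ⟨z, hz, rfl⟩ := mem_map.1 hy
        refine mem_ins.2 ⟨z.2, fun p hp => ?_⟩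
        by_cases hpE : p ∈ E
        · exact mem_union_right _ hpE
        · exact mem_union_left _ (mem_biUnion.2 ⟨z, hz, mem_sdiff.2 ⟨hp, hpE⟩⟩)
      have h3 := card_le_card h2
      rw [card_map] at h3
      have h4 := card_union_le (s.biUnion (fun y : S => (H y ∩ Q) \ E)) E
      omega)
  refine ⟨fun y => if hy : y ∈ S then f ⟨y, hy⟩ else o, fun y hy z hz e => ?_, fun y hy => ?_⟩
  · simp only [hy, hz, dif_pos] at e
    exact congrArg Subtype.val (hf e)
  · simp only [hy, dif_pos]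
    have := hf2 ⟨y, hy⟩
    simp only [mem_sdiff, mem_inter] at this ⊢
    tauto

omit [DecidableEq X] in
theorem Mt.mono {S : Finset (Fin n)} {Q Q' : Finset X} {t : Fin n → X} (h : Mt H S Q t)
    (hQ : Q ⊆ Q') : Mt H S Q' t :=
  ⟨h.1, fun y hy => ⟨(h.2 y hy).1, hQ (h.2 y hy).2⟩⟩

theorem Mt.cons {S : Finset (Fin n)} {Q : Finset X} {t : Fin n → X} (h : Mt H S Q t)
    {C : Fin n} {p : X} (hp : p ∉ Q) (hC : p ∈ H C) :
    ∃ t', Mt H (insert C S) (insert p Q) t' := by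
  refine ⟨fun y => if y = C then p else t y, fun y hy z hz e => ?_, fun y hy => ?_⟩
  · by_cases a1 : y = C <;> by_cases a2 : z = C
    · rw [a1, a2]
    · simp only [a1, a2, if_true, if_false] at e
      exact absurd (e ▸ (h.2 z ((mem_insert.1 hz).resolve_left a2)).2) hp
    · simp only [a1, a2, if_true, if_false] at e
      exact absurd (e ▸ (h.2 y ((mem_insert.1 hy).resolve_left a1)).2) hp
    · simp only [a1, a2, if_false] at e
      exact h.1 y ((mem_insert.1 hy).resolve_left a1) z ((mem_insert.1 hz).resolve_left a2) e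
  · by_cases a1 : y = C
    · simp [a1, hC]
    · have := h.2 y ((mem_insert.1 hy).resolve_left a1)
      simp [a1, this]

/-- labels with trace in `Z` keep the first tails, the others get the second ones -/
theorem Mt.split {S S' : Finset (Fin n)} {W Z : Finset X} {e : X} {t t' : Fin n → X}
    (h : Mt H S (W \ {e}) t) (h' : Mt H S' (W \ Z) t') (he : e ∈ Z) :
    ∃ u, Mt H (ins H S W Z ∪ S') (W \ {e}) u ∧ ∀ y ∈ S', ¬ H y ∩ W ⊆ Z → u y ∉ Z := by
  have k1 : ∀ y ∈ ins H S W Z, t y ∈ Z := fun y hy =>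
    (mem_ins.1 hy).2 (mem_inter.2 ⟨(h.2 y (mem_ins.1 hy).1).1,
      (mem_sdiff.1 (h.2 y (mem_ins.1 hy).1).2).1⟩)
  have k2 : ∀ y ∈ S', t' y ∉ Z := fun y hy => (mem_sdiff.1 (h'.2 y hy).2).2
  refine ⟨fun y => if y ∈ ins H S W Z then t y else t' y,
    ⟨fun y hy z hz e => ?_, fun y hy => ?_⟩, fun y hy hn => ?_⟩
  · by_cases a1 : y ∈ ins H S W Z <;> by_cases a2 : z ∈ ins H S W Z
    · simp only [a1, a2, if_true] at e
      exact h.1 y (mem_ins.1 a1).1 z (mem_ins.1 a2).1 e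
    · simp only [a1, a2, if_true, if_false] at e
      exact absurd (e ▸ k1 y a1) (k2 z ((mem_union.1 hz).resolve_left a2))
    · simp only [a1, a2, if_true, if_false] at e
      exact absurd (e ▸ k1 z a2) (k2 y ((mem_union.1 hy).resolve_left a1))
    · simp only [a1, a2, if_false] at e
      exact h'.1 y ((mem_union.1 hy).resolve_left a1) z ((mem_union.1 hz).resolve_left a2) e
  · by_cases a1 : y ∈ ins H S W Z
    · simp only [a1, if_true]
      exact h.2 y (mem_ins.1 a1).1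
    · simp only [a1, if_false]
      have := h'.2 y ((mem_union.1 hy).resolve_left a1)
      refine ⟨this.1, mem_sdiff.2 ⟨(mem_sdiff.1 this.2).1, fun hh => ?_⟩⟩
      exact (mem_sdiff.1 this.2).2 (mem_singleton.1 hh ▸ he)
  · have a1 : y ∉ ins H S W Z := fun hh => hn (mem_ins.1 hh).2
    simp only [a1, if_false]
    exact k2 y hy

/-- tails in `I` and tails outside `I` together -/
theorem fin_star {g : Fin n} {e : X} {I : Finset X} (hI : I ⊆ H g) {S S' : Finset (Fin n)}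
    {t t' : Fin n → X} (h : Mt H S (I \ {e}) t) (h' : Mt H S' ((P \ I) \ {e}) t')
    (hc : ∀ y, y ≠ g → y ∈ S ∨ y ∈ S')
    (hr : ∀ p ∈ P, p ∉ H g → ∃ y, y ≠ g ∧ p ∈ H y ∧ (y ∈ S ∨ t' y ∈ H g)) : Star P H g e := by
  have k1 : ∀ y ∈ S, t y ∈ I := fun y hy => (mem_sdiff.1 (h.2 y hy).2).1
  have k2 : ∀ y ∈ S', t' y ∉ I := fun y hy => (mem_sdiff.1 (mem_sdiff.1 (h'.2 y hy).2).1).2
  refine ⟨fun y => if y ∈ S then t y else t' y, fun y z hy hz e => ?_, fun y hy => ?_,
    fun p hp hg => ?_⟩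
  · by_cases a1 : y ∈ S <;> by_cases a2 : z ∈ S
    · simp only [a1, a2, if_true] at e
      exact h.1 y a1 z a2 e
    · simp only [a1, a2, if_true, if_false] at e
      exact absurd (e ▸ k1 y a1) (k2 z ((hc z hz).resolve_left a2))
    · simp only [a1, a2, if_true, if_false] at e
      exact absurd (e ▸ k1 z a2) (k2 y ((hc y hy).resolve_left a1))
    · simp only [a1, a2, if_false] at e
      exact h'.1 y ((hc y hy).resolve_left a1) z ((hc z hz).resolve_left a2) e
  · by_cases a1 : y ∈ S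
    · simp only [a1, if_true]
      exact ⟨(h.2 y a1).1, fun hh => (mem_sdiff.1 (h.2 y a1).2).2 (mem_singleton.2 hh)⟩
    · simp only [a1, if_false]
      have := h'.2 y ((hc y hy).resolve_left a1)
      exact ⟨this.1, fun hh => (mem_sdiff.1 this.2).2 (mem_singleton.2 hh)⟩
  · obtain ⟨y, y1, y2, y3⟩ := hr p hp hg
    refine ⟨y, y1, y2, ?_⟩
    by_cases a1 : y ∈ S
    · simp only [a1, if_true]
      exact hI (k1 y a1)
    · simp only [a1, if_false]
      exact y3.resolve_left a1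

theorem mem_N2 {I : Finset X} {y : Fin n} :
    y ∈ N2 H I ↔ ∃ p ∈ I, ∃ q ∈ I, p ≠ q ∧ p ∈ H y ∧ q ∈ H y := by
  simp only [N2, mem_filter, mem_univ, true_and]
  constructor
  · intro h
    obtain ⟨p, hp, q, hq, hne⟩ := one_lt_card.1 h
    exact ⟨p, (mem_inter.1 hp).1, q, (mem_inter.1 hq).1, hne, (mem_inter.1 hp).2,
      (mem_inter.1 hq).2⟩
  · rintro ⟨p, hp, q, hq, hne, h1, h2⟩
    exact one_lt_card.2 ⟨p, mem_inter.2 ⟨hp, h1⟩, q, mem_inter.2 ⟨hq, h2⟩, hne⟩

/-- a tight set inside `g` -/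
structure Tg (P : Finset X) (H : Fin n → Finset X) (g : Fin n) (I : Finset X) : Prop where
  base : Base P H
  sub : I ⊆ H g
  two : 2 ≤ I.card
  tight : (N2 H I).card = I.card

/-- labels other than `g` with two points of `I` -/
def NN (H : Fin n → Finset X) (g : Fin n) (I : Finset X) : Finset (Fin n) := (N2 H I).erase g

/-- labels with at most one point of `I` -/
def YY (H : Fin n → Finset X) (I : Finset X) : Finset (Fin n) := univ \ N2 H I

theorem mem_YY {I : Finset X} {y : Fin n} : y ∈ YY H I ↔ y ∉ N2 H I := by simp [YY]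

theorem priv {I : Finset X} {y : Fin n} (hy : y ∈ YY H I) {p q : X} (hp : p ∈ I) (hq : q ∈ I)
    (h1 : p ∈ H y) (h2 : q ∈ H y) : p = q := by
  by_contra hh
  exact mem_YY.1 hy (mem_N2.2 ⟨p, hp, q, hq, hh, h1, h2⟩)

/-- tight sets outside `I` that contain `e` -/
def Ti (P : Finset X) (H : Fin n → Finset X) (I : Finset X) (e : X) (Z : Finset X) : Prop :=
  Z ⊆ P \ I ∧ e ∈ Z ∧ Z.card ≤ (ins H (YY H I) (P \ I) Z).card

/-- the trace lies in every tight set -/
def InK (P : Finset X) (H : Fin n → Finset X) (I : Finset X) (e : X) (C : Fin n) : Prop :=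
  ∀ Z, Ti P H I e Z → H C ∩ (P \ I) ⊆ Z

/-- the trace of `C` lies in every tight set that holds the trace of `y` -/
def Fo (P : Finset X) (H : Fin n → Finset X) (I : Finset X) (e : X) (y C : Fin n) : Prop :=
  ∀ Z, Ti P H I e Z → H y ∩ (P \ I) ⊆ Z → H C ∩ (P \ I) ⊆ Z

theorem super (S : Finset (Fin n)) (Q Z Z' : Finset X) :
    (ins H S Q Z).card + (ins H S Q Z').card ≤
      (ins H S Q (Z ∪ Z')).card + (ins H S Q (Z ∩ Z')).card ∧
    ∀ y ∈ S, H y ∩ Q ⊆ Z ∪ Z' → ¬ H y ∩ Q ⊆ Z → ¬ H y ∩ Q ⊆ Z' →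
      (ins H S Q Z).card + (ins H S Q Z').card + 1 ≤
        (ins H S Q (Z ∪ Z')).card + (ins H S Q (Z ∩ Z')).card := by
  have s1 : ins H S Q Z ∪ ins H S Q Z' ⊆ ins H S Q (Z ∪ Z') := by
    intro y hy
    rcases mem_union.1 hy with hy | hy
    · exact mem_ins.2 ⟨(mem_ins.1 hy).1, (mem_ins.1 hy).2.trans subset_union_left⟩
    · exact mem_ins.2 ⟨(mem_ins.1 hy).1, (mem_ins.1 hy).2.trans subset_union_right⟩
  have s2 : ins H S Q Z ∩ ins H S Q Z' ⊆ ins H S Q (Z ∩ Z') := by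
    intro y hy
    obtain ⟨a1, a2⟩ := mem_inter.1 hy
    exact mem_ins.2 ⟨(mem_ins.1 a1).1, subset_inter (mem_ins.1 a1).2 (mem_ins.1 a2).2⟩
  have c2 := card_le_card s2
  have c3 := card_union_add_card_inter (ins H S Q Z) (ins H S Q Z')
  refine ⟨by have := card_le_card s1; omega, fun y hy a1 a2 a3 => ?_⟩
  have := card_lt_card ((ssubset_iff_of_subset s1).2 ⟨y, mem_ins.2 ⟨hy, a1⟩, fun hh => by
    rcases mem_union.1 hh with hh | hh
    · exact a2 (mem_ins.1 hh).2
    · exact a3 (mem_ins.1 hh).2⟩)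
  omega

namespace Tg

variable {g : Fin n} {I : Finset X} {e : X} (h : Tg P H g I)
include h

theorem subP : I ⊆ P := h.sub.trans (h.base.sub g)

theorem gmem : g ∈ N2 H I := by
  obtain ⟨p, hp, q, hq, hne⟩ := one_lt_card.1 h.two
  exact mem_N2.2 ⟨p, hp, q, hq, hne, h.sub hp, h.sub hq⟩

theorem cN : (NN H g I).card + 1 = I.card := by
  rw [NN, card_erase_add_one h.gmem, h.tight]

theorem cY : (YY H I).card = (P \ I).card := by
  have c1 := card_sdiff_add_card_eq_card h.subP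
  have c2 := card_sdiff_add_card_eq_card (subset_univ (N2 H I))
  have c3 := h.tight
  have c4 := h.base.card
  simp only [card_univ, Fintype.card_fin] at c2
  rw [YY]
  omega

omit h in
theorem tri (y : Fin n) (hy : y ≠ g) : y ∈ NN H g I ∨ y ∈ YY H I := by
  by_cases a : y ∈ N2 H I
  · exact Or.inl (mem_erase.2 ⟨hy, a⟩)
  · exact Or.inr (mem_YY.2 a)

theorem neg {y : Fin n} (hy : y ∈ YY H I) : y ≠ g := fun a => mem_YY.1 hy (a ▸ h.gmem)

omit h in
/-- the labels with two points of `I - Z + x` -/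
theorem cut (Z : Finset X) (x : X) :
    N2 H (insert x (I \ Z)) ⊆ N2 H (insert x I) \ ins H (NN H g I) I Z := by
  intro y hy
  obtain ⟨p, hp, q, hq, hne, a1, a2⟩ := mem_N2.1 hy
  refine mem_sdiff.2 ⟨mem_N2.2 ⟨p, insert_subset_insert _ sdiff_subset hp, q,
    insert_subset_insert _ sdiff_subset hq, hne, a1, a2⟩, fun hh => ?_⟩
  have k : ∀ z ∈ insert x (I \ Z), z ∈ H y → z = x := fun z hz hz2 => by
    refine (mem_insert.1 hz).resolve_right (fun hz3 => ?_)
    exact (mem_sdiff.1 hz3).2 ((mem_ins.1 hh).2 (mem_inter.2 ⟨hz2, (mem_sdiff.1 hz3).1⟩))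
  exact hne ((k p hp a1).trans (k q hq a2).symm)

omit h in
theorem insub (Z : Finset X) : ins H (NN H g I) I Z ⊆ N2 H I :=
  (filter_subset _ _).trans (erase_subset _ _)

theorem kle {Z : Finset X} (hZ : Z ⊆ I) (hne : Z.Nonempty) :
    (ins H (NN H g I) I Z).card + 1 ≤ Z.card := by
  obtain ⟨x, hx⟩ := hne
  have c0 := h.cN
  have c1 := card_sdiff_add_card_eq_card hZ
  by_cases hZI : (I \ Z).card = 0
  · have : (ins H (NN H g I) I Z).card ≤ (NN H g I).card := card_le_card (filter_subset _ _)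
    omega
  have c3 : (insert x (I \ Z)).card = (I \ Z).card + 1 := card_insert_of_notMem (by simp [hx])
  have c4 := h.base.dh (insert x (I \ Z))
    (insert_subset (h.subP (hZ hx)) (sdiff_subset.trans h.subP)) (by omega)
  have c5 := cut (H := H) (g := g) (I := I) Z x
  rw [insert_eq_of_mem (hZ hx)] at c5
  have c6 := card_le_card c5
  have c7 := card_sdiff_add_card_eq_card (insub (H := H) (g := g) (I := I) Z)
  have := h.tight
  omega

theorem lle {Z : Finset X} (hZ : Z ⊆ P \ I) :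
    (ins H (YY H I) (P \ I) Z).card ≤ Z.card := by
  have hZP : Z ⊆ P := hZ.trans sdiff_subset
  have c1 := card_sdiff_add_card_eq_card hZP
  have c2 : I ⊆ P \ Z := fun p hp =>
    mem_sdiff.2 ⟨h.subP hp, fun hh => (mem_sdiff.1 (hZ hh)).2 hp⟩
  have c3 := card_le_card c2
  have c4 := h.two
  have c5 := h.base.dh (P \ Z) sdiff_subset (by omega)
  have c6 := N2_disj (H := H) (P \ Z) (ins H (YY H I) (P \ I) Z) (by
    intro y hy
    obtain ⟨y1, y2⟩ := mem_ins.1 hy
    have k : ∀ p ∈ (P \ Z) ∩ H y, p ∈ I := fun p hp => by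
      by_contra hh
      obtain ⟨a1, a2⟩ := mem_inter.1 hp
      exact (mem_sdiff.1 a1).2 (y2 (mem_inter.2 ⟨a2, mem_sdiff.2 ⟨(mem_sdiff.1 a1).1, hh⟩⟩))
    exact card_le_one.2 (fun p hp q hq =>
      priv y1 (k p hp) (k q hq) (mem_inter.1 hp).2 (mem_inter.1 hq).2))
  have := h.base.card
  omega

theorem ti_top (he : e ∈ P \ I) : Ti P H I e (P \ I) := by
  refine ⟨Subset.rfl, he, ?_⟩
  rw [← h.cY]
  exact card_le_card (fun y hy => mem_ins.2 ⟨hy, inter_subset_right⟩)

theorem ti_two {Z Z' : Finset X} (a : Ti P H I e Z) (b : Ti P H I e Z') :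
    Ti P H I e (Z ∪ Z') ∧ Ti P H I e (Z ∩ Z') ∧
      ∀ y ∈ YY H I, H y ∩ (P \ I) ⊆ Z ∪ Z' → H y ∩ (P \ I) ⊆ Z ∨ H y ∩ (P \ I) ⊆ Z' := by
  obtain ⟨s1, s2⟩ := super (H := H) (YY H I) (P \ I) Z Z'
  have c1 := h.lle (union_subset a.1 b.1)
  have c2 := h.lle (inter_subset_left.trans a.1 : Z ∩ Z' ⊆ _)
  have c3 := card_union_add_card_inter Z Z'
  have c4 := a.2.2
  have c5 := b.2.2
  refine ⟨⟨union_subset a.1 b.1, mem_union_left _ a.2.1, by omega⟩,
    ⟨inter_subset_left.trans a.1, mem_inter.2 ⟨a.2.1, b.2.1⟩, by omega⟩, fun y hy hs => ?_⟩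
  by_contra hh
  push Not at hh
  have := s2 y hy hs hh.1 hh.2
  omega

/-- the least tight set over a given set -/
theorem ti_min (he : e ∈ P \ I) {E : Finset X} (hE : E ⊆ P \ I) :
    ∃ Z, Ti P H I e Z ∧ E ⊆ Z ∧ ∀ Z', Ti P H I e Z' → E ⊆ Z' → Z ⊆ Z' := by
  classical
  obtain ⟨Z, hZ, hm⟩ := exists_min_image
    ((P \ I).powerset.filter (fun Z => Ti P H I e Z ∧ E ⊆ Z)) card
    ⟨P \ I, mem_filter.2 ⟨mem_powerset_self _, h.ti_top he, hE⟩⟩
  obtain ⟨-, z1, z2⟩ := mem_filter.1 hZ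
  refine ⟨Z, z1, z2, fun Z' a1 a2 => ?_⟩
  have k := (h.ti_two z1 a1).2.1
  have := hm (Z ∩ Z') (mem_filter.2 ⟨mem_powerset.2 k.1, k, subset_inter z2 a2⟩)
  exact inter_eq_left.1 (eq_of_subset_of_card_le inter_subset_left this)

theorem exists_priv (he : e ∈ P \ I) :
    ∃ C ∈ YY H I, InK P H I e C ∧ ∃ p ∈ I, p ∈ H C := by
  obtain ⟨Z, z1, -, z3⟩ := h.ti_min he (empty_subset _)
  obtain ⟨q, hq⟩ : I.Nonempty := card_pos.1 (by have := h.two; omega)
  have c1 := h.base.dh.inside h.base.card Z (z1.1.trans sdiff_subset) ⟨e, z1.2.1⟩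
    (fun hh => (mem_sdiff.1 (z1.1 (hh ▸ h.subP hq))).2 hq)
  have c2 := z1.2.2
  have : ¬ ins H (YY H I) (P \ I) Z ⊆ univ.filter (fun y => H y ⊆ Z) := fun hh => by
    have := card_le_card hh
    omega
  obtain ⟨C, c3, c4⟩ := not_subset.1 this
  obtain ⟨c5, c6⟩ := mem_ins.1 c3
  refine ⟨C, c5, fun Z' a => c6.trans (z3 Z' a (empty_subset _)), ?_⟩
  by_contra hh
  push Not at hh
  exact c4 (mem_filter.2 ⟨mem_univ _, fun p hp => c6 (mem_inter.2
    ⟨hp, mem_sdiff.2 ⟨h.base.sub C hp, fun a => hh p a hp⟩⟩)⟩)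

theorem m1 {p : X} (hp : p ∈ I) : ∃ t, Mt H (NN H g I) (I \ {p}) t :=
  hall p _ _ _ (singleton_subset_iff.2 hp) (fun Z a b => by
    rw [card_singleton]
    exact h.kle b ⟨p, a (mem_singleton_self p)⟩)

omit h in
theorem ins_erase (S : Finset (Fin n)) (Q Z : Finset X) (y : Fin n) :
    (ins H (S.erase y) Q Z).card ≤ (ins H S Q Z).card ∧
      (y ∈ S → H y ∩ Q ⊆ Z → (ins H (S.erase y) Q Z).card + 1 ≤ (ins H S Q Z).card) := by
  have s : ins H (S.erase y) Q Z ⊆ ins H S Q Z := filter_subset_filter _ (erase_subset _ _)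
  refine ⟨card_le_card s, fun a b => card_lt_card ((ssubset_iff_of_subset s).2
    ⟨y, mem_ins.2 ⟨a, b⟩, fun hh => (mem_erase.1 (mem_ins.1 hh).1).1 rfl⟩)⟩

omit h in
theorem ins_insert (S : Finset (Fin n)) (Q Z : Finset X) (y : Fin n) :
    (ins H (insert y S) Q Z).card ≤ (ins H S Q Z).card + 1 ∧
      (¬ H y ∩ Q ⊆ Z → (ins H (insert y S) Q Z).card ≤ (ins H S Q Z).card) := by
  constructor
  · refine le_trans (card_le_card (fun z hz => ?_)) (card_insert_le y _)
    obtain ⟨a, b⟩ := mem_ins.1 hz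
    exact mem_insert.2 ((mem_insert.1 a).imp id (fun c => mem_ins.2 ⟨c, b⟩))
  · intro hn
    refine card_le_card (fun z hz => ?_)
    obtain ⟨a, b⟩ := mem_ins.1 hz
    exact mem_ins.2 ⟨(mem_insert.1 a).resolve_left (fun c => hn (c ▸ b)), b⟩

theorem m2 (he : e ∈ P \ I) {C : Fin n} (hC : C ∈ YY H I) (hK : InK P H I e C) :
    ∃ t, Mt H ((YY H I).erase C) ((P \ I) \ {e}) t :=
  hall e _ _ _ (singleton_subset_iff.2 he) (fun Z a b => by
    rw [card_singleton]
    obtain ⟨c1, c2⟩ := ins_erase (H := H) (YY H I) (P \ I) Z C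
    have c3 := h.lle b
    by_cases ht : Z.card ≤ (ins H (YY H I) (P \ I) Z).card
    · have := c2 hC (hK Z ⟨b, a (mem_singleton_self e), ht⟩)
      omega
    · omega)

theorem m3 (he : e ∈ P \ I) {C D y : Fin n} (hC : C ∈ YY H I) (hK : InK P H I e C)
    (hD : D ∈ YY H I) (hK' : ¬ InK P H I e D) (hF : Fo P H I e y D) :
    ∃ t, Mt H (insert y (((YY H I).erase C).erase D)) ((P \ I) \ {e}) t :=
  hall e _ _ _ (singleton_subset_iff.2 he) (fun Z a b => by
    rw [card_singleton]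
    have heZ := a (mem_singleton_self e)
    have hDC : D ∈ (YY H I).erase C := mem_erase.2 ⟨fun c => hK' (c ▸ hK), hD⟩
    obtain ⟨c1, c2⟩ := ins_erase (H := H) (YY H I) (P \ I) Z C
    obtain ⟨c3, c4⟩ := ins_erase (H := H) ((YY H I).erase C) (P \ I) Z D
    obtain ⟨c5, c6⟩ := ins_insert (H := H) (((YY H I).erase C).erase D) (P \ I) Z y
    have c7 := h.lle b
    by_cases ht : Z.card ≤ (ins H (YY H I) (P \ I) Z).card
    · have t1 : Ti P H I e Z := ⟨b, heZ, ht⟩
      have := c2 hC (hK Z t1)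
      by_cases hy : H y ∩ (P \ I) ⊆ Z
      · have := c4 hDC (hF Z t1 hy)
        omega
      · have := c6 hy
        omega
    by_cases hy : H y ∩ (P \ I) ⊆ Z
    swap
    · have := c6 hy
      omega
    by_cases a1 : H C ∩ (P \ I) ⊆ Z
    · have := c2 hC a1
      omega
    by_cases a2 : H D ∩ (P \ I) ⊆ Z
    · have := c4 hDC a2
      omega
    by_contra hn
    obtain ⟨Z0, z1, -, z3⟩ := h.ti_min he (empty_subset _)
    obtain ⟨s1, s2⟩ := super (H := H) (YY H I) (P \ I) Z Z0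
    have d1 := h.lle (union_subset b z1.1)
    have d2 := card_union_add_card_inter Z Z0
    have d3 := z1.2.2
    have d4 : ¬ (Z ∩ Z0).card ≤ (ins H (YY H I) (P \ I) (Z ∩ Z0)).card := fun hh =>
      a1 ((hK _ ⟨inter_subset_left.trans b, mem_inter.2 ⟨heZ, z1.2.1⟩, hh⟩).trans
        inter_subset_left)
    have d5 : Ti P H I e (Z ∪ Z0) := ⟨union_subset b z1.1, mem_union_left _ heZ, by omega⟩
    have := s2 D hD (hF _ d5 (hy.trans subset_union_left)) a2
      (fun hh => hK' (fun Z' a => hh.trans (z3 Z' a (empty_subset _))))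
    omega)

omit h in
theorem ins_sdiff (S : Finset (Fin n)) (Q : Finset X) {Z Z' : Finset X} (a : Z ⊆ Z') :
    (ins H (S \ ins H S Q Z) Q Z').card + (ins H S Q Z).card ≤ (ins H S Q Z').card := by
  rw [← card_union_of_disjoint (disjoint_left.2
    (fun z a1 a2 => (mem_sdiff.1 (mem_ins.1 a1).1).2 a2))]
  refine card_le_card (union_subset (filter_subset_filter _ sdiff_subset) (fun z hz => ?_))
  exact mem_ins.2 ⟨(mem_ins.1 hz).1, (mem_ins.1 hz).2.trans a⟩

theorem m5 {Z : Finset X} (hZ : Ti P H I e Z) :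
    ∃ t, Mt H (YY H I \ ins H (YY H I) (P \ I) Z) ((P \ I) \ Z) t :=
  hall e _ _ _ hZ.1 (fun Z' a b => by
    have c1 := h.lle b
    have c2 := hZ.2.2
    have c3 := ins_sdiff (H := H) (YY H I) (P \ I) a
    omega)

/-- labels that leave a tight set are matched outside it -/
theorem m4 {Z : Finset X} (hZ : Ti P H I e Z) {y D : Fin n} (hD : D ∈ YY H I)
    (hDZ : ¬ H D ∩ (P \ I) ⊆ Z) (hF : Fo P H I e y D) :
    ∃ t, Mt H (insert y ((YY H I \ ins H (YY H I) (P \ I) Z).erase D)) ((P \ I) \ Z) t :=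
  hall e _ _ _ hZ.1 (fun Z' a b => by
    have c1 := h.lle b
    have c2 := hZ.2.2
    have c3 := ins_sdiff (H := H) (YY H I) (P \ I) a
    obtain ⟨c4, c5⟩ := ins_erase (H := H) (YY H I \ ins H (YY H I) (P \ I) Z) (P \ I) Z' D
    obtain ⟨c6, c7⟩ := ins_insert (H := H) ((YY H I \ ins H (YY H I) (P \ I) Z).erase D)
      (P \ I) Z' y
    by_cases hy : H y ∩ (P \ I) ⊆ Z'
    · by_cases ht : Z'.card ≤ (ins H (YY H I) (P \ I) Z').card
      · have := c5 (mem_sdiff.2 ⟨hD, fun hh => hDZ (mem_ins.1 hh).2⟩)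
          (hF Z' ⟨b, a hZ.2.1, ht⟩ hy)
        omega
      · omega
    · have := c7 hy
      omega)

end Tg

end Pool.Agent.MP_3b4e7c_co.Gen.St

end MrgPart3

-- ======== part 4: formerly Pool.Agent.MP_3b4e7c_co.Gen.Geo
section MrgPart4

/-! Row GEO: the angle model of a family of halfplanes. -/

namespace Pool.Agent.MP_3b4e7c_co.Gen

open Finset Real

namespace Geo

theorem polar (u v : ℝ) : ∃ r d : ℝ, 0 ≤ r ∧ u = r * cos d ∧ v = r * sin d :=
  ⟨‖(⟨u, v⟩ : ℂ)‖, Complex.arg ⟨u, v⟩, norm_nonneg _, (Complex.norm_mul_cos_arg ⟨u, v⟩).symm,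
    (Complex.norm_mul_sin_arg ⟨u, v⟩).symm⟩

theorem zeros {u v : ℝ} (h : u ≠ 0 ∨ v ≠ 0) : {c : ℝ | cos c * u + sin c * v = 0}.Countable := by
  obtain ⟨r, d, -, rfl, rfl⟩ := polar u v
  have hr : r ≠ 0 := by rintro rfl; simp at h
  refine (Set.countable_range fun k : ℤ => d + (2 * k + 1) * π / 2).mono fun c hc => ?_
  obtain ⟨k, hk⟩ := cos_eq_zero_iff.1 (show cos (c - d) = 0 from
    mul_left_cancel₀ hr (by rw [cos_sub, mul_zero, ← show _ = (0 : ℝ) from hc]; ring))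
  exact ⟨k, by simp only; linarith⟩

theorem pick {n : ℕ} (G : Fin n → Set ℝ) (B : Set ℝ) (ho : ∀ y, IsOpen (G y))
    (hn : ∀ y, (G y).Nonempty) (hB : B.Countable) (s : Finset (Fin n)) :
    ∃ T : Fin n → ℝ, (∀ y, T y ∈ G y ∧ T y ∉ B) ∧
      ∀ y ∈ s, ∀ z ∈ s, y ≠ z → ∀ k : ℤ, T y - T z ≠ k * π := by
  induction s using Finset.induction_on with
  | empty =>
    choose T h1 h2 using fun y => (hB.dense_compl ℝ).inter_open_nonempty _ (ho y) (hn y)
    exact ⟨T, fun y => ⟨h1 y, h2 y⟩, by simp⟩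
  | insert w s hw ih =>
    obtain ⟨T, h1, h2⟩ := ih
    obtain ⟨c, c1, c2⟩ := ((hB.union (Set.countable_range fun x : Fin n × ℤ =>
      T x.1 + x.2 * π)).dense_compl ℝ).inter_open_nonempty _ (ho w) (hn w)
    have c3 : ∀ z, ∀ k : ℤ, c - T z ≠ k * π := fun z k e =>
      c2 (Or.inr ⟨(z, k), by simp only; linarith⟩)
    have ne : ∀ z ∈ s, z ≠ w := fun z hz e => hw (e ▸ hz)
    refine ⟨Function.update T w c, fun y => ?_, fun y hy z hz e k => ?_⟩
    · by_cases e : y = w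
      · subst e
        rw [Function.update_self]
        exact ⟨c1, fun h => c2 (Or.inl h)⟩
      · rw [Function.update_of_ne e]
        exact h1 y
    · rcases mem_insert.1 hy with rfl | hy' <;> rcases mem_insert.1 hz with rfl | hz'
      · exact absurd rfl e
      · rw [Function.update_self, Function.update_of_ne (ne z hz')]
        exact c3 z k
      · rw [Function.update_self, Function.update_of_ne (ne y hy')]
        exact fun h => c3 y (-k) (by push_cast; linarith)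
      · rw [Function.update_of_ne (ne y hy'), Function.update_of_ne (ne z hz')]
        exact h2 y hy' z hz' e k

theorem lin (a c b : ℝ) (h1 : a ≤ c) (h2 : c ≤ b) (h3 : b - a < π) :
    ∃ α β : ℝ, 0 ≤ α ∧ 0 ≤ β ∧ 0 < α + β ∧ ∀ u v : ℝ, cos c * u + sin c * v =
      α * (cos a * u + sin a * v) + β * (cos b * u + sin b * v) := by
  rcases h1.eq_or_lt with rfl | h4
  · exact ⟨1, 0, zero_le_one, le_rfl, by simp, fun u v => by ring⟩
  have p1 : 0 < sin (b - a) := sin_pos_of_pos_of_lt_pi (by linarith) h3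
  have p2 : 0 < sin (c - a) := sin_pos_of_pos_of_lt_pi (by linarith) (by linarith)
  have p3 : 0 ≤ sin (b - c) := sin_nonneg_of_nonneg_of_le_pi (by linarith) (by linarith)
  refine ⟨sin (b - c) / sin (b - a), sin (c - a) / sin (b - a), by positivity, by positivity,
    by positivity, fun u v => ?_⟩
  field_simp
  simp only [sin_sub]
  ring

end Geo

open Geo

theorem geo : GeoS := by
  intro X _ n P H φ ψ a b hP hab hH up
  have ex : ∀ p, ∃ u v : ℝ, (∃ u v : ℝ, ∀ y, p ∈ H y → 0 < a y * u + b y * v) →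
      ∀ y, p ∈ H y → 0 < a y * u + b y * v := fun p => by
    by_cases h : ∃ u v : ℝ, ∀ y, p ∈ H y → 0 < a y * u + b y * v
    · obtain ⟨u, v, h⟩ := h
      exact ⟨u, v, fun _ => h⟩
    · exact ⟨0, 0, fun h' => absurd h' h⟩
  choose u v huv using ex
  obtain ⟨T, h1, h2⟩ := pick (fun y => (⋂ p ∈ H y, ⋂ x ∈ P \ H y,
      {c | cos c * φ x + sin c * ψ x < cos c * φ p + sin c * ψ p}) ∩
      ⋂ p ∈ (H y).filter (fun p => 0 < a y * u p + b y * v p), {c | 0 < cos c * u p + sin c * v p})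
    (⋃ p ∈ P, ⋃ q ∈ P.erase p, {c | cos c * (φ p - φ q) + sin c * (ψ p - ψ q) = 0})
    (fun y => (isOpen_biInter_finset fun p _ => isOpen_biInter_finset fun x _ =>
      isOpen_lt (by fun_prop) (by fun_prop)).inter
      (isOpen_biInter_finset fun p _ => isOpen_lt (by fun_prop) (by fun_prop)))
    (fun y => by
      obtain ⟨r, d, hr, e1, e2⟩ := polar (a y) (b y)
      refine ⟨d, ?_, ?_⟩ <;> simp only [Set.mem_iInter, Set.mem_ofPred_eq]
      · intro p hp x hx
        have := not_le.1 fun h => (mem_sdiff.1 hx).2 (up y p hp x (mem_sdiff.1 hx).1 h)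
        rw [e1, e2] at this
        exact lt_of_mul_lt_mul_left (by linarith) hr
      · intro p hp
        have := (mem_filter.1 hp).2
        rw [e1, e2] at this
        exact lt_of_mul_lt_mul_left (by linarith) hr)
    (P.countable_toSet.biUnion fun p hp => (P.erase p).countable_toSet.biUnion fun q hq =>
      zeros (by
        by_contra c
        rw [not_or, not_not, not_not, sub_eq_zero, sub_eq_zero] at c
        exact (mem_erase.1 hq).1 (hP p hp q (mem_erase.1 hq).2 c.1 c.2).symm)) univ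
  simp only [Set.mem_inter_iff, Set.mem_iInter, Set.mem_ofPred_eq, Set.mem_iUnion, not_exists] at h1
  refine ⟨T, fun c x => cos c * φ x + sin c * ψ x, ⟨fun y p hp x hx h => ?_, fun a c b h1 h2 h3 => ?_,
    fun c x => by rw [cos_add_pi, sin_add_pi]; ring⟩, ⟨fun y z e => h2 y (mem_univ y) z (mem_univ z) e,
    fun y p hp q hq e => ?_⟩, fun h p hp => ?_⟩
  · by_contra c
    exact ((h1 y).1.1 p hp x (mem_sdiff.2 ⟨hx, c⟩)).not_ge h
  · obtain ⟨α, β, k1, k2, k3, k4⟩ := lin a c b h1 h2 h3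
    exact ⟨α, β, k1, k2, k3, fun x => k4 _ _⟩
  · by_contra c
    exact (h1 y).2 p hp q (mem_erase.2 ⟨Ne.symm c, hq⟩) (by linarith [show _ + _ = _ + _ from e])
  · obtain ⟨r, d, hr, e1, e2⟩ := polar (u p) (v p)
    refine ⟨d, fun y hy => ?_⟩
    have := (h1 y).1.2 p (mem_filter.2 ⟨hy, huv p (h p hp) y hy⟩)
    rw [e1, e2] at this
    rw [cos_sub]
    exact lt_of_mul_lt_mul_left (by linarith) hr

end Pool.Agent.MP_3b4e7c_co.Gen

end MrgPart4

-- marker of a merged file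
example : 731051 + 39278 = 731051 + 39278 := rfl
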