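import Mathlib.Tactic.SuppressCompilation
import Mathlib.Algebra.Order.ToIntervalMod
import Mathlib.Algebra.Order.Star.Real
import Pool.Agent.MP_3b4e7c_co.Gen.Cyc

/-! A crossing envelope label exists. -/

set_option linter.unusedSectionVars false

namespace Pool.Agent.MP_3b4e7c_co.Gen

open Finset Up Real

namespace envA

theorem lt_half {x y : ℝ} (h1 : x < π / 2) (h2 : y - x ≤ π) (h : 0 < cos y) : y < π / 2 := by
  by_contra k
  exact absurd (cos_nonpos_of_pi_div_two_le_of_le (not_lt.1 k) (by linarith)) (not_le.2 h)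

theorem norm {a d : ℝ} (h : 0 < cos (a - d)) :
    ∃ e, (∀ t, cos (t - d) = cos (t - e)) ∧ -(π / 2) < a - e ∧ a - e < π / 2 := by
  have h1 := toIocMod_mem_Ioc two_pi_pos (-π) (a - d)
  have h2 := toIocMod_add_toIocDiv_zsmul two_pi_pos (-π) (a - d)
  set k := toIocDiv two_pi_pos (-π) (a - d)
  set x := toIocMod two_pi_pos (-π) (a - d)
  rw [zsmul_eq_mul] at h2
  have hc : ∀ t, cos (t - d) = cos (t - (d + k * (2 * π))) := fun t => by
    rw [← cos_add_int_mul_two_pi (t - (d + k * (2 * π))) k]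
    congr 1
    ring
  have e : a - (d + k * (2 * π)) = x := by linarith
  have hx : 0 < cos x := by rw [← e, ← hc]; exact h
  have := pi_pos
  refine ⟨d + k * (2 * π), hc, ?_, ?_⟩ <;> rw [e]
  · have := lt_half (x := 0) (y := -x) (by linarith) (by linarith [h1.1]) (by rwa [cos_neg])
    linarith
  · exact lt_half (x := 0) (by linarith) (by linarith [h1.2]) hx

theorem hc {a b c d : ℝ} (ha : 0 < cos (a - d)) (hb : 0 < cos (b - d)) (hc : 0 < cos (c - d))
    (h1 : b - a ≤ π) (h2 : c - b ≤ π) : c - a < π := by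
  obtain ⟨e, he, k1, k2⟩ := norm ha
  have k3 := lt_half k2 (y := b - e) (by linarith) (he b ▸ hb)
  have k4 := lt_half k3 (y := c - e) (by linarith) (he c ▸ hc)
  linarith

theorem mid {a b c d : ℝ} (ha : 0 < cos (a - d)) (hb : 0 < cos (b - d)) (h1 : a ≤ c) (h2 : c ≤ b)
    (h : b - a ≤ π) : 0 < cos (c - d) := by
  obtain ⟨e, he, k1, k2⟩ := norm ha
  have k3 := lt_half k2 (y := b - e) (by linarith) (he b ▸ hb)
  rw [he]
  exact cos_pos_of_mem_Ioo ⟨by linarith, by linarith⟩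

variable {X : Type} [DecidableEq X] {n : ℕ} {P : Finset X} {H : Fin n → Finset X}
  {T : Fin n → ℝ} {ht : ℝ → X → ℝ}

/-- `a` is an angle of the label `y` -/
def An (T : Fin n → ℝ) (y : Fin n) (a : ℝ) : Prop := ∃ k : ℤ, a = T y + k * (2 * π)

/-- the angle `c` lies between two angles of labels through `p` -/
def Stab (H : Fin n → Finset X) (T : Fin n → ℝ) (c : ℝ) (p : X) : Prop :=
  ∃ y z a b, p ∈ H y ∧ p ∈ H z ∧ An T y a ∧ An T z b ∧ a ≤ c ∧ c ≤ b ∧ b - a < π

def Ev (P : Finset X) (H : Fin n → Finset X) (T : Fin n → ℝ) (y : Fin n) : Prop :=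
  ∀ c, An T y c → ∀ p ∈ P, Stab H T c p → p ∈ H y

def Low (P : Finset X) (H : Fin n → Finset X) (T : Fin n → ℝ) (ht : ℝ → X → ℝ) (c : ℝ) (z : X) :
    Prop := z ∈ P ∧ Stab H T c z ∧ ∀ x ∈ P, Stab H T c x → ht c z ≤ ht c x

theorem An.cos {y : Fin n} {a : ℝ} (h : An T y a) (d : ℝ) : cos (a - d) = cos (T y - d) := by
  obtain ⟨k, rfl⟩ := h
  rw [← cos_add_int_mul_two_pi (T y - d) k]
  congr 1
  ring

theorem An.shift {y : Fin n} {a : ℝ} (h : An T y a) (k : ℤ) : An T y (a + k * (2 * π)) := by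
  obtain ⟨l, rfl⟩ := h
  exact ⟨l + k, by push_cast; ring⟩

theorem An.le {y : Fin n} {a b : ℝ} (h : An T y a) (h' : An T y b) (k : a - b < 2 * π) : a ≤ b := by
  obtain ⟨l, rfl⟩ := h
  obtain ⟨m, rfl⟩ := h'
  have := pi_pos
  have h1 : (l : ℝ) < m + 1 := by nlinarith
  have h2 : l < m + 1 := by exact_mod_cast h1
  have h3 : (l : ℝ) ≤ m := by exact_mod_cast Int.lt_add_one_iff.1 h2
  nlinarith

theorem An.hte (hA : Ang P H T ht) {y : Fin n} {a : ℝ} (h : An T y a) : ht a = ht (T y) := by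
  obtain ⟨k, rfl⟩ := h
  have p : Function.Periodic ht (2 * π) := fun c => funext fun x => by
    rw [show c + 2 * π = c + π + π by ring, hA.anti, hA.anti, neg_neg]
  exact p.int_mul k _

theorem An.eq (hG : Generic P T ht) {y z : Fin n} {a : ℝ} (h : An T y a) (h' : An T z a) :
    y = z := by
  by_contra k
  obtain ⟨l, rfl⟩ := h
  obtain ⟨m, e⟩ := h'
  exact hG.par y z k (2 * (m - l)) (by push_cast; linarith)

theorem An.up (hA : Ang P H T ht) {y : Fin n} {a : ℝ} (h : An T y a) {p x : X} (hp : p ∈ H y)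
    (hx : x ∈ P) (k : ht a p ≤ ht a x) : x ∈ H y := by
  rw [h.hte hA] at k
  exact hA.up y p hp x hx k

theorem Stab.shift {c : ℝ} {p : X} (h : Stab H T c p) (k : ℤ) : Stab H T (c + k * (2 * π)) p := by
  obtain ⟨y, z, a, b, h1, h2, h3, h4, h5, h6, h7⟩ := h
  exact ⟨y, z, _, _, h1, h2, h3.shift k, h4.shift k, by linarith, by linarith, by linarith⟩

theorem Stab.cos {c d : ℝ} {p : X} (h : Stab H T c p) (hd : ∀ y, p ∈ H y → 0 < cos (T y - d)) :
    0 < cos (c - d) := by
  obtain ⟨y, z, a, b, h1, h2, h3, h4, h5, h6, h7⟩ := h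
  exact mid (by rw [h3.cos]; exact hd y h1) (by rw [h4.cos]; exact hd z h2) h5 h6 h7.le

theorem stab_self {y : Fin n} {c : ℝ} (h : An T y c) {p : X} (hp : p ∈ H y) : Stab H T c p :=
  ⟨y, y, c, c, hp, hp, h, h, le_rfl, le_rfl, by linarith [pi_pos]⟩

theorem exists_low {y : Fin n} {c : ℝ} (hc : An T y c) (h : ¬ Ev P H T y) :
    ∃ z, Low P H T ht c z := by
  classical
  simp only [Ev, not_forall] at h
  obtain ⟨c', hc', p, hp, h1, -⟩ := h
  have h2 : Stab H T c p := by
    obtain ⟨k, rfl⟩ := hc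
    obtain ⟨l, rfl⟩ := hc'
    have := h1.shift (k - l)
    rwa [show T y + l * (2 * π) + ((k - l : ℤ) : ℝ) * (2 * π) = T y + k * (2 * π) by
      push_cast; ring] at this
  obtain ⟨z, hz, k⟩ := exists_min_image (P.filter (Stab H T c)) (ht c) ⟨p, mem_filter.2 ⟨hp, h2⟩⟩
  exact ⟨z, (mem_filter.1 hz).1, (mem_filter.1 hz).2, fun x hx s => k x (mem_filter.2 ⟨hx, s⟩)⟩

theorem Low.not_mem (hA : Ang P H T ht) {y : Fin n} {c : ℝ} {z : X} (hz : Low P H T ht c z)
    (hc : An T y c) (h : ¬ Ev P H T y) : z ∉ H y := by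
  intro k
  refine h fun c' hc' p hp s => hc.up hA k hp (hz.2.2 p hp ?_)
  obtain ⟨k, rfl⟩ := hc
  obtain ⟨l, rfl⟩ := hc'
  have := s.shift (k - l)
  rwa [show T y + l * (2 * π) + ((k - l : ℤ) : ℝ) * (2 * π) = T y + k * (2 * π) by
    push_cast; ring] at this

theorem exists_next (c : ℝ) (y : Fin n) :
    ∃ v c', An T v c' ∧ c < c' ∧ ∀ u b, An T u b → c < b → c' ≤ b := by
  have an : ∀ u, An T u (toIocMod two_pi_pos c (T u)) := fun u =>
    ⟨-toIocDiv two_pi_pos c (T u), by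
      have := toIocMod_add_toIocDiv_zsmul two_pi_pos c (T u)
      rw [zsmul_eq_mul] at this
      push_cast
      linarith⟩
  obtain ⟨v, -, hv⟩ := exists_min_image univ (fun u => toIocMod two_pi_pos c (T u)) ⟨y, mem_univ _⟩
  refine ⟨v, _, an v, (toIocMod_mem_Ioc two_pi_pos c (T v)).1, fun u b hb k => ?_⟩
  refine (hv u (mem_univ _)).trans ((an u).le hb ?_)
  linarith [(toIocMod_mem_Ioc two_pi_pos c (T u)).2]

open Classical in
theorem next (hA : Ang P H T ht) (hG : Generic P T ht) (hN : NonCentral P H T) (B : ℝ) (N : ℕ) :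
    ∀ y c z, (univ.filter fun v => ∃ b, An T v b ∧ c < b ∧ b < B).card ≤ N → B ≤ c + π →
      An T y c → ¬ Ev P H T y → Low P H T ht c z →
      (∀ v b, An T v b → z ∈ H v → c ≤ b → b < c + π → b < B) →
      ∃ g c', An T g c' ∧ Ev P H T g ∧ c < c' ∧ c' < c + π ∧ z ∈ H g := by
  induction N with
  | zero =>
    intro y c z hN' _ hc he hz hB
    obtain ⟨u, v, a, b, h1, h2, h3, h4, h5, h6, h7⟩ := hz.2.1
    have k : c ≠ b := fun e => hz.not_mem hA hc he ((hc.eq hG (e ▸ h4)) ▸ h2)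
    have : (univ.filter fun v => ∃ b, An T v b ∧ c < b ∧ b < B).Nonempty :=
      ⟨v, mem_filter.2 ⟨mem_univ _, b, h4, lt_of_le_of_ne h6 k, hB v b h4 h2 h6 (by linarith)⟩⟩
    have := card_pos.2 this
    omega
  | succ N ih =>
    intro y c z hN' hB' hc he hz hB
    have hpi := pi_pos
    obtain ⟨u, v, a, b, h1, h2, h3, h4, h5, h6, h7⟩ := hz.2.1
    have k : c < b := lt_of_le_of_ne h6 fun e => hz.not_mem hA hc he ((hc.eq hG (e ▸ h4)) ▸ h2)
    have kb := hB v b h4 h2 h6 (by linarith)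
    obtain ⟨y', c', hc', l1, l2⟩ := exists_next (T := T) c y
    have l3 := l2 v b h4 k
    have sz : Stab H T c' z := ⟨u, v, a, b, h1, h2, h3, h4, by linarith, l3, h7⟩
    by_cases he' : Ev P H T y'
    · exact ⟨y', c', hc', he', l1, by linarith, he' c' hc' z hz.1 sz⟩
    obtain ⟨w, hw⟩ := exists_low (ht := ht) hc' he'
    have sw : Stab H T c w := by
      obtain ⟨u1, v1, a1, b1, g1, g2, g3, g4, g5, g6, g7⟩ := hw.2.1
      have k1 : a1 < c' := lt_of_le_of_ne g5 fun e =>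
        hw.not_mem hA hc' he' ((hc'.eq hG (e ▸ g3)) ▸ g1)
      refine ⟨u1, v1, a1, b1, g1, g2, g3, g4, ?_, by linarith, g7⟩
      by_contra q
      linarith [l2 u1 a1 g3 (not_le.1 q)]
    obtain ⟨d, hd⟩ := hN w hw.1
    have key : ∀ v1 b1, An T v1 b1 → w ∈ H v1 → c' ≤ b1 → b1 < c' + π →
        b1 < c + π ∧ z ∈ H v1 := fun v1 b1 g1 g2 g3 g4 => by
      have k1 : b1 - c < π := envA.hc (sw.cos hd) (hw.2.1.cos hd) (by rw [g1.cos]; exact hd _ g2)
        (by linarith) (by linarith)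
      refine ⟨by linarith, ?_⟩
      by_cases e : z = w
      · exact e ▸ g2
      refine g1.up hA g2 hz.1 ?_
      obtain ⟨α, β, m1, m2, m3, m4⟩ := hA.lin c c' b1 l1.le g3 k1
      have q1 : ht c z < ht c w := lt_of_le_of_ne (hz.2.2 w hw.1 sw) fun q =>
        e (hG.inj y hz.1 hw.1 (by rwa [hc.hte hA] at q))
      have q2 := hw.2.2 z hz.1 sz
      rw [m4, m4] at q2
      by_contra q
      have q3 := not_le.1 q
      rcases m1.eq_or_lt with rfl | m1
      · nlinarith
      · nlinarith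
    have cd : (univ.filter fun v => ∃ b, An T v b ∧ c' < b ∧ b < B).card ≤ N := by
      refine Nat.le_of_lt_succ (lt_of_lt_of_le (card_lt_card ⟨?_, fun q => ?_⟩) hN')
      · intro x hx
        obtain ⟨b1, g1, g2, g3⟩ := (mem_filter.1 hx).2
        exact mem_filter.2 ⟨mem_univ _, b1, g1, by linarith, g3⟩
      · obtain ⟨b1, g1, g2, g3⟩ :=
          (mem_filter.1 (q (mem_filter.2 ⟨mem_univ _, c', hc', l1, by linarith⟩))).2
        linarith [g1.le hc' (by linarith)]
    obtain ⟨g, c2, r1, r2, r3, r4, r5⟩ := ih y' c' w cd (by linarith) hc' he' hw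
      fun v1 b1 g1 g2 g3 g4 => hB v1 b1 g1 (key v1 b1 g1 g2 g3 g4).2 (by linarith)
        (key v1 b1 g1 g2 g3 g4).1
    have := key g c2 r1 r5 r3.le r4
    exact ⟨g, c2, r1, r2, by linarith, this.1, this.2⟩

theorem an_neg {y : Fin n} {a : ℝ} : An (fun y => -T y) y a ↔ An T y (-a) :=
  ⟨fun ⟨k, h⟩ => ⟨-k, by push_cast; linarith⟩, fun ⟨k, h⟩ => ⟨-k, by push_cast; linarith⟩⟩

theorem stab_neg {c : ℝ} {p : X} : Stab H (fun y => -T y) c p ↔ Stab H T (-c) p := by
  constructor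
  · rintro ⟨y, z, a, b, h1, h2, h3, h4, h5, h6, h7⟩
    exact ⟨z, y, -b, -a, h2, h1, an_neg.1 h4, an_neg.1 h3, by linarith, by linarith, by linarith⟩
  · rintro ⟨y, z, a, b, h1, h2, h3, h4, h5, h6, h7⟩
    exact ⟨z, y, -b, -a, h2, h1, an_neg.2 (by rwa [neg_neg]), an_neg.2 (by rwa [neg_neg]),
      by linarith, by linarith, by linarith⟩

theorem ev_neg {y : Fin n} : Ev P H (fun y => -T y) y ↔ Ev P H T y :=
  ⟨fun h c hc p hp s => h (-c) (an_neg.2 (by rwa [neg_neg])) p hp (stab_neg.2 (by rwa [neg_neg])),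
    fun h c hc p hp s => h (-c) (an_neg.1 hc) p hp (stab_neg.1 s)⟩

theorem prev (hA : Ang P H T ht) (hG : Generic P T ht) (hN : NonCentral P H T) {y : Fin n} {c : ℝ}
    {z : X} (hc : An T y c) (he : ¬ Ev P H T y) (hz : Low P H T ht c z) :
    ∃ g c', An T g c' ∧ Ev P H T g ∧ c' < c ∧ c - π < c' ∧ z ∈ H g := by
  have a : Ang P H (fun y => -T y) fun c => ht (-c) := by
    refine ⟨fun y => by simpa using hA.up y, fun a c b h1 h2 h3 => ?_, fun c x => ?_⟩
    · obtain ⟨α, β, m1, m2, m3, m4⟩ := hA.lin (-b) (-c) (-a) (by linarith) (by linarith)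
        (by linarith)
      exact ⟨β, α, m2, m1, by linarith, fun x => by rw [m4]; ring⟩
    · have := hA.anti (-(c + π)) x
      rw [show -(c + π) + π = -c by ring] at this
      linarith
  have g : Generic P (fun y => -T y) fun c => ht (-c) :=
    ⟨fun y z h k e => hG.par y z h (-k) (by push_cast; linarith), fun y => by simpa using hG.inj y⟩
  have m : NonCentral P H fun y => -T y := fun p hp => by
    obtain ⟨d, hd⟩ := hN p hp
    refine ⟨-d, fun y h => ?_⟩
    rw [show -T y - -d = -(T y - d) by ring, cos_neg]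
    exact hd y h
  obtain ⟨g, c', r1, r2, r3, r4, r5⟩ := next a g m (-c + π) _ y (-c) z le_rfl le_rfl
    (an_neg.2 (by rwa [neg_neg])) (fun q => he (ev_neg.1 q))
    ⟨hz.1, stab_neg.2 (by rw [neg_neg]; exact hz.2.1), fun x hx s => by
      have := stab_neg.1 s
      simp only [neg_neg] at this ⊢
      exact hz.2.2 x hx this⟩ fun _ _ _ _ _ h => h
  exact ⟨g, -c', an_neg.1 r1, ev_neg.1 r2, by linarith, by linarith, r5⟩

/-- proper tight sets -/
def Tg (P : Finset X) (H : Fin n → Finset X) (W : Finset X) : Prop :=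
  W ⊆ P ∧ W ≠ P ∧ W.card ≤ (inside H W).card + 1

theorem Tg.union (hB : Base P H) {W W' : Finset X} (h : Tg P H W) (h' : Tg P H W') {z : X}
    (hz : z ∈ W) (hz' : z ∈ W') : Tg P H (W ∪ W') := by
  have c1 := card_union_add_card_inter W W'
  have c2 := card_union_add_card_inter (inside H W) (inside H W')
  have c3 : inside H W ∩ inside H W' = inside H (W ∩ W') := by
    ext y
    simp [inside, subset_inter_iff]
  have c4 : (inside H (W ∩ W')).card + 1 ≤ (W ∩ W').card :=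
    hB.dh.inside hB.card _ (inter_subset_left.trans h.1) ⟨z, mem_inter.2 ⟨hz, hz'⟩⟩
      fun e => h.2.1 (h.1.antisymm (e ▸ inter_subset_left))
  have c5 : (inside H W ∪ inside H W').card ≤ (inside H (W ∪ W')).card := card_le_card fun y hy => by
    simp only [inside, mem_union, mem_filter, mem_univ, true_and] at hy ⊢
    exact hy.elim (·.trans subset_union_left) (·.trans subset_union_right)
  rw [c3] at c2
  have t1 := h.2.2
  have t2 := h'.2.2
  refine ⟨union_subset h.1 h'.1, fun e => ?_, by omega⟩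
  obtain ⟨x, x1, x2⟩ := exists_of_ssubset (ssubset_of_ne_of_subset h.2.1 h.1)
  obtain ⟨x', x1', x2'⟩ := exists_of_ssubset (ssubset_of_ne_of_subset h'.2.1 h'.1)
  have ne : x ≠ x' := by
    rintro rfl
    exact (mem_union.1 (e ▸ x1 : x ∈ W ∪ W')).elim x2 x2'
  obtain ⟨u, u', hu, ⟨u1, u2⟩, u3, u4⟩ := hB.dh.pair x1 x1' ne
  have d : Disjoint (inside H W ∪ inside H W') {u, u'} := by
    rw [disjoint_right]
    intro y hy
    simp only [inside, mem_union, mem_filter, mem_univ, true_and, mem_insert, mem_singleton]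
      at hy ⊢
    rcases hy with rfl | rfl
    · exact fun q => q.elim (fun q => x2 (q u1)) fun q => x2' (q u2)
    · exact fun q => q.elim (fun q => x2 (q u3)) fun q => x2' (q u4)
  have c6 := card_le_univ (inside H W ∪ inside H W' ∪ {u, u'})
  rw [card_union_of_disjoint d, card_pair hu, Fintype.card_fin] at c6
  have c7 := hB.card
  rw [e] at c1
  omega

theorem not_cross {g : Fin n} (h : ¬ Crossing P H g) : ∃ W, Tg P H W ∧ H g ⊆ W := by
  simp only [Crossing, not_forall] at h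
  obtain ⟨W, h1, h2, h3, h4⟩ := h
  exact ⟨W, ⟨h1, h2, by omega⟩, h3⟩

theorem exists_cross (hB : Base P H) : ∃ y, Crossing P H y := by
  classical
  have c1 := hB.card
  have c2 := hB.two
  obtain ⟨x0, hx0⟩ : P.Nonempty := card_pos.1 (by omega)
  have t0 : Tg P H {x0} := ⟨by simpa using hx0, fun e => by rw [← e] at c1; simp at c1; omega,
    by simp⟩
  obtain ⟨W, hW, m⟩ := exists_max_image (P.powerset.filter (Tg P H)) card
    ⟨_, mem_filter.2 ⟨mem_powerset.2 t0.1, t0⟩⟩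
  have tW := (mem_filter.1 hW).2
  obtain ⟨x, hx⟩ : W.Nonempty := card_pos.1 (by
    simpa using m _ (mem_filter.2 ⟨mem_powerset.2 t0.1, t0⟩))
  obtain ⟨x', x1, x2⟩ := exists_of_ssubset (ssubset_of_ne_of_subset tW.2.1 tW.1)
  obtain ⟨u, -, -, ⟨u1, u2⟩, -⟩ := hB.dh.pair (tW.1 hx) x1 (fun e => x2 (e ▸ hx))
  refine ⟨u, by_contra fun q => ?_⟩
  obtain ⟨W', t', s⟩ := not_cross q
  have tu := tW.union hB t' hx (s u1)
  have := m _ (mem_filter.2 ⟨mem_powerset.2 tu.1, tu⟩)
  have := card_lt_card (s := W) (t := W ∪ W')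
    ⟨subset_union_left, fun q => x2 (q (mem_union_right _ (s u2)))⟩
  omega

theorem exists_ev (hB : Base P H) (hA : Ang P H T ht) (hG : Generic P T ht)
    (hN : NonCentral P H T) : ∃ g, Ev P H T g ∧ Crossing P H g := by
  obtain ⟨y, hy⟩ := exists_cross hB
  by_cases he : Ev P H T y
  · exact ⟨y, he, hy⟩
  have hc : An T y (T y) := ⟨0, by simp⟩
  obtain ⟨z, hz⟩ := exists_low (ht := ht) hc he
  obtain ⟨g, b, r1, r2, r3, r4, r5⟩ := next hA hG hN (T y + π) _ y _ z le_rfl le_rfl hc he hz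
    fun _ _ _ _ _ h => h
  obtain ⟨g', a, s1, s2, s3, s4, s5⟩ := prev hA hG hN hc he hz
  by_contra q
  obtain ⟨W, t, w⟩ := not_cross fun k => q ⟨g, r2, k⟩
  obtain ⟨W', t', w'⟩ := not_cross fun k => q ⟨g', s2, k⟩
  have tu := t.union hB t' (w r5) (w' s5)
  obtain ⟨d, hd⟩ := hN z hz.1
  have k : b - a < π := envA.hc (by rw [s1.cos]; exact hd _ s5) (hz.2.1.cos hd)
    (by rw [r1.cos]; exact hd _ r5) (by linarith) (by linarith)
  obtain ⟨α, β, m1, m2, m3, m4⟩ := hA.lin a (T y) b s3.le r3.le k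
  have := hy _ tu.1 tu.2.1 fun x hx => by
    have hP := hB.sub y hx
    have l := hz.2.2 x hP (stab_self hc hx)
    rw [m4, m4] at l
    by_contra q'
    have q1 := not_le.1 fun k => q' (mem_union_right _ (w' (s1.up hA s5 hP k)))
    have q2 := not_le.1 fun k => q' (mem_union_left _ (w (r1.up hA r5 hP k)))
    rcases m1.eq_or_lt with rfl | m1
    · nlinarith
    · nlinarith
  have := tu.2.2
  omega

end envA

open envA

theorem env : EnvS := by
  intro X _ n P H T ht hB hA hG hN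
  obtain ⟨g, he, hc⟩ := exists_ev hB hA hG hN
  obtain ⟨T', hT⟩ : ∃ T' : Fin n → ℝ, T' = fun y => toIcoMod two_pi_pos 0 (T y - T g) := ⟨_, rfl⟩
  have an : ∀ y, An T y (T' y + T g) := fun y => ⟨-toIcoDiv two_pi_pos 0 (T y - T g), by
    have := toIcoMod_add_toIcoDiv_zsmul two_pi_pos 0 (T y - T g)
    rw [zsmul_eq_mul] at this
    rw [hT]
    push_cast
    linarith⟩
  have lo : ∀ y, 0 ≤ T' y := fun y => hT ▸ (toIcoMod_mem_Ico two_pi_pos 0 (T y - T g)).1
  have hi : ∀ y, T' y < 2 * π := fun y => by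
    have := (toIcoMod_mem_Ico two_pi_pos 0 (T y - T g)).2
    rw [hT]
    linarith
  have ag : An T g (T g) := ⟨0, by simp⟩
  have hpi := pi_pos
  refine ⟨g, T', fun c => ht (c + T g), ⟨⟨fun y p hp x hx k => (an y).up hA hp hx k,
    fun a c b h1 h2 h3 => hA.lin _ _ _ (by linarith) (by linarith) (by linarith),
    fun c x => by rw [← hA.anti, add_right_comm]⟩, ⟨fun y z h k e => ?_, fun y => ?_⟩, ?_, lo, hi⟩,
    fun p hp hg y z hy hz => ?_, fun p hp C D _ _ hC hD h1 h2 => ?_, hc⟩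
  · obtain ⟨l, hl⟩ := an y
    obtain ⟨m, hm⟩ := an z
    exact hG.par y z h (k + 2 * (m - l)) (by push_cast; linarith)
  · rw [(an y).hte hA]
    exact hG.inj y
  · rw [hT]
    simp only [sub_self]
    exact toIcoMod_apply_left _ _
  · by_contra q
    obtain ⟨d, hd⟩ := hN p hp
    have a1 := (an y).shift (-1)
    have k := envA.hc (d := d) (by rw [a1.cos]; exact hd _ hy) (by rw [(an z).cos]; exact hd _ hz)
      (by rw [(an z).cos]; exact hd _ hz) (by push_cast; linarith) (by linarith)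
    refine hg (he _ ag p hp ⟨y, z, _, _, hy, hz, a1, an z, ?_, by linarith [lo z], k⟩)
    push_cast
    linarith [hi y]
  · by_contra q
    obtain ⟨d, hd⟩ := hN p (hB.sub g hp)
    have k := envA.hc (d := d) (hd _ hp) (by rw [(an C).cos]; exact hd _ hC)
      (by rw [(an D).cos]; exact hd _ hD) (by linarith) (by linarith)
    linarith

end Pool.Agent.MP_3b4e7c_co.Gen
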