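import Mathlib
import Pool.Agent.MP_3b4e7c_co.Gen.Geo

/-! From halfplanes in the plane to the finite model with angles. -/

namespace Pool.Agent.MP_3b4e7c_co.Gen

open Finset Up

theorem plane (n : ℕ) (hn : 2 ≤ n) (P : Finset (ℝ × ℝ)) (hP : P.card = n)
    (H : Fin n → Set (ℝ × ℝ)) (a b c : Fin n → ℝ) (hab : ∀ i, a i ≠ 0 ∨ b i ≠ 0)
    (hc : ∀ i, H i = {p | c i ≤ a i * p.1 + b i * p.2} ∨ H i = {p | c i < a i * p.1 + b i * p.2})
    (hall : ∀ X : Finset (ℝ × ℝ), X ⊆ P → 2 ≤ X.card →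
      X.card ≤ {i : Fin n | 2 ≤ ((X : Set (ℝ × ℝ)) ∩ H i).ncard}.ncard)
    (core : ∀ (X : Type) [DecidableEq X] [Fintype X] (P' : Finset X) (H' : Fin n → Finset X)
      (T : Fin n → ℝ) (ht : ℝ → X → ℝ) (o : X), o ∉ P' → Base P' H' → Ang P' H' T ht →
      Generic P' T ht → ((∀ p ∈ P, ∃ u v : ℝ, ∀ i, p ∈ H i → 0 < a i * u + b i * v) →
        NonCentral P' H' T) → Ham P' H') :
    ∃ (p : Fin n → ℝ × ℝ) (σ : Equiv.Perm (Fin n)), Function.Injective p ∧
      Set.range p = (P : Set (ℝ × ℝ)) ∧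
      ∀ k, p k ∈ H (σ k) ∧ p (finRotate n k) ∈ H (σ k) := by
  classical
  obtain ⟨o, ho⟩ := Infinite.exists_notMem_finset P
  let P' : Finset ↥(insert o P) := univ.filter (fun x => x.1 ∈ P)
  let H' : Fin n → Finset ↥(insert o P) := fun i => univ.filter (fun x => x.1 ∈ P ∧ x.1 ∈ H i)
  have mP : ∀ x, x ∈ P' ↔ x.1 ∈ P := fun x => by simp only [P', mem_filter, mem_univ, true_and]
  have mH : ∀ i x, x ∈ H' i ↔ x.1 ∈ P ∧ x.1 ∈ H i := fun i x => by
    simp only [H', mem_filter, mem_univ, true_and]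
  have cP : P'.card = n := by
    rw [← hP, ← card_image_of_injective P' Subtype.val_injective]
    congr 1
    ext z
    simp only [mem_image, mP]
    exact ⟨fun ⟨x, h1, h2⟩ => h2 ▸ h1, fun h => ⟨⟨z, mem_insert_of_mem h⟩, h, rfl⟩⟩
  have sub : ∀ i, H' i ⊆ P' := fun i x hx => (mP x).2 ((mH i x).1 hx).1
  obtain ⟨T, ht, g1, g2, g3⟩ := geo ↥(insert o P) n P' H' (fun x => x.1.1) (fun x => x.1.2) a b
    (fun p _ q _ h1 h2 => Subtype.ext (Prod.ext h1 h2)) hab sub (by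
      intro r x hx y hy h1
      rw [mH] at hx ⊢
      refine ⟨(mP y).1 hy, ?_⟩
      have h2 := hx.2
      rcases hc r with e | e <;> rw [e] at h2 ⊢ <;> simp only [Set.mem_setOf_eq] at h2 ⊢ <;>
        linarith)
  obtain ⟨p, σ, p1, p2, p3⟩ := core ↥(insert o P) P' H' T ht ⟨o, mem_insert_self _ _⟩
    (fun h => ho ((mP _).1 h)) ⟨cP, hn, sub, by
      intro W hW h2
      have h1 := hall (W.image Subtype.val) (by
        intro z hz
        obtain ⟨x, hx, rfl⟩ := mem_image.1 hz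
        exact (mP x).1 (hW hx)) (by rwa [card_image_of_injective _ Subtype.val_injective])
      rw [card_image_of_injective _ Subtype.val_injective] at h1
      refine h1.trans ?_
      rw [← Set.ncard_coe_finset]
      refine Set.ncard_le_ncard (fun i hi => ?_) (Finset.finite_toSet _)
      have hi' : 1 < (((W.image Subtype.val : Finset (ℝ × ℝ)) : Set (ℝ × ℝ)) ∩ H i).ncard := hi
      obtain ⟨z, w, hz, hw, hne⟩ := (Set.one_lt_ncard_iff
        ((W.image Subtype.val).finite_toSet.inter_of_left _)).1 hi'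
      obtain ⟨x, hx, rfl⟩ := mem_image.1 hz.1
      obtain ⟨y, hy, rfl⟩ := mem_image.1 hw.1
      exact mem_coe.2 (mem_filter.2 ⟨mem_univ _, one_lt_card.2
        ⟨x, mem_inter.2 ⟨hx, (mH i x).2 ⟨(mP x).1 (hW hx), hz.2⟩⟩,
          y, mem_inter.2 ⟨hy, (mH i y).2 ⟨(mP y).1 (hW hy), hw.2⟩⟩,
          fun h => hne (congrArg Subtype.val h)⟩⟩)⟩ g1 g2
    (fun h => g3 (fun x hx => by
      obtain ⟨u, v, huv⟩ := h x.1 ((mP x).1 hx)
      exact ⟨u, v, fun i hi => huv i ((mH i x).1 hi).2⟩))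
  have inj : Function.Injective (fun k => (p k).1) := Subtype.val_injective.comp p1
  refine ⟨fun k => (p k).1, σ, inj, ?_, fun k =>
    ⟨((mH _ _).1 (p3 k).1).2, ((mH _ _).1 (p3 k).2).2⟩⟩
  have : univ.image (fun k => (p k).1) = P := eq_of_subset_of_card_le
    (fun z hz => by obtain ⟨k, -, rfl⟩ := mem_image.1 hz; exact (mP _).1 (p2 k))
    (by rw [card_image_of_injective _ inj]; simp [hP])
  exact (by simp : Set.range (fun k => (p k).1) = ↑(univ.image (fun k => (p k).1))).trans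
    (congrArg _ this)

end Pool.Agent.MP_3b4e7c_co.Gen
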