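import Pool.Agent.MP_3b4e7c_co.Gen.Geo

/-! A bad set gives the star condition. -/

namespace Pool.Agent.MP_3b4e7c_co.Gen

open Finset Up

namespace St

variable {X : Type} [DecidableEq X] {n : ℕ} {P : Finset X} {H : Fin n → Finset X}

/-- a least bad set all of whose points own a private label `rr p` -/
structure Cx (P : Finset X) (H : Fin n → Finset X) (g A B : Fin n) (a b e : X) (Φ : X → ℝ)
    (side : Fin n → Bool) (t : Fin n → X) (I : Finset X) (rr : X → Fin n) : Prop where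
  tg : Tg P H g I
  fr : Frame P H g e Φ side
  yd : YData P H g A B a b e t
  cov : ∀ p ∈ P, p ∉ H g → p ∈ H A ∨ p ∈ H B
  avoid : ∀ p ∈ I, p ∉ H A ∧ p ∉ H B
  stab : ∀ p ∈ I, ∃ y, y ≠ g ∧ p ∈ H y ∧ side y ≠ side (rr p)
  own : ∀ p ∈ I, rr p ∈ YY H I ∧ t (rr p) = p ∧ ∀ y ∈ YY H I, p ∈ H y → side y = side (rr p)
  least : ∀ I' : Finset X, I'.card < I.card → ¬ Bad H g A B t side I'
  he : e ∈ P \ I

/-- `x` is not the top of its class -/
def Gd (Φ : X → ℝ) (side : Fin n → Bool) (I : Finset X) (rr : X → Fin n) (x : X) : Prop :=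
  x ∈ I ∧ ∃ q ∈ I, Φ x < Φ q ∧ side (rr q) = side (rr x)

/-- tight subsets of `I` -/
def Kt (H : Fin n → Finset X) (g : Fin n) (I Z : Finset X) : Prop :=
  Z ⊆ I ∧ Z.card ≤ (ins H (NN H g I) I Z).card + 1

theorem bool3 {a b c : Bool} (h1 : a ≠ c) (h2 : b ≠ c) : a = b := by
  cases a <;> cases b <;> cases c <;> simp_all

namespace Cx

variable {g A B : Fin n} {a b e : X} {Φ : X → ℝ} {side : Fin n → Bool} {t : Fin n → X}
  {I : Finset X} {rr : X → Fin n} (h : Cx P H g A B a b e Φ side t I rr)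
include h

theorem rmem {p : X} (hp : p ∈ I) : p ∈ H (rr p) := by
  have := (h.yd.tmem _ (h.tg.neg (h.own p hp).1)).1
  rwa [(h.own p hp).2.1] at this

theorem eqe : I \ {e} = I := sdiff_eq_self_of_disjoint
  (disjoint_singleton_right.2 (mem_sdiff.1 h.he).2)

theorem lt_of_ne {p q : X} (hp : p ∈ I) (hq : q ∈ I) (hne : p ≠ q) (hle : Φ p ≤ Φ q) :
    Φ p < Φ q :=
  lt_of_le_of_ne hle (fun hh => hne (h.fr.inj (h.tg.subP hp) (h.tg.subP hq) hh))

theorem low {r x : X} (hr : r ∈ P) (hg : r ∉ H g) (hx : x ∈ I) : Φ r < Φ x := by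
  by_contra hh
  exact hg (h.fr.up x (h.tg.sub hx) r hr (not_lt.1 hh))

theorem opp {y : Fin n} {q : X} (hy : y ≠ g) (hq : q ∈ I) (hqy : q ∈ H y)
    (hs : side y ≠ side (rr q)) : y ∈ NN H g I ∧ ∀ x ∈ I, Φ q ≤ Φ x → x ∈ H y := by
  refine ⟨(Tg.tri y hy).resolve_right (fun hh => hs ((h.own q hq).2.2 y hh hqy)),
    fun x hx hle => ?_⟩
  rcases h.fr.nc q (h.tg.sub hq) y (rr q) hy (h.tg.neg (h.own q hq).1) hqy (h.rmem hq) hs x
    (h.tg.subP hx) hle with k | k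
  · exact k
  · rw [priv (h.own q hq).1 hx hq k (h.rmem hq)]
    exact hqy

theorem minl {Z : Finset X} (hZ : Kt H g I Z) (hne : Z ≠ I) (h2 : 2 ≤ Z.card) {x : X}
    (hx : x ∈ Z) : ∃ y ∈ NN H g I, H y ∩ I ⊆ Z ∧ x ∈ H y ∧ side y ≠ side (rr x) := by
  by_contra hn
  push Not at hn
  have hxI := hZ.1 hx
  have sI : insert x (I \ Z) ⊆ I := insert_subset hxI sdiff_subset
  have c1 := card_sdiff_add_card_eq_card hZ.1
  have c2 : Z.card < I.card := card_lt_card ⟨hZ.1, fun hh => hne (hZ.1.antisymm hh)⟩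
  have c3 : (insert x (I \ Z)).card = (I \ Z).card + 1 := card_insert_of_notMem (by simp [hx])
  have c4 := h.tg.base.dh _ (sI.trans h.tg.subP) (by omega)
  have c5 := Tg.cut (H := H) (g := g) (I := I) Z x
  rw [insert_eq_of_mem hxI] at c5
  have c6 := card_le_card c5
  have c7 := card_sdiff_add_card_eq_card (Tg.insub (H := H) (g := g) (I := I) Z)
  have c8 := h.tg.tight
  have c9 := hZ.2
  have e1 := eq_of_subset_of_card_le c5 (by omega)
  refine h.least (insert x (I \ Z)) (by omega) ⟨sI.trans h.tg.sub,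
    fun p hp => h.avoid p (sI hp), by omega, by omega, fun p hp y hy hpy => ?_⟩
  obtain ⟨o1, o2, o3⟩ := h.own p (sI hp)
  refine ⟨rr p, fun hh => mem_YY.1 o1 (mem_sdiff.1 (c5 hh)).1, o2, ?_⟩
  by_cases hy2 : y ∈ N2 H I
  · have k : y ∈ ins H (NN H g I) I Z := by
      by_contra hh
      exact hy (e1 ▸ mem_sdiff.2 ⟨hy2, hh⟩)
    obtain ⟨k1, k2⟩ := mem_ins.1 k
    have : p = x := (mem_insert.1 hp).resolve_right
      (fun hh => (mem_sdiff.1 hh).2 (k2 (mem_inter.2 ⟨hpy, sI hp⟩)))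
    subst this
    exact hn y k1 k2 hpy
  · exact o3 y (mem_YY.2 hy2) hpy

theorem upper {Z : Finset X} (hZ : Kt H g I Z) (h2 : 2 ≤ Z.card) {x q : X} (hx : x ∈ Z)
    (hq : q ∈ I) (hle : Φ x ≤ Φ q) : q ∈ Z := by
  by_cases hne : Z = I
  · exact hne ▸ hq
  obtain ⟨y, y1, y2, y3, y4⟩ := h.minl hZ hne h2 hx
  exact y2 (mem_inter.2 ⟨(h.opp (mem_erase.1 y1).1 (hZ.1 hx) y3 y4).2 q hq hle, hq⟩)

theorem gen {C D : Fin n} {x q r : X} (hC : C ∈ YY H I) (hx : x ∈ I) (hxC : x ∈ H C)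
    (hq : q ∈ I) (hlt : Φ x < Φ q) (hs : side (rr q) = side (rr x)) (hr : r ∈ P) (hg : r ∉ H g)
    (hrC : r ∉ H C) (h1 : r ∈ H D) (h2 : q ∈ H D) : D ∈ NN H g I := by
  have hD : D ≠ g := fun hh => hg (hh ▸ h1)
  have hxq : x ≠ q := fun hh => hlt.ne (hh ▸ rfl)
  by_cases a1 : side D = side (rr q)
  swap
  · exact (h.opp hD hq h2 a1).1
  rcases h.fr.aba D C hD (h.tg.neg hC) (a1.trans (hs.trans ((h.own x hx).2.2 C hC hxC).symm))
    r x q (h.low hr hg hx) hlt h1 h2 hxC with k | k | k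
  · exact mem_erase.2 ⟨hD, mem_N2.2 ⟨x, hx, q, hq, hxq, k, h2⟩⟩
  · exact absurd k hrC
  · exact absurd (priv hC hx hq hxC k) hxq

/-- a good label and all labels of `N` but one cover the points outside `g` -/
theorem cover {C : Fin n} {x : X} (hC : C ∈ YY H I) (hx : Gd Φ side I rr x) (hxC : x ∈ H C)
    (y0 : Fin n) {r : X} (hr : r ∈ P) (hg : r ∉ H g) :
    r ∈ H C ∨ ∃ D ∈ (NN H g I).erase y0, r ∈ H D := by
  obtain ⟨x1, q, hq, hlt, hs⟩ := hx
  by_cases hrC : r ∈ H C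
  · exact Or.inl hrC
  obtain ⟨u, u', hne, a1, a2⟩ := h.tg.base.dh.pair hr (h.tg.subP hq)
    (fun hh => hg (hh ▸ h.tg.sub hq))
  by_cases hu : u = y0
  · exact Or.inr ⟨u', mem_erase.2 ⟨hu ▸ hne.symm,
      h.gen hC x1 hxC hq hlt hs hr hg hrC a2.1 a2.2⟩, a2.1⟩
  · exact Or.inr ⟨u, mem_erase.2 ⟨hu, h.gen hC x1 hxC hq hlt hs hr hg hrC a1.1 a1.2⟩, a1.1⟩

theorem count {Z : Finset X} (hZ : Ti P H I e Z) : (∀ r ∈ P, r ∉ H g → r ∈ Z) ∨
    (ins H (NN H g I) (P \ I) Z).card + 1 ≤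
      (I.filter (fun q => H (rr q) ∩ (P \ I) ⊆ Z)).card := by
  by_cases hAB : H A ∩ (P \ I) ⊆ Z ∧ H B ∩ (P \ I) ⊆ Z
  · refine Or.inl (fun r hr hg => ?_)
    have : r ∈ P \ I := mem_sdiff.2 ⟨hr, fun hh => hg (h.tg.sub hh)⟩
    rcases h.cov r hr hg with k | k
    · exact hAB.1 (mem_inter.2 ⟨k, this⟩)
    · exact hAB.2 (mem_inter.2 ⟨k, this⟩)
  right
  have nB : ∀ y, t y ∈ I → y ≠ B := fun y hy hh => by
    have k := (h.yd.tmem B h.yd.hBg).1
    exact (h.avoid _ hy).2 (hh ▸ k)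
  have key : ∀ y ∈ ins H (YY H I) (P \ I) Z ∪ ins H (NN H g I) (P \ I) Z,
      y ≠ g ∧ H y ∩ (P \ I) ⊆ Z := by
    intro y hy
    rcases mem_union.1 hy with k | k
    · exact ⟨h.tg.neg (mem_ins.1 k).1, (mem_ins.1 k).2⟩
    · exact ⟨(mem_erase.1 (mem_ins.1 k).1).1, (mem_ins.1 k).2⟩
  have c1 : (ins H (YY H I) (P \ I) Z ∪ ins H (NN H g I) (P \ I) Z).card ≤
      (Z.erase e ∪ I.filter (fun q => H (rr q) ∩ (P \ I) ⊆ Z)).card := by
    refine card_le_card_of_injOn t (fun y hy => ?_) (fun y hy z hz hyz => ?_)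
    · obtain ⟨k1, k2⟩ := key y (mem_coe.1 hy)
      obtain ⟨m1, -, m3⟩ := h.yd.tmem y k1
      refine mem_coe.2 (mem_union.2 ?_)
      by_cases hI : t y ∈ I
      · obtain ⟨o1, o2, -⟩ := h.own _ hI
        have : y = rr (t y) := h.yd.tinj _ _ k1 (h.tg.neg o1) (nB y hI)
          (nB _ (o2.symm ▸ hI)) o2.symm
        exact Or.inr (mem_filter.2 ⟨hI, this ▸ k2⟩)
      · exact Or.inl (mem_erase.2 ⟨m3, k2 (mem_inter.2
          ⟨m1, mem_sdiff.2 ⟨h.tg.base.sub y m1, hI⟩⟩)⟩)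
    · obtain ⟨k1, k2⟩ := key y (mem_coe.1 hy)
      obtain ⟨k3, k4⟩ := key z (mem_coe.1 hz)
      by_cases hA : H A ∩ (P \ I) ⊆ Z
      · have hB : ¬ H B ∩ (P \ I) ⊆ Z := fun hh => hAB ⟨hA, hh⟩
        exact h.yd.tinj y z k1 k3 (fun hh => hB (hh ▸ k2)) (fun hh => hB (hh ▸ k4)) hyz
      · exact h.yd.tinj' y z k1 k3 (fun hh => hA (hh ▸ k2)) (fun hh => hA (hh ▸ k4)) hyz
  have c0 : Disjoint (ins H (YY H I) (P \ I) Z) (ins H (NN H g I) (P \ I) Z) :=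
    disjoint_left.2 (fun y a1 a2 =>
      mem_YY.1 (mem_ins.1 a1).1 (mem_of_mem_erase (mem_ins.1 a2).1))
  rw [card_union_of_disjoint c0] at c1
  have c2 := card_union_le (Z.erase e) (I.filter (fun q => H (rr q) ∩ (P \ I) ⊆ Z))
  have c3 := card_erase_add_one hZ.2.1
  have c4 := hZ.2.2
  omega

theorem one {C : Fin n} {p : X} (hp : p ∈ I) (hpC : p ∈ H C) :
    ∃ u, Mt H (insert C (NN H g I)) (I \ {e}) u := by
  obtain ⟨u, hu⟩ := h.tg.m1 hp
  obtain ⟨u, hu⟩ := hu.cons (C := C) (p := p) (by simp) hpC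
  exact ⟨u, hu.mono (by rw [h.eqe]; exact insert_subset hp sdiff_subset)⟩

theorem o1 {C : Fin n} {x : X} (hC : C ∈ YY H I) (hK : InK P H I e C) (hx : Gd Φ side I rr x)
    (hxC : x ∈ H C) : Star P H g e := by
  obtain ⟨u, hu⟩ := h.one hx.1 hxC
  obtain ⟨v, hv⟩ := h.tg.m2 h.he hC hK
  refine fin_star h.tg.sub hu hv (fun y hy => ?_) (fun r hr hg => ?_)
  · have := Tg.tri (H := H) (I := I) y hy
    simp only [mem_insert, mem_erase (a := y) (b := C)]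
    tauto
  · rcases h.cover hC hx hxC g hr hg with k | ⟨D, d1, d2⟩
    · exact ⟨C, h.tg.neg hC, k, Or.inl (mem_insert_self _ _)⟩
    · exact ⟨D, (mem_erase.1 d1).1, d2, Or.inl (mem_insert_of_mem (mem_of_mem_erase d1))⟩

theorem o3 {D : Fin n} {x : X} {Z : Finset X} (hZ : Ti P H I e Z)
    (hR : ∀ r ∈ P, r ∉ H g → r ∈ Z) (hD : D ∈ YY H I) (hx : Gd Φ side I rr x) (hxD : x ∈ H D)
    (hn : ¬ H D ∩ (P \ I) ⊆ Z) : Star P H g e := by
  obtain ⟨C, hC, hK, p, hp, hpC⟩ := h.tg.exists_priv h.he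
  obtain ⟨u, hu⟩ := h.one hp hpC
  obtain ⟨v, hv⟩ := h.tg.m2 h.he hC hK
  obtain ⟨w, hw⟩ := h.tg.m5 hZ
  obtain ⟨v, hv, hv2⟩ := hv.split hw hZ.2.1
  have hDm : D ∈ YY H I \ ins H (YY H I) (P \ I) Z :=
    mem_sdiff.2 ⟨hD, fun hh => hn (mem_ins.1 hh).2⟩
  refine fin_star h.tg.sub hu hv (fun y hy => ?_) (fun r hr hg => ?_)
  · have := Tg.tri (H := H) (I := I) y hy
    simp only [mem_insert, mem_union, mem_sdiff (a := y), mem_ins, mem_erase (a := y) (b := C)]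
    tauto
  · rcases h.cover hD hx hxD g hr hg with k | ⟨D', d1, d2⟩
    · refine ⟨D, h.tg.neg hD, k, Or.inr ?_⟩
      by_contra hh
      exact hv2 D hDm hn (hR _ (h.tg.base.sub D (hv.2 D (mem_union_right _ hDm)).1) hh)
    · exact ⟨D', (mem_erase.1 d1).1, d2, Or.inl (mem_insert_of_mem (mem_of_mem_erase d1))⟩

theorem two_le {y : Fin n} {p x : X} (hy : y ∈ NN H g I)
    (hk : ∀ Z, Kt H g I Z → p ∈ Z → x ∈ Z → H y ∩ I ⊆ Z) {Z : Finset X} (hZ : Z ⊆ I)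
    (hp : p ∈ Z) (hx : x ∈ Z) : (ins H ((NN H g I).erase y) I Z).card + 2 ≤ Z.card := by
  obtain ⟨c1, c2⟩ := Tg.ins_erase (H := H) (NN H g I) I Z y
  have c3 := h.tg.kle hZ ⟨p, hp⟩
  by_cases ht : Z.card ≤ (ins H (NN H g I) I Z).card + 1
  · have := c2 hy (hk Z ⟨hZ, ht⟩ hp hx)
    omega
  · omega

theorem o2 {C D y : Fin n} {p x : X} (hC : C ∈ YY H I) (hK : InK P H I e C) (hp : p ∈ I)
    (hpC : p ∈ H C) (hD : D ∈ YY H I) (hK' : ¬ InK P H I e D) (hx : Gd Φ side I rr x)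
    (hxD : x ∈ H D) (hpx : p ≠ x) (hy : y ∈ NN H g I) (hF : Fo P H I e y D)
    (hk : ∀ Z, Kt H g I Z → p ∈ Z → x ∈ Z → H y ∩ I ⊆ Z) : Star P H g e := by
  obtain ⟨u, hu⟩ := hall (H := H) p ((NN H g I).erase y) I {p, x}
    (insert_subset hp (singleton_subset_iff.2 hx.1)) (fun Z a1 a2 => by
      rw [card_pair hpx]
      exact h.two_le hy hk a2 (a1 (by simp)) (a1 (by simp)))
  obtain ⟨u, hu⟩ := hu.cons (C := D) (p := x) (by simp) hxD
  obtain ⟨u, hu⟩ := hu.cons (C := C) (p := p) (by simp [hpx]) hpC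
  have hu := hu.mono (Q' := I \ {e})
    (by rw [h.eqe]; exact insert_subset hp (insert_subset hx.1 sdiff_subset))
  obtain ⟨v, hv⟩ := h.tg.m3 h.he hC hK hD hK' hF
  refine fin_star h.tg.sub hu hv (fun z hz => ?_) (fun r hr hg => ?_)
  · have := Tg.tri (H := H) (I := I) z hz
    simp only [mem_insert, mem_erase (a := z) (b := C), mem_erase (a := z) (b := D),
      mem_erase (a := z) (b := y)]
    tauto
  · rcases h.cover hD hx hxD y hr hg with k | ⟨D', d1, d2⟩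
    · exact ⟨D, h.tg.neg hD, k, Or.inl (by simp)⟩
    · exact ⟨D', (mem_erase.1 (mem_of_mem_erase d1)).1, d2,
        Or.inl (mem_insert_of_mem (mem_insert_of_mem d1))⟩

/-- some label of `N` forces the own label of a good point -/
theorem forced (hn : ¬ Star P H g e) {x : X} (hx : Gd Φ side I rr x) :
    ∃ y ∈ NN H g I, Fo P H I e y (rr x) := by
  classical
  have o := (h.own x hx.1).1
  have k : ¬ InK P H I e (rr x) := fun hh => hn (h.o1 o hh hx (h.rmem hx.1))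
  obtain ⟨Z, hZ, hm⟩ := exists_max_image
    ((P \ I).powerset.filter (fun Z => Ti P H I e Z ∧ ¬ H (rr x) ∩ (P \ I) ⊆ Z)) card (by
      unfold InK at k
      push Not at k
      obtain ⟨Z, z1, z2⟩ := k
      exact ⟨Z, mem_filter.2 ⟨mem_powerset.2 z1.1, z1, z2⟩⟩)
  obtain ⟨-, z1, z2⟩ := mem_filter.1 hZ
  by_cases hall : ∀ y ∈ NN H g I, H y ∩ (P \ I) ⊆ Z
  · rcases h.count z1 with c | c
    · exact absurd (h.o3 z1 c o hx (h.rmem hx.1) z2) hn
    · have c1 : (NN H g I).card ≤ (ins H (NN H g I) (P \ I) Z).card :=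
        card_le_card (fun y hy => mem_ins.2 ⟨hy, hall y hy⟩)
      have c2 := h.tg.cN
      have c3 := eq_of_subset_of_card_le
        (filter_subset (fun q => H (rr q) ∩ (P \ I) ⊆ Z) I) (by omega)
      have c4 := hx.1
      rw [← c3] at c4
      exact absurd (mem_filter.1 c4).2 z2
  push Not at hall
  obtain ⟨y, y1, y2⟩ := hall
  refine ⟨y, y1, fun Z' a1 a2 => ?_⟩
  by_contra a3
  obtain ⟨u1, -, u3⟩ := h.tg.ti_two z1 a1
  have := hm (Z ∪ Z') (mem_filter.2 ⟨mem_powerset.2 u1.1, u1,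
    fun hh => (u3 _ o hh).elim z2 a3⟩)
  have e1 := eq_of_subset_of_card_le (subset_union_left : Z ⊆ Z ∪ Z') this
  exact y2 (a2.trans (e1 ▸ subset_union_right))

/-- the exchange that uses the bottom point -/
theorem bottom (hn : ¬ Star P H g e) {p0 p x : X} (h0 : ∀ q ∈ I, Φ p0 ≤ Φ q) {C : Fin n}
    (hC : C ∈ YY H I) (hK : InK P H I e C) (hp : p ∈ I) (hpC : p ∈ H C)
    (hx : Gd Φ side I rr x) (hpx : p ≠ x) (hb : p0 = p ∨ p0 = x) : False := by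
  obtain ⟨y, y1, y2⟩ := h.forced hn hx
  have o := (h.own x hx.1).1
  refine hn (h.o2 hC hK hp hpC o (fun hh => hn (h.o1 o hh hx (h.rmem hx.1))) hx (h.rmem hx.1)
    hpx y1 y2 (fun Z z1 z2 z3 q hq => ?_))
  have : p0 ∈ Z := by rcases hb with rfl | rfl <;> assumption
  exact h.upper z1 (one_lt_card.2 ⟨p, z2, x, z3, hpx⟩) this (mem_inter.1 hq).2
    (h0 q (mem_inter.1 hq).2)

theorem star : Star P H g e := by
  classical
  by_contra hn
  have two := h.tg.two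
  have cN := h.tg.cN
  obtain ⟨C, hC, hK, p, hp, hpC⟩ := h.tg.exists_priv h.he
  have nK : ∀ {D x}, D ∈ YY H I → Gd Φ side I rr x → x ∈ H D → ¬ InK P H I e D :=
    fun a1 a2 a3 a4 => hn (h.o1 a1 a4 a2 a3)
  have pn : ¬ Gd Φ side I rr p := fun hh => nK hC hh hpC hK
  obtain ⟨p0, hp0, h0⟩ := exists_min_image I Φ ⟨p, hp⟩
  have n0 : ¬ Gd Φ side I rr p0 := fun hh =>
    h.bottom hn h0 hC hK hp hpC hh (fun k => pn (k ▸ hh)) (Or.inr rfl)
  have cls : ∀ q ∈ I, q ≠ p0 → side (rr q) ≠ side (rr p0) := fun q hq hne hh =>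
    n0 ⟨hp0, q, hq, h.lt_of_ne hp0 hq hne.symm (h0 q hq), hh⟩
  have ce := card_erase_add_one hp0
  obtain ⟨x, hx, hx0⟩ := exists_min_image (I.erase p0) Φ (card_pos.1 (by omega))
  obtain ⟨xp, xI⟩ := mem_erase.1 hx
  obtain ⟨w0, w1, w2, w3⟩ := h.stab p0 hp0
  have w4 := (h.opp w1 hp0 w2 w3).1
  have three : 3 ≤ I.card := by
    by_contra hh
    obtain ⟨w', a1, a2, a3⟩ := h.stab x xI
    have : w' = w0 := card_le_one.1 (by omega) _ (h.opp a1 xI a2 a3).1 _ w4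
    exact a3 (this ▸ bool3 w3 (cls x xI xp))
  have xg : Gd Φ side I rr x := by
    obtain ⟨q, hq, hqx⟩ := exists_mem_ne (s := I.erase p0) (by omega) x
    obtain ⟨q1, q2⟩ := mem_erase.1 hq
    exact ⟨xI, q, q2, h.lt_of_ne xI q2 hqx.symm (hx0 q hq), bool3 (cls q q2 q1) (cls x xI xp)⟩
  have px : p ≠ x := fun k => pn (k ▸ xg)
  have pp : p ≠ p0 := fun k => h.bottom hn h0 hC hK hp hpC xg px (Or.inl k.symm)
  have o0 := (h.own p0 hp0).1
  have ox := (h.own x xI).1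
  have nK0 : ¬ InK P H I e (rr p0) := fun k =>
    h.bottom hn h0 o0 k hp0 (h.rmem hp0) xg xp.symm (Or.inl rfl)
  have oth : ∀ q ∈ I, q ≠ p0 → q ≠ p → Gd Φ side I rr q := by
    intro q hq a1 a2
    rcases le_total (Φ q) (Φ p) with k | k
    · exact ⟨hq, p, hp, h.lt_of_ne hq hp a2 k, bool3 (cls p hp pp) (cls q hq a1)⟩
    · exact absurd ⟨hp, q, hq, h.lt_of_ne hp hq a2.symm k,
        bool3 (cls q hq a1) (cls p hp pp)⟩ pn
  obtain ⟨y0, y0N, y0F⟩ := h.forced hn xg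
  obtain ⟨Z, z1, z2, z3, z4⟩ : ∃ Z, Kt H g I Z ∧ p ∈ Z ∧ x ∈ Z ∧ ¬ H y0 ∩ I ⊆ Z := by
    by_contra hh
    push Not at hh
    exact hn (h.o2 hC hK hp hpC ox (nK ox xg (h.rmem xI)) xg (h.rmem xI) px y0N y0F hh)
  have z5 : 2 ≤ Z.card := one_lt_card.2 ⟨p, z2, x, z3, px⟩
  have z6 : I.erase p0 ⊆ Z := fun q hq => h.upper z1 z5 z3 (mem_of_mem_erase hq) (hx0 q hq)
  have z7 : p0 ∉ Z := fun hh => z4 (fun q hq => by
    by_cases k : q = p0
    · exact k ▸ hh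
    · exact z6 (mem_erase.2 ⟨k, (mem_inter.1 hq).2⟩))
  have only : ∀ y ∈ NN H g I, p0 ∈ H y → y = y0 := by
    intro y hy hpy
    by_contra hh
    have s : ins H (NN H g I) I Z ⊆ ((NN H g I).erase y0).erase y := fun z hz => by
      obtain ⟨a1, a2⟩ := mem_ins.1 hz
      exact mem_erase.2 ⟨fun k => z7 (a2 (mem_inter.2 ⟨k ▸ hpy, hp0⟩)),
        mem_erase.2 ⟨fun k => z4 (k ▸ a2), a1⟩⟩
    have c1 := card_le_card s
    have c2 := card_erase_add_one y0N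
    have c3 := card_erase_add_one (mem_erase.2 ⟨hh, hy⟩ : y ∈ (NN H g I).erase y0)
    have c4 := card_le_card z6
    have c5 := z1.2
    omega
  have s0 : side y0 ≠ side (rr p0) := only w0 w4 w2 ▸ w3
  obtain ⟨U, hU, hUm⟩ := exists_min_image (I.powerset.filter (fun U => Kt H g I U ∧ 2 ≤ U.card))
    card ⟨Z, mem_filter.2 ⟨mem_powerset.2 z1.1, z1, z5⟩⟩
  obtain ⟨-, u1, u2⟩ := mem_filter.1 hU
  have uleast : ∀ V, Kt H g I V → 2 ≤ V.card → U ⊆ V := by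
    intro V v1 v2
    by_contra hh
    obtain ⟨q, q1, q2⟩ := not_subset.1 hh
    have s : V ⊆ U := fun v hv => by
      rcases le_total (Φ q) (Φ v) with k | k
      · exact h.upper u1 u2 q1 (v1.1 hv) k
      · exact absurd (h.upper v1 v2 hv (u1.1 q1) k) q2
    have := hUm V (mem_filter.2 ⟨mem_powerset.2 v1.1, v1, v2⟩)
    exact q2 (eq_of_subset_of_card_le s this ▸ q1)
  have uZ := uleast Z z1 z5
  obtain ⟨x', hx'⟩ : U.Nonempty := card_pos.1 (by omega)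
  obtain ⟨y1, y1N, y1U, -, y1s⟩ := h.minl u1 (fun k => z7 (uZ (k ▸ hp0))) u2 hx'
  have s1 : side y1 = side (rr p0) :=
    bool3 y1s (cls x' (u1.1 hx') (fun k => z7 (uZ (k ▸ hx')))).symm
  have hk1 : ∀ q q', q ≠ q' → ∀ V, Kt H g I V → q ∈ V → q' ∈ V → H y1 ∩ I ⊆ V :=
    fun q q' hne V v1 v2 v3 => y1U.trans (uleast V v1 (one_lt_card.2 ⟨q, v2, q', v3, hne⟩))
  obtain ⟨Z1, t1, t2, t3⟩ := h.tg.ti_min h.he (inter_subset_right : H y1 ∩ (P \ I) ⊆ P \ I)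
  have ng : ∀ q, Gd Φ side I rr q → ¬ H (rr q) ∩ (P \ I) ⊆ Z1 := by
    intro q hq hh
    have oq := (h.own q hq.1).1
    have pq : p ≠ q := fun k => pn (k ▸ hq)
    exact hn (h.o2 hC hK hp hpC oq (nK oq hq (h.rmem hq.1)) hq (h.rmem hq.1) pq y1N
      (fun V v1 v2 => hh.trans (t3 V v1 v2)) (hk1 p q pq))
  have d0 : H (rr p0) ∩ (P \ I) ⊆ Z1 := by
    rcases h.count t1 with c | c
    · exact absurd (h.o3 t1 c ox xg (h.rmem xI) (ng x xg)) hn
    by_contra hh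
    have c1 : 0 < (ins H (NN H g I) (P \ I) Z1).card := card_pos.2 ⟨y1, mem_ins.2 ⟨y1N, t2⟩⟩
    have c2 : I.filter (fun q => H (rr q) ∩ (P \ I) ⊆ Z1) ⊆ {p} := fun q hq => by
      obtain ⟨q1, q2⟩ := mem_filter.1 hq
      by_contra k
      exact ng q (oth q q1 (fun k2 => hh (k2 ▸ q2)) (fun k2 => k (mem_singleton.2 k2))) q2
    have c3 := card_le_card c2
    rw [card_singleton] at c3
    omega
  obtain ⟨u, hu⟩ := hall (H := H) p (((NN H g I).erase y1).erase y0) I {p0, p, x}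
    (insert_subset hp0 (insert_subset hp (singleton_subset_iff.2 xI))) (fun V a1 a2 => by
      rw [card_insert_of_notMem (by simp [pp.symm, xp.symm]), card_pair px]
      have c1 := h.two_le y1N (hk1 p x px) ((erase_subset p0 V).trans a2)
        (mem_erase.2 ⟨pp, a1 (by simp)⟩) (mem_erase.2 ⟨xp, a1 (by simp)⟩)
      have c2 := card_erase_add_one (a1 (mem_insert_self _ _))
      have c3 : ins H (((NN H g I).erase y1).erase y0) I V ⊆
          ins H ((NN H g I).erase y1) I (V.erase p0) := fun z hz => by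
        obtain ⟨b1, b2⟩ := mem_ins.1 hz
        obtain ⟨b3, b4⟩ := mem_erase.1 b1
        exact mem_ins.2 ⟨b4, fun q hq => mem_erase.2 ⟨fun k => b3
          (only z (mem_of_mem_erase b4) (k ▸ (mem_inter.1 hq).1)), b2 hq⟩⟩
      have c4 := card_le_card c3
      omega)
  obtain ⟨u, hu⟩ := hu.cons (C := rr x) (p := x) (by simp) (h.rmem xI)
  obtain ⟨u, hu⟩ := hu.cons (C := C) (p := p) (by simp [px]) hpC
  obtain ⟨u, hu⟩ := hu.cons (C := rr p0) (p := p0) (by simp [pp.symm, xp.symm]) (h.rmem hp0)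
  have hu := hu.mono (Q' := I \ {e}) (by
    rw [h.eqe]; exact insert_subset hp0 (insert_subset hp (insert_subset xI sdiff_subset)))
  obtain ⟨v, hv⟩ := h.tg.m3 h.he hC hK o0 nK0 (y := y1) (fun V v1 v2 => d0.trans (t3 V v1 v2))
  obtain ⟨w, hw⟩ := h.tg.m4 t1 ox (ng x xg) y0F
  obtain ⟨v, hv, -⟩ := hv.split hw t1.2.1
  refine hn (fin_star h.tg.sub hu hv (fun z hz => ?_) (fun r hr hg => ?_))
  · by_cases a1 : z = y1
    · exact Or.inr (mem_union_left _ (mem_ins.2 ⟨a1 ▸ mem_insert_self _ _, a1 ▸ t2⟩))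
    by_cases a2 : z = y0
    · exact Or.inr (mem_union_right _ (a2 ▸ mem_insert_self _ _))
    by_cases a3 : z = rr p0
    · exact Or.inl (a3 ▸ mem_insert_self _ _)
    by_cases a4 : z = C
    · exact Or.inl (mem_insert_of_mem (a4 ▸ mem_insert_self _ _))
    by_cases a5 : z = rr x
    · exact Or.inl (mem_insert_of_mem (mem_insert_of_mem (a5 ▸ mem_insert_self _ _)))
    rcases Tg.tri (H := H) (I := I) z hz with k | k
    · exact Or.inl (mem_insert_of_mem (mem_insert_of_mem (mem_insert_of_mem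
        (mem_erase.2 ⟨a2, mem_erase.2 ⟨a1, k⟩⟩))))
    by_cases a6 : H z ∩ (P \ I) ⊆ Z1
    · exact Or.inr (mem_union_left _ (mem_ins.2
        ⟨mem_insert_of_mem (mem_erase.2 ⟨a3, mem_erase.2 ⟨a4, k⟩⟩), a6⟩))
    · exact Or.inr (mem_union_right _ (mem_insert_of_mem
        (mem_erase.2 ⟨a5, mem_sdiff.2 ⟨k, fun hh => a6 (mem_ins.1 hh).2⟩⟩)))
  · by_cases r1 : r ∈ H (rr x)
    · exact ⟨rr x, h.tg.neg ox, r1, Or.inl (by simp)⟩
    by_cases r2 : r ∈ H (rr p0)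
    · exact ⟨rr p0, h.tg.neg o0, r2, Or.inl (by simp)⟩
    have xlt : Φ x < Φ p := h.lt_of_ne xI hp px.symm (hx0 p (mem_erase.2 ⟨pp, hp⟩))
    have key : ∀ D, r ∈ H D → p ∈ H D → D ∈ (NN H g I).erase y1 := by
      intro D a1 a2
      have dN := h.gen ox xI (h.rmem xI) hp xlt (bool3 (cls p hp pp) (cls x xI xp)) hr hg r1 a1 a2
      refine mem_erase.2 ⟨fun k => ?_, dN⟩
      subst k
      rcases h.fr.aba D (rr p0) (mem_erase.1 dN).1 (h.tg.neg o0) s1 r p0 p (h.low hr hg hp0)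
        (h.lt_of_ne hp0 hp pp.symm (h0 p hp)) a1 a2 (h.rmem hp0) with k | k | k
      · exact s0 (only D dN k ▸ s1)
      · exact r2 k
      · exact pp (priv o0 hp hp0 k (h.rmem hp0))
    obtain ⟨D, D', hne, a1, a2⟩ := h.tg.base.dh.pair hr (h.tg.subP hp)
      (fun hh => hg (hh ▸ h.tg.sub hp))
    have fin : ∀ D, D ≠ y0 → r ∈ H D → p ∈ H D → ∃ y, y ≠ g ∧ r ∈ H y ∧
        (y ∈ insert (rr p0) (insert C (insert (rr x) (((NN H g I).erase y1).erase y0))) ∨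
          v y ∈ H g) := fun D b1 b2 b3 =>
      ⟨D, fun k => hg (k ▸ b2), b2, Or.inl (mem_insert_of_mem (mem_insert_of_mem
        (mem_insert_of_mem (mem_erase.2 ⟨b1, key D b2 b3⟩))))⟩
    by_cases k : D = y0
    · exact fin D' (k ▸ hne.symm) a2.1 a2.2
    · exact fin D k a1.1 a1.2

end Cx

end St

open St in
theorem star : StarS := by
  intro X _ n P H g A B a b e Φ side t I hb fr yd cov stab bad
  by_contra hn
  obtain ⟨m, hm⟩ : ∃ m, I.card = m := ⟨_, rfl⟩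
  induction m using Nat.strong_induction_on generalizing I with
  | _ m ih =>
  have tg : Tg P H g I := ⟨hb, bad.sub, bad.two, bad.tight⟩
  have eP : e ∈ P := hb.sub g fr.emem
  by_cases hN : ∀ r ∈ P, r ∉ H g → ∃ y ∈ NN H g I, r ∈ H y
  · apply hn
    by_cases he : e ∈ I
    · obtain ⟨u, hu⟩ := tg.m1 he
      obtain ⟨v, hv⟩ := hall (H := H) e (YY H I) (P \ I) ∅ (empty_subset _) (fun Z _ a2 => tg.lle a2)
      refine fin_star tg.sub hu (hv.mono (fun p hp => ?_)) (fun y hy => Tg.tri y hy)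
        (fun r hr hg => ?_)
      · rw [sdiff_empty] at hp
        exact mem_sdiff.2 ⟨hp, fun k => (mem_sdiff.1 hp).2 (mem_singleton.1 k ▸ he)⟩
      · obtain ⟨y, y1, y2⟩ := hN r hr hg
        exact ⟨y, (mem_erase.1 y1).1, y2, Or.inl y1⟩
    · have he' : e ∈ P \ I := mem_sdiff.2 ⟨eP, he⟩
      obtain ⟨C, hC, hK, p, hp, hpC⟩ := tg.exists_priv he'
      obtain ⟨u, hu⟩ := tg.m1 hp
      obtain ⟨u, hu⟩ := hu.cons (C := C) (p := p) (by simp) hpC
      obtain ⟨v, hv⟩ := tg.m2 he' hC hK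
      refine fin_star tg.sub (hu.mono ?_) hv (fun y hy => ?_) (fun r hr hg => ?_)
      · rw [sdiff_eq_self_of_disjoint (disjoint_singleton_right.2 he)]
        exact insert_subset hp sdiff_subset
      · have := Tg.tri (H := H) (I := I) y hy
        simp only [mem_insert, mem_erase (a := y) (b := C)]
        tauto
      · obtain ⟨y, y1, y2⟩ := hN r hr hg
        exact ⟨y, (mem_erase.1 y1).1, y2, Or.inl (mem_insert_of_mem y1)⟩
  push Not at hN
  obtain ⟨r, hr, hg, hN⟩ := hN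
  have ex : ∀ p, ∃ y, p ∈ I → y ∈ YY H I ∧ t y = p ∧ ∀ z ∈ YY H I, p ∈ H z → side z = side y := by
    intro p
    by_cases hp : p ∈ I
    swap
    · exact ⟨g, fun k => absurd k hp⟩
    obtain ⟨u, -, -, ⟨u1, u2⟩, -⟩ := hb.dh.pair hr (tg.subP hp) (fun hh => hg (hh ▸ tg.sub hp))
    have u3 : u ∈ YY H I :=
      (Tg.tri (g := g) u (fun k => hg (k ▸ u1))).resolve_left (fun k => hN u k u1)
    obtain ⟨y, y1, y2, -⟩ := bad.own p hp u (mem_YY.1 u3) u2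
    refine ⟨y, fun _ => ⟨mem_YY.2 y1, y2, fun z z1 z2 => ?_⟩⟩
    obtain ⟨y', a1, a2, a3⟩ := bad.own p hp z (mem_YY.1 z1) z2
    have nB : ∀ w, t w = p → w ≠ B := fun w k k2 =>
      (bad.avoid p hp).2 (k ▸ k2 ▸ (yd.tmem B yd.hBg).1)
    rw [a3, yd.tinj y' y (tg.neg (mem_YY.2 a1)) (tg.neg (mem_YY.2 y1)) (nB _ a2) (nB _ y2)
      (a2.trans y2.symm)]
  choose rr hrr using ex
  have he : e ∉ I := fun k => (yd.tmem _ (tg.neg (hrr e k).1)).2.2 (hrr e k).2.1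
  refine hn (Cx.star (rr := rr) ⟨tg, fr, yd, cov, bad.avoid, fun p hp => ?_, hrr,
    fun I' h1 h2 => ih _ (hm ▸ h1) I' h2 rfl, mem_sdiff.2 ⟨eP, he⟩⟩)
  obtain ⟨C, D, c1, c2, c3, c4, c5⟩ := stab p (tg.sub hp) (fun k => he (k ▸ hp))
    (bad.avoid p hp).1 (bad.avoid p hp).2
  by_cases k : side C = side (rr p)
  · exact ⟨D, c2, c4, fun k2 => c5 (k.trans k2.symm)⟩
  · exact ⟨C, c1, c3, k⟩

end Pool.Agent.MP_3b4e7c_co.Gen
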